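import Mathlib

set_option autoImplicit false

/-!
Algebraic lemmas on torsion groups with finite socles.
-/

namespace Pool.Agent.H731R3.Tame

/-- Antitone families of subsets of a finite set, indexed by the naturals, stabilise. -/
theorem antitone_stab {α : Type*} (Φ : Set α) (hΦ : Φ.Finite) (f : ℕ → Set α) (hf : Antitone f)
    (h0 : ∀ n, f n ⊆ Φ) : ∃ n₀, ∀ n, n₀ ≤ n → f n = f n₀ := by
  have hne : (Set.range fun n => (f n).ncard).Nonempty := ⟨_, 0, rfl⟩
  obtain ⟨n₀, hn₀⟩ := Nat.sInf_mem hne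
  refine ⟨n₀, fun n hn => ?_⟩
  refine Set.eq_of_subset_of_ncard_le (hf hn) ?_ (hΦ.subset (h0 n₀))
  have : sInf (Set.range fun n => (f n).ncard) ≤ (f n).ncard := Nat.sInf_le ⟨n, rfl⟩
  simp only at hn₀
  omega

/-- Descending chain condition for subgroups of a group killed by powers of `N` with finite
`N`-torsion. -/
theorem dcc {A : Type*} [AddCommGroup A] (N : ℕ) (B : ℕ → AddSubgroup A) (hB : Antitone B)
    (hN : ∀ x ∈ B 0, ∃ k : ℕ, N ^ k • x = 0) (hfin : {x : A | x ∈ B 0 ∧ N • x = 0}.Finite) :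
    ∃ l₁, ∀ l, l₁ ≤ l → B l = B l₁ := by
  classical
  set Φ : Set A := {x : A | x ∈ B 0 ∧ N • x = 0} with hΦ
  let f : ℕ → ℕ → Set A := fun k l => {x : A | N • x = 0 ∧ ∃ y ∈ B l, x = N ^ k • y}
  have hsub : ∀ k l, f k l ⊆ Φ := by
    rintro k l x ⟨hx, y, hy, rfl⟩
    exact ⟨(B 0).nsmul_mem (hB (Nat.zero_le l) hy) _, hx⟩
  have hl : ∀ k, Antitone (f k) := by
    rintro k l l' hll x ⟨hx, y, hy, rfl⟩
    exact ⟨hx, y, hB hll hy, rfl⟩
  have hk : ∀ l, Antitone (fun k => f k l) := by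
    rintro l k k' hkk x ⟨hx, y, hy, rfl⟩
    refine ⟨hx, N ^ (k' - k) • y, (B l).nsmul_mem hy _, ?_⟩
    rw [smul_smul, ← pow_add]
    congr 2
    omega
  -- uniform stabilisation
  have hne : (Set.range fun q : ℕ × ℕ => (f q.1 q.2).ncard).Nonempty := ⟨_, (0, 0), rfl⟩
  obtain ⟨⟨k₀, l₀⟩, h00⟩ := Nat.sInf_mem hne
  have hmin : ∀ k l, k₀ ≤ k → l₀ ≤ l → f k l = f k₀ l₀ := by
    intro k l hk' hl'
    have hss : f k l ⊆ f k₀ l₀ := ((hk l) hk').trans ((hl k₀) hl')
    refine Set.eq_of_subset_of_ncard_le hss ?_ (hfin.subset (hsub _ _))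
    have : sInf (Set.range fun q : ℕ × ℕ => (f q.1 q.2).ncard) ≤ (f k l).ncard :=
      Nat.sInf_le ⟨(k, l), rfl⟩
    simp only at h00
    omega
  have hst : ∀ k, ∃ l₁, ∀ l, l₁ ≤ l → f k l = f k l₁ := fun k =>
    antitone_stab Φ hfin (f k) (hl k) (hsub k)
  choose L hL using hst
  set l₁ := max l₀ ((Finset.range k₀).sup L) with hl₁
  have huni : ∀ k l, l₁ ≤ l → f k l = f k l₁ := by
    intro k l hll
    by_cases hkk : k₀ ≤ k
    · rw [hmin k l hkk (le_trans (le_max_left _ _) hll), hmin k l₁ hkk (le_max_left _ _)]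
    · have h1 : L k ≤ l₁ := le_trans (Finset.le_sup (f := L) (Finset.mem_range.2 (not_le.1 hkk)))
        (le_max_right _ _)
      rw [hL k l (h1.trans hll), hL k l₁ h1]
  refine ⟨l₁, fun l hll => le_antisymm (hB hll) ?_⟩
  have key : ∀ k, ∀ x ∈ B l₁, N ^ k • x = 0 → x ∈ B l := by
    intro k
    induction k with
    | zero =>
      intro x _ hx
      rw [pow_zero, one_smul] at hx
      rw [hx]; exact (B l).zero_mem
    | succ k ih =>
      intro x hx hkx
      have hmem : N ^ k • x ∈ f k l₁ := by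
        refine ⟨?_, x, hx, rfl⟩
        rw [smul_smul, ← pow_succ']
        exact hkx
      rw [← huni k l hll] at hmem
      obtain ⟨_, y, hy, hxy⟩ := hmem
      have h2 : x - y ∈ B l := by
        refine ih (x - y) ((B l₁).sub_mem hx (hB hll hy)) ?_
        rw [smul_sub, hxy, sub_self]
      have := (B l).add_mem h2 hy
      rwa [sub_add_cancel] at this
  intro x hx
  obtain ⟨k, hkx⟩ := hN x (hB (Nat.zero_le _) hx)
  exact key k x hx hkx

theorem crt (N : ℕ) (k : ℕ) : ∀ L : ℕ, 1 ≤ L → ∃ t k₁ : ℕ, L ∣ N ^ k₁ * (1 + N ^ k * t) := by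
  intro L
  induction L using Nat.strong_induction_on with
  | _ L ih =>
    intro hL
    by_cases hcop : Nat.Coprime L N
    · -- solve N^k t ≡ -1 mod L
      have hc : Nat.Coprime (N ^ k) L := (Nat.Coprime.pow_right k hcop).symm
      have hex : ∃ t : ℕ, L ∣ 1 + N ^ k * t := by
        have hu : IsUnit ((N ^ k : ℕ) : ZMod L) := (ZMod.isUnit_iff_coprime _ _).2 hc
        obtain ⟨u, hu⟩ := hu
        have : NeZero L := ⟨by omega⟩
        refine ⟨(-(↑u⁻¹ : ZMod L)).val, ?_⟩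
        rw [← ZMod.natCast_eq_zero_iff]
        push_cast
        rw [ZMod.natCast_zmod_val]
        push_cast at hu
        rw [← hu]
        simp
      obtain ⟨t, ht⟩ := hex
      exact ⟨t, 0, by simpa using ht⟩
    · have hd : 1 < Nat.gcd L N := by
        have h0 : Nat.gcd L N ≠ 0 := by
          intro h
          rw [Nat.gcd_eq_zero_iff] at h
          omega
        have h1 : Nat.gcd L N ≠ 1 := hcop
        omega
      obtain ⟨L', hL'⟩ := Nat.gcd_dvd_left L N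
      obtain ⟨N', hN'⟩ := Nat.gcd_dvd_right L N
      set d := Nat.gcd L N with hdd
      have hL'pos : 1 ≤ L' := by
        rcases Nat.eq_zero_or_pos L' with h | h
        · rw [h] at hL'; omega
        · exact h
      have hlt : L' < L := by
        calc L' < d * L' := by nlinarith
          _ = L := hL'.symm
      obtain ⟨t, k₁, ht⟩ := ih L' hlt hL'pos
      refine ⟨t, k₁ + 1, ?_⟩
      have : N ^ (k₁ + 1) * (1 + N ^ k * t) = N * (N ^ k₁ * (1 + N ^ k * t)) := by ring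
      rw [this]
      conv_lhs => rw [hL']
      exact mul_dvd_mul ⟨N', hN'⟩ ht

theorem lemQ {A : Type*} [AddCommGroup A] (V : AddSubgroup A) (S : ℕ → AddSubgroup A)
    (hS : Antitone S) (N : ℕ) (hfin : {x : A | x ∈ V ∧ N • x = 0}.Finite)
    (htorV : ∀ v ∈ V, ∃ k : ℕ, 1 ≤ k ∧ k • v = 0) (b : A) (hb : ∃ k : ℕ, 1 ≤ k ∧ k • b = 0)
    (k : ℕ) (hkb : N ^ k • b ∈ V) (hex : ∀ l, ∃ v ∈ V, b + v ∈ S l) :
    ∃ v ∈ V, (∀ l, b + v ∈ S l) ∧ ∃ k', N ^ k' • (b + v) = 0 := by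
  obtain ⟨L, hL1, hLb⟩ := hb
  obtain ⟨t, k₁, hdvd⟩ := crt N k L hL1
  -- the corrected element
  set v₁ := t • (N ^ k • b) with hv₁
  have hv₁V : v₁ ∈ V := V.nsmul_mem hkb _
  have hb₁ : b + v₁ = (1 + N ^ k * t) • b := by
    rw [hv₁, add_smul, one_smul, smul_smul, mul_comm t]
  have hkill : N ^ k₁ • (b + v₁) = 0 := by
    rw [hb₁, smul_smul]
    obtain ⟨r, hr⟩ := hdvd
    rw [hr, mul_comm, mul_smul, hLb, smul_zero]
  have hex₁ : ∀ l, ∃ v ∈ V, (∃ k', N ^ k' • v = 0) ∧ (b + v₁) + v ∈ S l := by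
    intro l
    obtain ⟨v', hv', hS'⟩ := hex l
    -- v' - v₁ works, then correct
    set v := v' - v₁ with hv
    have hvV : v ∈ V := V.sub_mem hv' hv₁V
    have hvS : (b + v₁) + v ∈ S l := by
      have : (b + v₁) + v = b + v' := by rw [hv]; abel
      rwa [this]
    obtain ⟨M, hM1, hMv⟩ := htorV v hvV
    obtain ⟨s, k₂, hdvd₂⟩ := crt N k₁ M hM1
    refine ⟨(1 + N ^ k₁ * s) • v, V.nsmul_mem hvV _, ⟨k₂, ?_⟩, ?_⟩
    · rw [smul_smul]
      obtain ⟨r, hr⟩ := hdvd₂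
      rw [hr, mul_comm, mul_smul, hMv, smul_zero]
    · have h1 : N ^ k₁ • v ∈ S l := by
        have h2 := (S l).nsmul_mem hvS (N ^ k₁)
        rwa [smul_add, hkill, zero_add] at h2
      have h3 : (b + v₁) + (1 + N ^ k₁ * s) • v = ((b + v₁) + v) + s • (N ^ k₁ • v) := by
        rw [add_smul, one_smul, smul_smul, mul_comm s]; abel
      rw [h3]
      exact (S l).add_mem hvS ((S l).nsmul_mem h1 _)
  -- the power torsion part of V
  let J : AddSubgroup A :=
    { carrier := {v | v ∈ V ∧ ∃ k', N ^ k' • v = 0}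
      zero_mem' := ⟨V.zero_mem, 0, by simp⟩
      add_mem' := by
        rintro x y ⟨hx, kx, hkx⟩ ⟨hy, ky, hky⟩
        refine ⟨V.add_mem hx hy, kx + ky, ?_⟩
        rw [smul_add, pow_add, mul_comm, mul_smul, hkx, smul_zero, mul_comm, mul_smul, hky,
          smul_zero, add_zero]
      neg_mem' := by
        rintro x ⟨hx, kx, hkx⟩
        exact ⟨V.neg_mem hx, kx, by rw [smul_neg, hkx, neg_zero]⟩ }
  have hJmem : ∀ v, v ∈ J ↔ v ∈ V ∧ ∃ k', N ^ k' • v = 0 := fun v => Iff.rfl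
  obtain ⟨l₁, hl₁⟩ := dcc N (fun l => S l ⊓ J) (fun l l' hll => inf_le_inf_right _ (hS hll))
    (fun x hx => ((hJmem x).1 (AddSubgroup.mem_inf.1 hx).2).2)
    (hfin.subset (by
      rintro x ⟨hx, hx'⟩
      exact ⟨((hJmem x).1 (AddSubgroup.mem_inf.1 hx).2).1, hx'⟩))
  obtain ⟨d, hdV, ⟨kd, hkd⟩, hdS⟩ := hex₁ l₁
  have hall : ∀ l, (b + v₁) + d ∈ S l := by
    intro l
    rcases le_total l l₁ with hll | hll
    · exact hS hll hdS
    · obtain ⟨d', hd'V, hd'k, hd'S⟩ := hex₁ l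
      have hmem : d - d' ∈ S l₁ ⊓ J := by
        refine AddSubgroup.mem_inf.2 ⟨?_, J.sub_mem ((hJmem d).2 ⟨hdV, kd, hkd⟩)
          ((hJmem d').2 ⟨hd'V, hd'k⟩)⟩
        have : d - d' = ((b + v₁) + d) - ((b + v₁) + d') := by abel
        rw [this]
        exact (S l₁).sub_mem hdS (hS hll hd'S)
      have hmem' : d - d' ∈ S l ⊓ J := by
        have h4 : S l ⊓ J = S l₁ ⊓ J := hl₁ l hll
        rw [h4]; exact hmem
      have : (b + v₁) + d = ((b + v₁) + d') + (d - d') := by abel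
      rw [this]
      exact (S l).add_mem hd'S (AddSubgroup.mem_inf.1 hmem').1
  refine ⟨v₁ + d, V.add_mem hv₁V hdV, fun l => by rw [← add_assoc]; exact hall l, k₁ + kd, ?_⟩
  rw [← add_assoc, smul_add]
  have e1 : N ^ (k₁ + kd) • (b + v₁) = 0 := by
    rw [pow_add, mul_comm, mul_smul, hkill, smul_zero]
  have e2 : N ^ (k₁ + kd) • d = 0 := by
    rw [pow_add, mul_smul, hkd, smul_zero]
  rw [e1, e2, add_zero]

end Pool.Agent.H731R3.Tame
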