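import Mathlib

set_option autoImplicit false

/-!
Further algebraic lemmas: finite socles and large independent subgroups.
-/

namespace Pool.Agent.H731R3.Tame

theorem card_bound {Q : Type*} [AddCommGroup Q] (p : ℕ) (Y : AddSubgroup Q)
    (htor : ∀ y ∈ Y, ∃ k : ℕ, 1 ≤ k ∧ k • y = 0)
    (hfin : {q : Q | q ∈ Y ∧ p • q = 0}.Finite) (E : Finset Q) (hE : ∀ e ∈ E, e ∈ Y)
    (hinc : ∀ e ∈ E, ∀ e' ∈ E, e ≠ e' → ¬ ∃ z ∈ Y, e = e' + p • z) :
    E.card ≤ {q : Q | q ∈ Y ∧ p • q = 0}.ncard := by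
  classical
  set H : AddSubgroup Q := AddSubgroup.closure (E : Set Q) with hH
  have hHY : H ≤ Y := by
    rw [hH, AddSubgroup.closure_le]
    exact hE
  have hfg : AddGroup.FG H := (AddGroup.fg_iff_addSubgroup_fg H).2 ⟨E, rfl⟩
  have htorH : IsAddTorsion H := by
    intro h
    obtain ⟨k, hk1, hk⟩ := htor h (hHY h.2)
    rw [isOfFinAddOrder_iff_nsmul_eq_zero]
    exact ⟨k, hk1, by ext; simpa using hk⟩
  have hfinH : Finite H := AddCommGroup.finite_of_fg_isAddTorsion H htorH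
  let φ : H →+ H := nsmulAddMonoidHom p
  have hcard : φ.range.index = Nat.card φ.ker := by
    have h1 : Nat.card φ.ker * φ.ker.index = Nat.card H := φ.ker.card_mul_index
    have h2 : Nat.card φ.range * φ.range.index = Nat.card H := φ.range.card_mul_index
    have h3 : φ.ker.index = Nat.card φ.range := AddSubgroup.index_ker φ
    have h4 : 0 < Nat.card φ.range := Nat.card_pos
    rw [h3] at h1
    have : Nat.card φ.range * φ.range.index = Nat.card φ.range * Nat.card φ.ker := by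
      rw [h2, ← h1, mul_comm]
    exact Nat.eq_of_mul_eq_mul_left h4 this
  have hker : Nat.card φ.ker ≤ {q : Q | q ∈ Y ∧ p • q = 0}.ncard := by
    rw [← Nat.card_coe_set_eq]
    have : Finite {q : Q | q ∈ Y ∧ p • q = 0} := hfin
    refine Nat.card_le_card_of_injective
      (fun x : φ.ker => (⟨((x : H) : Q), hHY (x : H).2, by
        have h1 : φ (x : H) = 0 := x.2
        have h2 : ((p • (x : H) : H) : Q) = ((0 : H) : Q) := congrArg Subtype.val h1
        rw [AddSubgroup.coe_nsmul, AddSubgroup.coe_zero] at h2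
        exact h2⟩ : {q : Q | q ∈ Y ∧ p • q = 0})) ?_
    intro x y hxy
    simp only [Subtype.mk.injEq] at hxy
    exact Subtype.ext (Subtype.ext hxy)
  have hinj : E.card ≤ Nat.card (H ⧸ φ.range) := by
    have hcoe : E.card = Nat.card E := by simp
    rw [hcoe]
    have : Finite (H ⧸ φ.range) := inferInstance
    refine Nat.card_le_card_of_injective
      (fun e : E => ((⟨(e : Q), AddSubgroup.subset_closure e.2⟩ : H) : H ⧸ φ.range)) ?_
    intro e e' hee
    by_contra hne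
    have hne' : (e' : Q) ≠ e := fun h => hne (Subtype.ext h.symm)
    refine hinc e' e'.2 e e.2 hne' ?_
    rw [QuotientAddGroup.eq] at hee
    obtain ⟨z, hz⟩ := hee
    refine ⟨(z : Q), hHY z.2, ?_⟩
    have h2 := congrArg (Subtype.val) hz
    simp only [φ, nsmulAddMonoidHom_apply, AddSubgroup.coe_nsmul, AddSubgroup.coe_add,
      NegMemClass.coe_neg] at h2
    rw [h2]
    abel
  calc E.card ≤ Nat.card (H ⧸ φ.range) := hinj
    _ = φ.range.index := rfl
    _ = Nat.card φ.ker := hcard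
    _ ≤ _ := hker

theorem lemT {Q : Type*} [AddCommGroup Q] (p : ℕ) (Y : AddSubgroup Q)
    (htor : ∀ y ∈ Y, ∃ k : ℕ, 1 ≤ k ∧ k • y = 0)
    (hfin : {q : Q | q ∈ Y ∧ p • q = 0}.Finite) :
    ∃ E : Finset Q, (∀ e ∈ E, e ∈ Y) ∧ ∀ y ∈ Y, ∃ e ∈ E, ∃ z ∈ Y, y = e + p • z := by
  classical
  by_contra hcon
  push Not at hcon
  have hbuild : ∀ n : ℕ, ∃ E : Finset Q, E.card = n ∧ (∀ e ∈ E, e ∈ Y) ∧
      (∀ e ∈ E, ∀ e' ∈ E, e ≠ e' → ¬ ∃ z ∈ Y, e = e' + p • z) := by
    intro n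
    induction n with
    | zero => exact ⟨∅, by simp, by simp, by simp⟩
    | succ n ih =>
      obtain ⟨E, hcard, hE, hinc⟩ := ih
      obtain ⟨y, hy, hyE⟩ := hcon E hE
      have hynot : y ∉ E := by
        intro hmem
        exact hyE y hmem 0 Y.zero_mem (by simp)
      refine ⟨insert y E, by rw [Finset.card_insert_of_notMem hynot, hcard], ?_, ?_⟩
      · intro e he
        rcases Finset.mem_insert.1 he with rfl | he
        · exact hy
        · exact hE e he
      · intro e he e' he' hne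
        rcases Finset.mem_insert.1 he with he1 | he1
        · rcases Finset.mem_insert.1 he' with he2 | he2
          · exact absurd (he1.trans he2.symm) hne
          · rintro ⟨z, hz, hez⟩
            rw [he1] at hez
            exact hyE e' he2 z hz hez
        · rcases Finset.mem_insert.1 he' with he2 | he2
          · rintro ⟨z, hz, hez⟩
            rw [he2] at hez
            refine hyE e he1 (-z) (Y.neg_mem hz) ?_
            rw [hez, smul_neg]; abel
          · exact hinc e he1 e' he2 hne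
  obtain ⟨E, hcard, hE, hinc⟩ := hbuild ({q : Q | q ∈ Y ∧ p • q = 0}.ncard + 1)
  have := card_bound p Y htor hfin E hE hinc
  omega

/-- Large independent subgroup. -/
theorem lemC {A : Type*} [AddCommGroup A] (p : ℕ) (hp : p.Prime) (Y B D X : AddSubgroup A)
    (hpY : ∀ y ∈ Y, p • y ∈ B) (hYtor : ∀ y ∈ Y, ∃ k : ℕ, 1 ≤ k ∧ k • y ∈ D)
    (hX : ∃ R : Finset A, ∀ x ∈ X, ∃ r ∈ R, x - r ∈ D)
    (hinf : ¬ ∃ R : Finset A, ∀ y ∈ Y, ∃ r ∈ R, y - r ∈ B) :
    ∃ Y' : AddSubgroup A, Y' ≤ Y ∧ (¬ ∃ R : Finset A, ∀ y ∈ Y', ∃ r ∈ R, y - r ∈ B) ∧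
      ∀ y ∈ Y', ∀ x ∈ X, y - x ∈ D → y ∈ D := by
  classical
  -- Zorn
  let Z : Set (AddSubgroup A) := {Y' | Y' ≤ Y ∧ Y ⊓ D ≤ Y' ∧ ∀ y ∈ Y', ∀ x ∈ X, y - x ∈ D → y ∈ D}
  have hzorn : ∃ Y', Y ⊓ D ≤ Y' ∧ Maximal (fun Y' => Y' ∈ Z) Y' := by
    refine zorn_le_nonempty₀ Z ?_ (Y ⊓ D) ⟨inf_le_left, le_rfl, fun y hy _ _ _ =>
      (AddSubgroup.mem_inf.1 hy).2⟩
    intro c hc hchain y₀ hy₀
    refine ⟨sSup c, ⟨sSup_le fun y hy => (hc hy).1, (hc hy₀).2.1.trans (le_sSup hy₀), ?_⟩,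
      fun z hz => le_sSup hz⟩
    intro y hy x hx hyx
    rw [AddSubgroup.mem_sSup_of_directedOn ⟨y₀, hy₀⟩ hchain.directedOn] at hy
    obtain ⟨W, hW, hyW⟩ := hy
    exact (hc hW).2.2 y hyW x hx hyx
  obtain ⟨Y', _, hmax⟩ := hzorn
  obtain ⟨⟨hY'Y, hDY', hind⟩, hmax'⟩ := hmax
  refine ⟨Y', hY'Y, ?_, hind⟩
  rintro ⟨R₁, hR₁⟩
  obtain ⟨R, hR⟩ := hX
  -- the quotient by Y'
  let π : A →+ A ⧸ Y' := QuotientAddGroup.mk' Y'
  have hπ : ∀ a b : A, π a = π b ↔ a - b ∈ Y' := by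
    intro a b
    have : π a = π b ↔ -a + b ∈ Y' := QuotientAddGroup.eq
    rw [this, ← Y'.neg_mem_iff]
    have h2 : -(-a + b) = a - b := by abel
    rw [h2]
  have hπ0 : ∀ a : A, π a = 0 ↔ a ∈ Y' := fun a => QuotientAddGroup.eq_zero_iff a
  have hsoc : {q : A ⧸ Y' | q ∈ Y.map π ∧ p • q = 0}.Finite := by
    -- every such class is represented by an element `w ∈ Y` with `w - x ∈ D`, `x ∈ X`
    have hrep : ∀ q ∈ {q : A ⧸ Y' | q ∈ Y.map π ∧ p • q = 0}, ∃ w ∈ Y, π w = q ∧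
        ∃ x ∈ X, w - x ∈ D := by
      rintro q ⟨⟨y, hy, rfl⟩, hpq⟩
      by_cases hyY' : y ∈ Y'
      · exact ⟨0, Y.zero_mem, by rw [map_zero, (hπ0 y).2 hyY'], 0, X.zero_mem, by rw [sub_zero]; exact D.zero_mem⟩
      · have hpy : p • y ∈ Y' := by
          rw [← hπ0, map_nsmul]; exact hpq
        -- maximality
        have hnot : Y' ⊔ AddSubgroup.zmultiples y ∉ Z := by
          intro hmem
          have h1 := hmax' hmem le_sup_left
          exact hyY' (h1 (AddSubgroup.mem_sup_right (AddSubgroup.mem_zmultiples y)))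
        have hle : Y' ⊔ AddSubgroup.zmultiples y ≤ Y := by
          refine sup_le hY'Y ?_
          rw [AddSubgroup.zmultiples_le]
          exact hy
        have hle2 : Y ⊓ D ≤ Y' ⊔ AddSubgroup.zmultiples y := hDY'.trans le_sup_left
        have hex : ∃ u ∈ Y' ⊔ AddSubgroup.zmultiples y, ∃ x ∈ X, u - x ∈ D ∧ u ∉ D := by
          by_contra hcon
          push Not at hcon
          exact hnot ⟨hle, hle2, fun u hu x hx hux => hcon u hu x hx hux⟩
        obtain ⟨u, hu, x, hx, hux, huD⟩ := hex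
        obtain ⟨y', hy', v, hv, rfl⟩ := AddSubgroup.mem_sup.1 hu
        obtain ⟨d, rfl⟩ := AddSubgroup.mem_zmultiples_iff.1 hv
        have hpd : ¬ (p : ℤ) ∣ d := by
          rintro ⟨e, rfl⟩
          have h1 : ((p : ℤ) * e) • y ∈ Y' := by
            rw [mul_comm, mul_smul, natCast_zsmul]
            exact Y'.zsmul_mem hpy _
          exact huD (hind _ (Y'.add_mem hy' h1) x hx hux)
        have hcop : IsCoprime (p : ℤ) d := by
          rw [Prime.coprime_iff_not_dvd (Nat.prime_iff_prime_int.1 hp)]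
          exact hpd
        obtain ⟨a, b, hab⟩ := hcop
        refine ⟨b • (y' + d • y), Y.zsmul_mem (hle hu) _, ?_, b • x, X.zsmul_mem hx _, ?_⟩
        · rw [hπ]
          have h1 : b • (y' + d • y) - y = b • y' - a • (p • y) := by
            have h2 : (b * d) • y = (1 - a * p) • y := by rw [← hab]; congr 1; ring
            rw [smul_add, smul_smul, h2, sub_smul, one_smul, mul_smul, natCast_zsmul]
            abel
          rw [h1]
          exact Y'.sub_mem (Y'.zsmul_mem hy' _) (Y'.zsmul_mem hpy _)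
        · rw [← smul_sub]
          exact D.zsmul_mem hux _
    -- finiteness through the representatives
    have hcho : ∀ q ∈ {q : A ⧸ Y' | q ∈ Y.map π ∧ p • q = 0}, ∃ r ∈ R, ∃ w ∈ Y, π w = q ∧ w - r ∈ D := by
      intro q hq
      obtain ⟨w, hw, hwq, x, hx, hwx⟩ := hrep q hq
      obtain ⟨r, hr, hxr⟩ := hR x hx
      refine ⟨r, hr, w, hw, hwq, ?_⟩
      have : w - r = (w - x) + (x - r) := by abel
      rw [this]
      exact D.add_mem hwx hxr
    choose! ρ hρ using hcho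
    refine Set.Finite.of_finite_image (f := ρ) ?_ ?_
    · refine (Finset.finite_toSet R).subset ?_
      rintro r ⟨q, hq, rfl⟩
      exact (hρ q hq).1
    · intro q hq q' hq' hqq
      obtain ⟨_, w, hw, hwq, hwr⟩ := hρ q hq
      obtain ⟨_, w', hw', hwq', hwr'⟩ := hρ q' hq'
      rw [← hwq, ← hwq', hπ]
      refine hDY' (AddSubgroup.mem_inf.2 ⟨Y.sub_mem hw hw', ?_⟩)
      rw [hqq] at hwr
      have : w - w' = (w - ρ q') - (w' - ρ q') := by abel
      rw [this]
      exact D.sub_mem hwr hwr'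
  obtain ⟨E, hE, hE'⟩ := lemT p (Y.map π) (by
    rintro q ⟨y, hy, rfl⟩
    obtain ⟨k, hk1, hk⟩ := hYtor y hy
    refine ⟨k, hk1, ?_⟩
    rw [← map_nsmul, hπ0]
    exact hDY' (AddSubgroup.mem_inf.2 ⟨Y.nsmul_mem hy _, hk⟩)) hsoc
  -- contradiction with the infinite image of Y
  have hE2 : ∀ e ∈ E, ∃ y ∈ Y, π y = e := fun e he => by
    obtain ⟨y, hy, hye⟩ := hE e he
    exact ⟨y, hy, hye⟩
  choose! σ hσ using hE2
  refine hinf ⟨(E.image σ ×ˢ R₁).image (fun q => q.1 + q.2), ?_⟩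
  intro y hy
  obtain ⟨e, he, z, ⟨z', hz', hzz⟩, hez⟩ := hE' (π y) ⟨y, hy, rfl⟩
  have h1 : π y = π (σ e + p • z') := by
    rw [map_add, map_nsmul, (hσ e he).2, hzz, hez]
  rw [hπ] at h1
  obtain ⟨r, hr, hyr⟩ := hR₁ _ h1
  refine ⟨σ e + r, ?_, ?_⟩
  · refine Finset.mem_image.2 ⟨(σ e, r), ?_, rfl⟩
    exact Finset.mem_product.2 ⟨Finset.mem_image_of_mem _ he, hr⟩
  · have : y - (σ e + r) = (y - (σ e + p • z') - r) + p • z' := by abel
    rw [this]
    exact B.add_mem hyr (hpY z' hz')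

end Pool.Agent.H731R3.Tame
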