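import Mathlib

set_option autoImplicit false

/-!
The set of ill-founded codes of trees is not Borel.
-/

open MeasureTheory Set Filter
open scoped Topology

namespace Pool.Agent.H731R3.Tame

/-- Reversed initial segments of a sequence. -/
def br (y : ℕ → ℕ) : ℕ → List ℕ
  | 0 => []
  | n + 1 => y n :: br y n

@[simp] theorem br_length (y : ℕ → ℕ) (n : ℕ) : (br y n).length = n := by
  induction n with
  | zero => rfl
  | succ n ih => simp [br, ih]

/-- `z` extends the reversed finite sequence `s` -/
def Ext (z : ℕ → ℕ) : List ℕ → Prop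
  | [] => True
  | i :: s => z s.length = i ∧ Ext z s

theorem ext_congr {z z' : ℕ → ℕ} {s : List ℕ} (h : ∀ n < s.length, z n = z' n) (hs : Ext z s) :
    Ext z' s := by
  induction s with
  | nil => trivial
  | cons i s ih =>
    refine ⟨?_, ih (fun n hn => h n (by simp; omega)) hs.2⟩
    rw [← h s.length (by simp)]
    exact hs.1

theorem ext_agree {z z' : ℕ → ℕ} {s : List ℕ} (hs : Ext z s) (hs' : Ext z' s) :
    ∀ n < s.length, z n = z' n := by
  induction s with
  | nil => intro n hn; simp at hn
  | cons i s ih =>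
    intro n hn
    rw [List.length_cons] at hn
    rcases Nat.lt_succ_iff_lt_or_eq.1 hn with h | h
    · exact ih hs.2 hs'.2 n h
    · rw [h, hs.1, hs'.1]

theorem ext_br (b : ℕ → ℕ) (n : ℕ) : Ext b (br b n) := by
  induction n with
  | zero => trivial
  | succ n ih => exact ⟨by rw [br_length], ih⟩

theorem ext_iff_br (z : ℕ → ℕ) (y : ℕ → ℕ) (n : ℕ) : Ext z (br y n) ↔ ∀ m < n, z m = y m := by
  constructor
  · intro h m hm
    exact ext_agree h (ext_br y n) m (by rw [br_length]; exact hm)
  · intro h
    exact ext_congr (z := y) (fun m hm => by rw [br_length] at hm; exact (h m hm).symm) (ext_br y n)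

/-- Universal analytic relation on Baire space. -/
def Wu (c y : ℕ → ℕ) : Prop := ∃ z : ℕ → ℕ, ∀ n, c (Encodable.encode (br y n, br z n)) = 1

theorem universal (A : Set (ℕ → ℕ)) (hA : AnalyticSet A) : ∃ c : ℕ → ℕ, ∀ y, y ∈ A ↔ Wu c y := by
  classical
  rw [AnalyticSet] at hA
  rcases hA with h | ⟨g, hg, hrange⟩
  · subst h
    refine ⟨fun _ => 0, fun y => ⟨fun h => h.elim, ?_⟩⟩
    rintro ⟨z, hz⟩
    exact absurd (hz 0) (by simp)
  · refine ⟨fun k => if ∃ p : List ℕ × List ℕ, Encodable.encode p = k ∧ ∃ w, Ext w p.2 ∧ Ext (g w) p.1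
      then 1 else 0, fun y => ⟨?_, ?_⟩⟩
    · intro hy
      rw [← hrange] at hy
      obtain ⟨z, rfl⟩ := hy
      refine ⟨z, fun n => if_pos ⟨_, rfl, z, ext_br z n, ext_br (g z) n⟩⟩
    · rintro ⟨z, hz⟩
      have h1 : ∀ n, ∃ w, Ext w (br z n) ∧ Ext (g w) (br y n) := by
        intro n
        have h2 := hz n
        by_contra hne
        have h3 : ¬ ∃ p : List ℕ × List ℕ, Encodable.encode p = Encodable.encode (br y n, br z n) ∧
            ∃ w, Ext w p.2 ∧ Ext (g w) p.1 := by
          rintro ⟨p, hp, w, hw⟩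
          rw [Encodable.encode_inj] at hp
          subst hp
          exact hne ⟨w, hw⟩
        have h4 : (if ∃ p : List ℕ × List ℕ, Encodable.encode p = Encodable.encode (br y n, br z n) ∧
            ∃ w, Ext w p.2 ∧ Ext (g w) p.1 then 1 else 0) = 1 := h2
        rw [if_neg h3] at h4
        exact absurd h4 (by norm_num)
      choose w hw1 hw2 using h1
      have hlim : Tendsto w atTop (𝓝 z) := by
        rw [tendsto_pi_nhds]
        intro n
        refine tendsto_const_nhds.congr' ?_
        filter_upwards [eventually_gt_atTop n] with k hk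
        exact ((ext_iff_br _ _ _).1 (hw1 k) n hk).symm
      have hg' := (hg.tendsto z).comp hlim
      rw [tendsto_pi_nhds] at hg'
      rw [← hrange]
      refine ⟨z, ?_⟩
      funext n
      have h4 : Tendsto (fun k => g (w k) n) atTop (𝓝 (y n)) := by
        refine tendsto_const_nhds.congr' ?_
        filter_upwards [eventually_gt_atTop n] with k hk
        exact ((ext_iff_br _ _ _).1 (hw2 k) n hk).symm
      exact tendsto_nhds_unique (hg' n) h4

theorem measurable_br (n : ℕ) (s : List ℕ) : MeasurableSet {y : ℕ → ℕ | br y n = s} := by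
  induction n generalizing s with
  | zero =>
    have : {y : ℕ → ℕ | br y 0 = s} = {_y | [] = s} := rfl
    rw [this]
    exact MeasurableSet.const _
  | succ n ih =>
    rcases s with _ | ⟨i, s⟩
    · simp [br]
    · have : {y : ℕ → ℕ | br y (n + 1) = i :: s} = (fun y : ℕ → ℕ => y n) ⁻¹' {i} ∩ {y | br y n = s} := by
        ext y; simp [br]
      rw [this]
      exact (measurable_pi_apply n (measurableSet_singleton i)).inter (ih s)

/-- Codes of trees: sets of reversed finite sequences. -/
abbrev Tr : Type := List ℕ → Bool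

/-- Codes with an infinite branch. -/
def IF : Set Tr := {τ | ∃ z : ℕ → ℕ, ∀ n, τ (br z n) = true}

theorem not_measurable_IF : ¬ MeasurableSet IF := by
  intro hIF
  let Ψ : (ℕ → ℕ) → Tr := fun y s => decide (y (Encodable.encode (br y s.length, s)) = 1)
  have hΨ : Measurable Ψ := by
    refine measurable_pi_iff.2 fun s => ?_
    refine measurable_to_bool ?_
    have : (fun y : ℕ → ℕ => Ψ y s) ⁻¹' {true} = ⋃ t : List ℕ, {y : ℕ → ℕ | br y s.length = t} ∩
        ((fun y : ℕ → ℕ => y (Encodable.encode (t, s))) ⁻¹' {1}) := by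
      ext y
      simp only [mem_preimage, mem_singleton_iff, Ψ, mem_iUnion, mem_inter_iff, mem_ofPred_eq,
        decide_eq_true_eq]
      exact ⟨fun h => ⟨_, rfl, h⟩, by rintro ⟨t, rfl, h⟩; exact h⟩
    rw [this]
    refine MeasurableSet.iUnion fun t => ?_
    exact (measurable_br _ t).inter (measurable_pi_apply _ (measurableSet_singleton 1))
  have h1 : {y : ℕ → ℕ | Wu y y} = Ψ ⁻¹' IF := by
    ext y
    simp [Ψ, IF, Wu]
  have hm : MeasurableSet {y : ℕ → ℕ | Wu y y} := by
    rw [h1]; exact hΨ hIF
  obtain ⟨c, hc⟩ := universal _ hm.compl.analyticSet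
  have := hc c
  simp only [mem_compl_iff, mem_ofPred_eq] at this
  tauto

end Pool.Agent.H731R3.Tame
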