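import Mathlib

set_option autoImplicit false

/-!
Bases of open subgroups and completeness of Polish groups.
-/

open Set Filter
open scoped Topology

namespace Pool.Agent.H731R3.Tame

/-- A decreasing sequence of open subgroups forming a basis at zero. -/
structure Bas {G : Type*} [AddCommGroup G] [TopologicalSpace G] (U : ℕ → AddSubgroup G) : Prop where
  anti : Antitone U
  isOpen : ∀ n, IsOpen (U n : Set G)
  small : ∀ O ∈ 𝓝 (0 : G), ∃ n, (U n : Set G) ⊆ O

theorem exists_bas (G : Type*) [AddCommGroup G] [TopologicalSpace G] [FirstCountableTopology G]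
    [NonarchimedeanAddGroup G] : ∃ U : ℕ → AddSubgroup G, Bas U := by
  obtain ⟨O, hO⟩ := (𝓝 (0 : G)).exists_antitone_basis
  have h1 : ∀ n, ∃ V : OpenAddSubgroup G, (V : Set G) ⊆ O n := fun n =>
    NonarchimedeanAddGroup.is_nonarchimedean _ (hO.mem n)
  choose V hV using h1
  let U : ℕ → AddSubgroup G := fun n => Nat.rec (V 0 : AddSubgroup G) (fun n W => W ⊓ (V (n + 1))) n
  have hU0 : U 0 = V 0 := rfl
  have hUs : ∀ n, U (n + 1) = U n ⊓ (V (n + 1)) := fun n => rfl
  have hUV : ∀ n, U n ≤ V n := by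
    intro n
    cases n with
    | zero => exact le_rfl
    | succ n => rw [hUs]; exact inf_le_right
  refine ⟨U, ⟨antitone_nat_of_succ_le fun n => by rw [hUs]; exact inf_le_left, ?_, ?_⟩⟩
  · intro n
    induction n with
    | zero => exact (V 0).isOpen
    | succ n ih =>
      rw [hUs]
      exact ih.inter (V (n + 1)).isOpen
  · intro W hW
    obtain ⟨n, hn⟩ := hO.mem_iff.1 hW
    exact ⟨n, fun x hx => hn (hV n (hUV n hx))⟩

section

variable {G : Type*} [AddCommGroup G] [TopologicalSpace G] [IsTopologicalAddGroup G]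
  {U : ℕ → AddSubgroup G}

theorem Bas.isClosed (hU : Bas U) (n : ℕ) : IsClosed (U n : Set G) :=
  (U n).isClosed_of_isOpen (hU.isOpen n)

theorem Bas.sub_mem (hU : Bas U) {g : ℕ → G} (hg : ∀ n, g (n + 1) - g n ∈ U n) {m n : ℕ} (h : m ≤ n) :
    g n - g m ∈ U m := by
  induction n, h using Nat.le_induction with
  | base => rw [sub_self]; exact (U m).zero_mem
  | succ n hmn ih =>
    have : g (n + 1) - g m = (g (n + 1) - g n) + (g n - g m) := by abel
    rw [this]
    exact (U m).add_mem (hU.anti hmn (hg n)) ih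

theorem Bas.complete [PolishSpace G] (hU : Bas U) (g : ℕ → G) (hg : ∀ n, g (n + 1) - g n ∈ U n) :
    ∃ x, ∀ n, x - g n ∈ U n := by
  let _ := TopologicalSpace.upgradeIsCompletelyMetrizable G
  have nb : ∀ (c : G) (k m : ℕ), ∃ n, m ≤ n ∧ ∀ a, a - c ∈ U n → dist a c < (1 / 2 : ℝ) ^ k := by
    intro c k m
    have h1 : Metric.ball c ((1 / 2 : ℝ) ^ k) ∈ 𝓝 c := Metric.ball_mem_nhds _ (by positivity)
    have h2 : (fun v : G => v + c) ⁻¹' (Metric.ball c ((1 / 2 : ℝ) ^ k)) ∈ 𝓝 (0 : G) := by
      have hc : Continuous fun v : G => v + c := continuous_id.add continuous_const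
      refine hc.continuousAt ?_
      rw [zero_add]; exact h1
    obtain ⟨n, hn⟩ := hU.small _ h2
    refine ⟨max m n, le_max_left _ _, fun a ha => ?_⟩
    have h3 := hn (hU.anti (le_max_right m n) ha)
    simpa using h3
  choose ν hν1 hν2 using nb
  -- one step
  let n1 : ℕ → G × ℕ → ℕ := fun k q => ν q.1 k (q.2 + 1)
  let b : ℕ → G × ℕ → G := fun k q => q.1 - g (n1 k q)
  let n2 : ℕ → G × ℕ → ℕ := fun k q => ν (b k q) k (n1 k q)
  let st : ℕ → G × ℕ := fun k => Nat.rec (0, 0) (fun k q => (b k q + g (n2 k q), n2 k q)) k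
  have hst : ∀ k, st (k + 1) = (b k (st k) + g (n2 k (st k)), n2 k (st k)) := fun k => rfl
  set c : ℕ → G := fun k => (st k).1 with hc
  set m : ℕ → ℕ := fun k => (st k).2 with hm
  have hcs : ∀ k, c (k + 1) = c k - g (n1 k (st k)) + g (m (k + 1)) := fun k => rfl
  have hm1 : ∀ k, m k + 1 ≤ n1 k (st k) := fun k => hν1 _ _ _
  have hm2 : ∀ k, n1 k (st k) ≤ m (k + 1) := fun k => hν1 _ _ _
  have hmk : ∀ k, k ≤ m k := by
    intro k
    induction k with
    | zero => exact Nat.zero_le _
    | succ k ih => have := hm1 k; have := hm2 k; omega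
  have hmmono : Monotone m := monotone_nat_of_le_succ fun k => by
    have := hm1 k; have := hm2 k; omega
  have hcstep : ∀ k, c (k + 1) - c k ∈ U (n1 k (st k)) := by
    intro k
    rw [hcs]
    have : c k - g (n1 k (st k)) + g (m (k + 1)) - c k = g (m (k + 1)) - g (n1 k (st k)) := by abel
    rw [this]
    exact hU.sub_mem hg (hm2 k)
  have hcjk : ∀ j k, k < j → c j - c k ∈ U (n1 k (st k)) := by
    intro j k hkj
    induction j, Nat.succ_le_of_lt hkj using Nat.le_induction with
    | base => exact hcstep k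
    | succ j hj ih =>
      have h1 : c (j + 1) - c k = (c (j + 1) - c j) + (c j - c k) := by abel
      rw [h1]
      refine (U _).add_mem (hU.anti ?_ (hcstep j)) (ih (by omega))
      have h2 : m (k + 1) ≤ m j := hmmono hj
      have := hm2 k; have := hm1 j; omega
  have hcjk' : ∀ j k, k ≤ j → c j - c k ∈ U (m k) := by
    intro j k hkj
    rcases hkj.eq_or_lt with rfl | h
    · rw [sub_self]; exact (U _).zero_mem
    · exact hU.anti (by have := hm1 k; omega) (hcjk j k h)
  set d : ℕ → G := fun k => c k - g (m k) with hd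
  have hdjk : ∀ j k, k ≤ j → d j - d k ∈ U (m k) := by
    intro j k hkj
    have : d j - d k = (c j - c k) - (g (m j) - g (m k)) := by simp only [hd]; abel
    rw [this]
    exact (U _).sub_mem (hcjk' j k hkj) (hU.sub_mem hg (hmmono hkj))
  have hdb : ∀ k, d (k + 1) = b k (st k) := by
    intro k
    simp only [hd]
    rw [hcs]
    simp only [b, hc]
    abel
  have hcauchy_c : CauchySeq c := by
    refine cauchySeq_of_le_tendsto_0 (fun k => 2 * (1 / 2 : ℝ) ^ k) ?_ ?_
    · intro i j k hi hj
      have e : ∀ i, k ≤ i → dist (c i) (c k) ≤ (1 / 2 : ℝ) ^ k := by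
        intro i hi
        rcases hi.eq_or_lt with rfl | h
        · rw [dist_self]; positivity
        · exact (hν2 _ _ _ _ (hcjk i k h)).le
      calc dist (c i) (c j) ≤ dist (c i) (c k) + dist (c j) (c k) := dist_triangle_right _ _ _
        _ ≤ 2 * (1 / 2 : ℝ) ^ k := by linarith [e i hi, e j hj]
    · have := (tendsto_pow_atTop_nhds_zero_of_lt_one (r := (1 / 2 : ℝ)) (by norm_num) (by norm_num)).const_mul 2
      simpa using this
  have hcauchy_d : CauchySeq (fun k => d (k + 1)) := by
    refine cauchySeq_of_le_tendsto_0 (fun k => 2 * (1 / 2 : ℝ) ^ k) ?_ ?_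
    · intro i j k hi hj
      have e : ∀ i, k ≤ i → dist (d (i + 1)) (d (k + 1)) ≤ (1 / 2 : ℝ) ^ k := by
        intro i hi
        have h1 : d (i + 1) - d (k + 1) ∈ U (m (k + 1)) := hdjk (i + 1) (k + 1) (by omega)
        rw [hdb k] at h1 ⊢
        exact (hν2 _ _ _ _ h1).le
      calc dist (d (i + 1)) (d (j + 1)) ≤ dist (d (i + 1)) (d (k + 1)) + dist (d (j + 1)) (d (k + 1)) :=
            dist_triangle_right _ _ _
        _ ≤ 2 * (1 / 2 : ℝ) ^ k := by linarith [e i hi, e j hj]
    · have := (tendsto_pow_atTop_nhds_zero_of_lt_one (r := (1 / 2 : ℝ)) (by norm_num) (by norm_num)).const_mul 2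
      simpa using this
  obtain ⟨cl, hcl⟩ := cauchySeq_tendsto_of_complete hcauchy_c
  obtain ⟨dl, hdl⟩ := cauchySeq_tendsto_of_complete hcauchy_d
  have h1 : ∀ k, cl - c k ∈ U (m k) := by
    intro k
    have ht : Tendsto (fun j => c j - c k) atTop (𝓝 (cl - c k)) := hcl.sub_const _
    refine (hU.isClosed (m k)).mem_of_tendsto ht ?_
    filter_upwards [eventually_ge_atTop k] with j hj
    exact hcjk' j k hj
  have h2 : ∀ k, dl - d k ∈ U (m k) := by
    intro k
    have ht : Tendsto (fun j => d (j + 1) - d k) atTop (𝓝 (dl - d k)) := hdl.sub_const _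
    refine (hU.isClosed (m k)).mem_of_tendsto ht ?_
    filter_upwards [eventually_ge_atTop k] with j hj
    exact hdjk (j + 1) k (by omega)
  refine ⟨cl - dl, fun n => ?_⟩
  have h3 : cl - dl - g n = ((cl - c n) - (dl - d n)) + (g (m n) - g n) := by
    simp only [hd]; abel
  rw [h3]
  exact (U n).add_mem (hU.anti (hmk n) ((U _).sub_mem (h1 n) (h2 n))) (hU.sub_mem hg (hmk n))

end

end Pool.Agent.H731R3.Tame
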