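import Mathlib
import Pool.Agent.H731R3.NB
import Pool.Agent.H731R3.Top

set_option autoImplicit false

/-!
The action on families of unions of cosets, and the coding lemma.
-/

open Set Filter MeasureTheory
open scoped Topology

namespace Pool.Agent.H731R3.Tame

/-- All orbit equivalence relations of continuous actions on Polish spaces are Borel. -/
def TameG (G : Type) [AddCommGroup G] [TopologicalSpace G] : Prop :=
  ∀ (X : Type) [TopologicalSpace X] [PolishSpace X] [AddAction G X] [ContinuousVAdd G X],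
      @MeasurableSet (X × X) (borel (X × X)) {p : X × X | ∃ g : G, g +ᵥ p.1 = p.2}

theorem countable_quot {G : Type} [AddCommGroup G] [TopologicalSpace G] [IsTopologicalAddGroup G]
    [SecondCountableTopology G] (V : AddSubgroup G) (hV : IsOpen (V : Set G)) : Countable (G ⧸ V) := by
  have : DiscreteTopology (G ⧸ V) := QuotientAddGroup.discreteTopology hV
  have : SecondCountableTopology (G ⧸ V) := inferInstance
  exact (TopologicalSpace.separableSpace_iff_countable).1 inferInstance

/-- Families of sets of cosets. -/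
def YY {G : Type} [AddCommGroup G] (U : ℕ → AddSubgroup G) : Type := (n : ℕ) → (G ⧸ U n) → Bool

section

variable {G : Type} [AddCommGroup G] [TopologicalSpace G] [IsTopologicalAddGroup G]
  {U : ℕ → AddSubgroup G}

instance : TopologicalSpace (YY U) := inferInstanceAs (TopologicalSpace ((n : ℕ) → (G ⧸ U n) → Bool))

instance : MeasurableSpace (YY U) := inferInstanceAs (MeasurableSpace ((n : ℕ) → (G ⧸ U n) → Bool))

instance : AddAction G (YY U) where
  vadd g T := fun n c => T n (c - (g : G ⧸ U n))
  zero_vadd T := by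
    funext n c
    change T n (c - ((0 : G) : G ⧸ U n)) = T n c
    rw [QuotientAddGroup.mk_zero, sub_zero]
  add_vadd g h T := by
    funext n c
    change T n (c - ((g + h : G) : G ⧸ U n)) = T n (c - (g : G ⧸ U n) - (h : G ⧸ U n))
    rw [QuotientAddGroup.mk_add, sub_sub]

theorem vadd_apply (g : G) (T : YY U) (n : ℕ) (c : G ⧸ U n) :
    (g +ᵥ T) n c = T n (c - (g : G ⧸ U n)) := rfl

theorem polish_YY [SecondCountableTopology G] (hU : Bas U) : PolishSpace (YY U) := by
  have : ∀ n, Countable (G ⧸ U n) := fun n => countable_quot (U n) (hU.isOpen n)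
  have h2 : SecondCountableTopology ((n : ℕ) → (G ⧸ U n) → Bool) := inferInstance
  have h3 : TopologicalSpace.IsCompletelyMetrizableSpace ((n : ℕ) → (G ⧸ U n) → Bool) := inferInstance
  have h4 : PolishSpace ((n : ℕ) → (G ⧸ U n) → Bool) := { h2, h3 with }
  exact h4

theorem borel_YY [SecondCountableTopology G] (hU : Bas U) : BorelSpace (YY U) := by
  have : ∀ n, Countable (G ⧸ U n) := fun n => countable_quot (U n) (hU.isOpen n)
  exact inferInstanceAs (BorelSpace ((n : ℕ) → (G ⧸ U n) → Bool))

theorem cont_YY (hU : Bas U) : ContinuousVAdd G (YY U) := by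
  refine ⟨?_⟩
  refine continuous_pi fun n => continuous_pi fun c => ?_
  rw [continuous_iff_continuousAt]
  rintro ⟨g₀, T₀⟩
  have h1 : (fun p : G × YY U => p.2 n (c - (g₀ : G ⧸ U n))) =ᶠ[𝓝 (g₀, T₀)]
      fun p : G × YY U => (p.1 +ᵥ p.2) n c := by
    have hopen : {g : G | g - g₀ ∈ U n} ∈ 𝓝 g₀ := by
      have : Continuous fun g : G => g - g₀ := continuous_id.sub continuous_const
      refine (this.isOpen_preimage _ (hU.isOpen n)).mem_nhds ?_
      simp
    have h2 : ∀ᶠ p : G × YY U in 𝓝 (g₀, T₀), p.1 - g₀ ∈ U n := by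
      have := (continuous_fst.tendsto ((g₀, T₀) : G × YY U)).eventually hopen
      exact this
    filter_upwards [h2] with p hp
    rw [vadd_apply]
    have h3 : (g₀ : G ⧸ U n) = (p.1 : G ⧸ U n) := by
      rw [QuotientAddGroup.eq, neg_add_eq_sub]
      exact hp
    rw [h3]
  refine ContinuousAt.congr ?_ h1
  have hc : Continuous fun p : G × YY U => p.2 n (c - (g₀ : G ⧸ U n)) := by
    have h4 : Continuous fun T : YY U => T n (c - (g₀ : G ⧸ U n)) :=
      (continuous_apply (c - (g₀ : G ⧸ U n))).comp
        (continuous_apply (A := fun n => (G ⧸ U n) → Bool) n)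
    exact h4.comp continuous_snd
  exact hc.continuousAt

open Classical in
/-- Coding lemma. -/
theorem coding [SecondCountableTopology G] (hU : Bas U) (hG : TameG G)
    (T : Tr → ℕ → Set G)
    (haff : ∀ τ n, ∀ t ∈ T τ n, ∀ t' ∈ T τ n, ∀ t'' ∈ T τ n, t - t' + t'' ∈ T τ n)
    (hinv : ∀ τ n, ∀ t ∈ T τ n, ∀ t', t' - t ∈ U n → t' ∈ T τ n)
    (hmeas : ∀ n g, MeasurableSet {τ | g ∈ T τ n}) :
    MeasurableSet {τ : Tr | ∃ g, ∀ n, g ∈ T τ n} := by
  have hcount : ∀ n, Countable (G ⧸ U n) := fun n => countable_quot (U n) (hU.isOpen n)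
  have := polish_YY hU
  have := borel_YY hU
  have := cont_YY hU
  have hE := hG (YY U)
  have hE' : MeasurableSet {p : YY U × YY U | ∃ g : G, g +ᵥ p.1 = p.2} := by
    have h1 : (Prod.instMeasurableSpace : MeasurableSpace (YY U × YY U)) = borel (YY U × YY U) :=
      BorelSpace.measurable_eq
    rw [h1]
    exact hE
  let TT : Tr → YY U := fun τ n c => decide (c.out ∈ T τ n)
  let SS : Tr → YY U := fun τ n c => decide (c = 0 ∨ ∃ d : G ⧸ U n, d.out ∈ T τ n ∧ (d + c).out ∈ T τ n)
  have hout : ∀ (n : ℕ) (c : G ⧸ U n), ((c.out : G) : G ⧸ U n) = c := fun n c => Quotient.out_eq' c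
  have hmem : ∀ τ n g, g ∈ T τ n ↔ ((g : G ⧸ U n).out : G) ∈ T τ n := by
    intro τ n g
    have h1 : ((g : G ⧸ U n).out : G) - g ∈ U n := by
      rw [← neg_add_eq_sub, ← QuotientAddGroup.eq, hout]
    have h2 : g - ((g : G ⧸ U n).out : G) ∈ U n := by
      rw [← neg_sub]; exact (U n).neg_mem h1
    exact ⟨fun h => hinv τ n _ h _ h1, fun h => hinv τ n _ h _ h2⟩
  have hmem' : ∀ τ n (c : G ⧸ U n) (g : G), (g : G ⧸ U n) = c → (g ∈ T τ n ↔ c.out ∈ T τ n) := by
    intro τ n c g h
    rw [hmem, h]
  have hTT : Measurable TT := by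
    refine measurable_pi_iff.2 fun n => measurable_pi_iff.2 fun c => measurable_to_bool ?_
    have : (fun τ => TT τ n c) ⁻¹' {true} = {τ | c.out ∈ T τ n} := by
      ext τ; simp [TT]
    rw [this]
    exact hmeas n _
  have hSS : Measurable SS := by
    refine measurable_pi_iff.2 fun n => measurable_pi_iff.2 fun c => measurable_to_bool ?_
    have : (fun τ => SS τ n c) ⁻¹' {true} = {_τ | c = 0} ∪ ⋃ d : G ⧸ U n, ({τ | d.out ∈ T τ n} ∩
        {τ | (d + c).out ∈ T τ n}) := by
      ext τ; simp [SS]
    rw [this]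
    exact (MeasurableSet.const _).union
      (MeasurableSet.iUnion fun d => (hmeas n _).inter (hmeas n _))
  have hΦ : Measurable fun τ => (SS τ, TT τ) := hSS.prodMk hTT
  have hpre : {τ : Tr | ∃ g, ∀ n, g ∈ T τ n} =
      (fun τ => (SS τ, TT τ)) ⁻¹' {p : YY U × YY U | ∃ g : G, g +ᵥ p.1 = p.2} := by
    ext τ
    simp only [mem_ofPred_eq, mem_preimage]
    refine exists_congr fun g => ?_
    constructor
    · intro hg
      funext n c
      rw [vadd_apply]
      simp only [SS, TT]
      rw [decide_eq_decide]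
      constructor
      · rintro (h | ⟨d, hd, hdc⟩)
        · have hc : (g : G ⧸ U n) = c := (sub_eq_zero.1 h).symm
          exact (hmem' τ n c g hc).1 (hg n)
        · have h1 := haff τ n _ hdc _ hd _ (hg n)
          refine (hmem' τ n c _ ?_).1 h1
          rw [QuotientAddGroup.mk_add, QuotientAddGroup.mk_sub, hout, hout]
          abel
      · intro hc
        right
        refine ⟨(g : G ⧸ U n), (hmem τ n g).1 (hg n), ?_⟩
        have : (g : G ⧸ U n) + (c - (g : G ⧸ U n)) = c := by abel
        rw [this]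
        exact hc
    · intro h n
      have h1 := congrFun (congrFun h n) (g : G ⧸ U n)
      rw [vadd_apply, sub_self] at h1
      simp only [SS, TT, true_or, decide_true] at h1
      rw [eq_comm, decide_eq_true_eq] at h1
      exact (hmem τ n g).2 h1
  rw [hpre]
  exact hΦ hE'

end

end Pool.Agent.H731R3.Tame
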