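import Mathlib
import Pool.Agent.H731R3.Cod

set_option autoImplicit false

/-!
If the group involves the Baer-Specker group then it is not tame.
-/

open Set Filter
open scoped Topology

namespace Pool.Agent.H731R3.Tame

theorem case1_gen {G : Type} [AddCommGroup G] [TopologicalSpace G] [IsTopologicalAddGroup G]
    [PolishSpace G] {U : ℕ → AddSubgroup G} (hU : Bas U) (hG : TameG G)
    (hx : ∀ n, ∃ x ∈ U n, ∀ k : ℕ, 1 ≤ k → k • x ∉ U (n + 1))
    {ι : Type} [Countable ι] (C : Tr → ι → (ℕ → ℤ) → Prop) (N : ι → ℕ)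
    (hloc : ∀ τ i (z z' : ℕ → ℤ), (∀ j < N i, z j = z' j) → C τ i z → C τ i z')
    (haff : ∀ τ i (z z' z'' : ℕ → ℤ), C τ i z → C τ i z' → C τ i z'' → C τ i (z - z' + z''))
    (hmeas : ∀ i z, MeasurableSet {τ | C τ i z}) :
    MeasurableSet {τ : Tr | ∃ z : ℕ → ℤ, ∀ i, C τ i z} := by
  classical
  choose x hxU hxn using hx
  have hxz : ∀ n, ∀ k : ℤ, k • x n ∈ U (n + 1) → k = 0 := by
    intro n k hk
    by_contra hne
    refine hxn n k.natAbs (Int.natAbs_pos.2 hne) ?_
    rcases Int.natAbs_eq k with h | h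
    · rw [h, natCast_zsmul] at hk; exact hk
    · rw [h, neg_smul, natCast_zsmul] at hk
      have := (U (n + 1)).neg_mem hk
      rwa [neg_neg] at this
  have uniq : ∀ n (w : ℕ → ℤ), (∑ j ∈ Finset.range n, w j • x j) ∈ U n → ∀ j < n, w j = 0 := by
    intro n w hw j
    induction j using Nat.strong_induction_on with
    | _ j ih =>
      intro hj
      apply hxz j
      have h1 : (∑ i ∈ Finset.range n, w i • x i) ∈ U (j + 1) := hU.anti hj hw
      have h2 : ∑ i ∈ Finset.range n, w i • x i = w j • x j +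
          ∑ i ∈ (Finset.range n).erase j, w i • x i :=
        (Finset.add_sum_erase _ _ (Finset.mem_range.2 hj)).symm
      have h3 : (∑ i ∈ (Finset.range n).erase j, w i • x i) ∈ U (j + 1) := by
        refine (U _).sum_mem fun i hi => ?_
        rw [Finset.mem_erase, Finset.mem_range] at hi
        rcases Nat.lt_or_ge i j with h | h
        · rw [ih i h hi.2, zero_smul]; exact (U _).zero_mem
        · refine (U _).zsmul_mem (hU.anti ?_ (hxU i)) _
          have := hi.1
          omega
      rw [h2] at h1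
      have := (U (j + 1)).sub_mem h1 h3
      rwa [add_sub_cancel_right] at this
  let T : Tr → ℕ → Set G := fun τ n => {g | ∃ z : ℕ →₀ ℤ,
    g - ∑ j ∈ Finset.range n, z j • x j ∈ U n ∧ ∀ i, N i ≤ n → C τ i z}
  have hm := coding hU hG T (by
      rintro τ n t ⟨z, hz, hC⟩ t' ⟨z', hz', hC'⟩ t'' ⟨z'', hz'', hC''⟩
      refine ⟨z - z' + z'', ?_, fun i hi => ?_⟩
      · have h1 : ∑ j ∈ Finset.range n, (z - z' + z'') j • x j =
            ∑ j ∈ Finset.range n, z j • x j - ∑ j ∈ Finset.range n, z' j • x j +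
            ∑ j ∈ Finset.range n, z'' j • x j := by
          rw [← Finset.sum_sub_distrib, ← Finset.sum_add_distrib]
          refine Finset.sum_congr rfl fun j _ => ?_
          rw [Finsupp.add_apply, Finsupp.sub_apply, add_smul, sub_smul]
        rw [h1]
        have h2 : t - t' + t'' - (∑ j ∈ Finset.range n, z j • x j - ∑ j ∈ Finset.range n, z' j • x j +
            ∑ j ∈ Finset.range n, z'' j • x j) = (t - ∑ j ∈ Finset.range n, z j • x j) -
            (t' - ∑ j ∈ Finset.range n, z' j • x j) + (t'' - ∑ j ∈ Finset.range n, z'' j • x j) := by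
          abel
        rw [h2]
        exact (U _).add_mem ((U _).sub_mem hz hz') hz''
      · have := haff τ i z z' z'' (hC i hi) (hC' i hi) (hC'' i hi)
        refine hloc τ i _ _ (fun j _ => ?_) this
        simp)
    (by
      rintro τ n t ⟨z, hz, hC⟩ t' ht'
      refine ⟨z, ?_, hC⟩
      have : t' - ∑ j ∈ Finset.range n, z j • x j =
        (t' - t) + (t - ∑ j ∈ Finset.range n, z j • x j) := by abel
      rw [this]
      exact (U _).add_mem ht' hz)
    (by
      intro n g
      have h1 : {τ : Tr | g ∈ T τ n} = ⋃ z : ℕ →₀ ℤ,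
          ({_τ | g - ∑ j ∈ Finset.range n, z j • x j ∈ U n} ∩ ⋂ i : ι, ({_τ | ¬ N i ≤ n} ∪ {τ | C τ i z})) := by
        ext τ
        simp only [T, mem_ofPred_eq, mem_iUnion, mem_inter_iff, mem_iInter, mem_union]
        refine exists_congr fun z => and_congr_right fun _ => forall_congr' fun i => ?_
        exact imp_iff_not_or
      rw [h1]
      refine MeasurableSet.iUnion fun z => ?_
      refine (MeasurableSet.const _).inter (MeasurableSet.iInter fun i => ?_)
      exact (MeasurableSet.const _).union (hmeas i z))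
  have hEq : {τ : Tr | ∃ g, ∀ n, g ∈ T τ n} = {τ : Tr | ∃ z : ℕ → ℤ, ∀ i, C τ i z} := by
    ext τ
    constructor
    · rintro ⟨g, hg⟩
      choose z hz hC using hg
      have hcoh : ∀ m n, m ≤ n → ∀ j < m, z m j = z n j := by
        intro m n hmn j hj
        have h1 : ∑ i ∈ Finset.range m, (z m i - z n i) • x i ∈ U m := by
          have h2 : ∑ i ∈ Finset.range n, z n i • x i =
              ∑ i ∈ Finset.range m, z n i • x i + ∑ i ∈ Finset.Ico m n, z n i • x i :=
            (Finset.sum_range_add_sum_Ico _ hmn).symm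
          have h3 : ∑ i ∈ Finset.Ico m n, z n i • x i ∈ U m := by
            refine (U _).sum_mem fun i hi => (U _).zsmul_mem (hU.anti ?_ (hxU i)) _
            exact (Finset.mem_Ico.1 hi).1
          have h4 : ∑ i ∈ Finset.range m, (z m i - z n i) • x i =
              (g - ∑ i ∈ Finset.range n, z n i • x i) - (g - ∑ i ∈ Finset.range m, z m i • x i) +
              ∑ i ∈ Finset.Ico m n, z n i • x i := by
            rw [h2]
            simp only [sub_smul, Finset.sum_sub_distrib]
            abel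
          rw [h4]
          exact (U _).add_mem ((U _).sub_mem (hU.anti hmn (hz n)) (hz m)) h3
        have h5 : z m j - z n j = 0 := uniq m (fun i => z m i - z n i) h1 j hj
        omega
      refine ⟨fun j => z (j + 1) j, fun i => ?_⟩
      refine hloc τ i (z (N i)) _ (fun j hj => ?_) (hC (N i) i le_rfl)
      exact (hcoh (j + 1) (N i) hj j (Nat.lt_succ_self j)).symm
    · rintro ⟨z, hz⟩
      obtain ⟨g, hg⟩ := hU.complete (fun n => ∑ j ∈ Finset.range n, z j • x j) (by
        intro n
        change ∑ j ∈ Finset.range (n + 1), z j • x j - ∑ j ∈ Finset.range n, z j • x j ∈ U n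
        rw [Finset.sum_range_succ, add_sub_cancel_left]
        exact (U n).zsmul_mem (hxU n) _)
      refine ⟨g, fun n => ?_⟩
      let zn : ℕ →₀ ℤ := Finsupp.onFinset (Finset.range n) (fun j => if j < n then z j else 0) (by
        intro j hj
        rw [Finset.mem_range]
        by_contra h
        rw [if_neg h] at hj
        exact hj rfl)
      have hzn : ∀ j < n, zn j = z j := fun j hj => by
        simp [zn, Finsupp.onFinset_apply, hj]
      refine ⟨zn, ?_, fun i hi => ?_⟩
      · have h1 : ∑ j ∈ Finset.range n, zn j • x j = ∑ j ∈ Finset.range n, z j • x j :=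
          Finset.sum_congr rfl fun j hj => by rw [hzn j (Finset.mem_range.1 hj)]
        rw [h1]
        exact hg n
      · exact hloc τ i z _ (fun j hj => (hzn j (lt_of_lt_of_le hj hi)).symm) (hz i)
  rw [hEq] at hm
  exact hm

/-- Nodes. -/
abbrev Nd : Type := List (ℕ × Bool)

/-- Variables. -/
abbrev Vr : Type := Nd ⊕ (Nd × Bool)

/-- Index of a variable. -/
def ix (v : Vr) : ℕ := Encodable.encode v

theorem ix_inj : Function.Injective ix := Encodable.encode_injective

/-- The primes used. -/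
def qq (ε : Bool) : ℤ := if ε then 3 else 2

theorem two_le_qq (ε : Bool) : 2 ≤ qq ε := by
  unfold qq; split_ifs <;> norm_num

/-- Constraints. -/
abbrev Cn : Type := Nd ⊕ Nd ⊕ (Nd × Bool × ℕ) ⊕ Unit

/-- The infinite-sum expression. -/
def expr (u : Nd) (ε : Bool) (m : ℕ) (z : ℕ → ℤ) : ℤ :=
  z (ix (Sum.inr (u, ε))) - ∑ k ∈ Finset.range m, (qq ε) ^ k * z (ix (Sum.inl ((k, ε) :: u)))

theorem expr_aff (u : Nd) (ε : Bool) (m : ℕ) (z z' z'' : ℕ → ℤ) :
    expr u ε m (z - z' + z'') = expr u ε m z - expr u ε m z' + expr u ε m z'' := by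
  unfold expr
  have : ∑ k ∈ Finset.range m, (qq ε) ^ k * (z - z' + z'') (ix (Sum.inl ((k, ε) :: u))) =
      ∑ k ∈ Finset.range m, (qq ε) ^ k * z (ix (Sum.inl ((k, ε) :: u))) -
      ∑ k ∈ Finset.range m, (qq ε) ^ k * z' (ix (Sum.inl ((k, ε) :: u))) +
      ∑ k ∈ Finset.range m, (qq ε) ^ k * z'' (ix (Sum.inl ((k, ε) :: u))) := by
    rw [← Finset.sum_sub_distrib, ← Finset.sum_add_distrib]
    refine Finset.sum_congr rfl fun k _ => ?_
    simp only [Pi.add_apply, Pi.sub_apply]
    ring
  rw [this]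
  simp only [Pi.add_apply, Pi.sub_apply]
  ring

/-- The system attached to a code. -/
def Sys (τ : Tr) : Cn → (ℕ → ℤ) → Prop
  | Sum.inl u, z => τ (u.map Prod.fst) = true ∨ z (ix (Sum.inl u)) = 0
  | Sum.inr (Sum.inl u), z =>
      z (ix (Sum.inl u)) = z (ix (Sum.inr (u, false))) + z (ix (Sum.inr (u, true)))
  | Sum.inr (Sum.inr (Sum.inl q)), z => (qq q.2.1) ^ q.2.2 ∣ expr q.1 q.2.1 q.2.2 z
  | Sum.inr (Sum.inr (Sum.inr _)), z => z (ix (Sum.inl [])) = 1

/-- Bounds for the variables involved. -/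
def bnd : Cn → ℕ
  | Sum.inl u => ix (Sum.inl u) + 1
  | Sum.inr (Sum.inl u) => ix (Sum.inl u) + ix (Sum.inr (u, false)) + ix (Sum.inr (u, true)) + 1
  | Sum.inr (Sum.inr (Sum.inl q)) => ix (Sum.inr (q.1, q.2.1)) +
      (∑ k ∈ Finset.range q.2.2, ix (Sum.inl ((k, q.2.1) :: q.1))) + 1
  | Sum.inr (Sum.inr (Sum.inr _)) => ix (Sum.inl []) + 1

theorem Sys_loc (τ : Tr) (i : Cn) (z z' : ℕ → ℤ) (h : ∀ j < bnd i, z j = z' j) (hz : Sys τ i z) :
    Sys τ i z' := by
  rcases i with u | u | q | _
  · simp only [Sys, bnd] at *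
    rw [← h _ (by omega)]; exact hz
  · simp only [Sys, bnd] at *
    rw [← h _ (by omega), ← h (ix (Sum.inr (u, false))) (by omega),
      ← h (ix (Sum.inr (u, true))) (by omega)]
    exact hz
  · simp only [Sys, bnd] at *
    have h1 : expr q.1 q.2.1 q.2.2 z' = expr q.1 q.2.1 q.2.2 z := by
      unfold expr
      rw [← h (ix (Sum.inr (q.1, q.2.1))) (by omega)]
      congr 1
      refine Finset.sum_congr rfl fun k hk => ?_
      rw [h]
      have : ix (Sum.inl ((k, q.2.1) :: q.1)) ≤
          ∑ k ∈ Finset.range q.2.2, ix (Sum.inl ((k, q.2.1) :: q.1)) :=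
        Finset.single_le_sum (f := fun k => ix (Sum.inl ((k, q.2.1) :: q.1)))
          (fun _ _ => Nat.zero_le _) hk
      omega
    rw [h1]; exact hz
  · simp only [Sys, bnd] at *
    rw [← h _ (by omega)]; exact hz

theorem Sys_aff (τ : Tr) (i : Cn) (z z' z'' : ℕ → ℤ) (h : Sys τ i z) (h' : Sys τ i z')
    (h'' : Sys τ i z'') : Sys τ i (z - z' + z'') := by
  rcases i with u | u | q | _
  · simp only [Sys, Pi.add_apply, Pi.sub_apply] at *
    rcases h with h | h
    · exact Or.inl h
    rcases h' with h' | h'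
    · exact Or.inl h'
    rcases h'' with h'' | h''
    · exact Or.inl h''
    right
    rw [h, h', h'']; rfl
  · simp only [Sys, Pi.add_apply, Pi.sub_apply] at *
    rw [h, h', h'']; ring
  · simp only [Sys] at *
    rw [expr_aff]
    exact dvd_add (dvd_sub h h') h''
  · simp only [Sys, Pi.add_apply, Pi.sub_apply] at *
    rw [h, h', h'']; rfl

theorem Sys_meas (i : Cn) (z : ℕ → ℤ) : MeasurableSet {τ : Tr | Sys τ i z} := by
  rcases i with u | u | q | _
  · have : {τ : Tr | Sys τ (Sum.inl u) z} = (fun τ : Tr => τ (u.map Prod.fst)) ⁻¹' {true} ∪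
        {_τ | z (ix (Sum.inl u)) = 0} := by ext τ; simp [Sys]
    rw [this]
    exact (measurable_pi_apply _ (measurableSet_singleton _)).union (MeasurableSet.const _)
  · exact MeasurableSet.const _
  · exact MeasurableSet.const _
  · exact MeasurableSet.const _

theorem eq_zero_of_pow_dvd {q b : ℤ} (hq : 2 ≤ q) (h : ∀ m : ℕ, q ^ m ∣ b) : b = 0 := by
  refine Int.eq_zero_of_abs_lt_dvd (h b.natAbs) ?_
  have h1 : b.natAbs < 2 ^ b.natAbs := Nat.lt_two_pow_self
  have h2 : (2 : ℤ) ^ b.natAbs ≤ q ^ b.natAbs := pow_le_pow_left₀ (by norm_num) hq _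
  have h3 : |b| = (b.natAbs : ℤ) := Int.abs_eq_natAbs b
  rw [h3]
  calc (b.natAbs : ℤ) < 2 ^ b.natAbs := by exact_mod_cast h1
    _ ≤ q ^ b.natAbs := h2

theorem Sys_sound {τ : Tr} {z : ℕ → ℤ} (hz : ∀ i, Sys τ i z) : τ ∈ IF := by
  have hA : ∀ u : Nd, τ (u.map Prod.fst) = true ∨ z (ix (Sum.inl u)) = 0 := fun u => hz (Sum.inl u)
  have hB : ∀ u : Nd, z (ix (Sum.inl u)) = z (ix (Sum.inr (u, false))) + z (ix (Sum.inr (u, true))) :=
    fun u => hz (Sum.inr (Sum.inl u))
  have hC : ∀ (u : Nd) (ε : Bool) (m : ℕ), (qq ε) ^ m ∣ expr u ε m z :=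
    fun u ε m => hz (Sum.inr (Sum.inr (Sum.inl (u, ε, m))))
  have hD : z (ix (Sum.inl [])) = 1 := hz (Sum.inr (Sum.inr (Sum.inr ())))
  have hnext : ∀ u : Nd, z (ix (Sum.inl u)) ≠ 0 → ∃ q : ℕ × Bool, z (ix (Sum.inl (q :: u))) ≠ 0 := by
    intro u hu
    have h1 : ∃ ε, z (ix (Sum.inr (u, ε))) ≠ 0 := by
      by_contra hcon
      push Not at hcon
      apply hu
      rw [hB, hcon, hcon, add_zero]
    obtain ⟨ε, hε⟩ := h1
    by_contra hcon
    push Not at hcon
    apply hε
    refine eq_zero_of_pow_dvd (two_le_qq ε) fun m => ?_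
    have h2 := hC u ε m
    unfold expr at h2
    have h3 : ∑ k ∈ Finset.range m, (qq ε) ^ k * z (ix (Sum.inl ((k, ε) :: u))) = 0 :=
      Finset.sum_eq_zero fun k _ => by rw [hcon (k, ε), mul_zero]
    rwa [h3, sub_zero] at h2
  choose! κ hκ using hnext
  let q : ℕ → Nd := fun n => Nat.rec [] (fun _ u => κ u :: u) n
  have hq : ∀ n, q (n + 1) = κ (q n) :: q n := fun n => rfl
  have hne : ∀ n, z (ix (Sum.inl (q n))) ≠ 0 := by
    intro n
    induction n with
    | zero => rw [show q 0 = [] from rfl, hD]; exact one_ne_zero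
    | succ n ih => rw [hq]; exact hκ _ ih
  refine ⟨fun n => (κ (q n)).1, fun n => ?_⟩
  have hbr : ∀ n, br (fun n => (κ (q n)).1) n = (q n).map Prod.fst := by
    intro n
    induction n with
    | zero => rfl
    | succ n ih => rw [br, ih, hq, List.map_cons]
  rw [hbr]
  exact (hA (q n)).resolve_right (hne n)

theorem Sys_complete {τ : Tr} (hτ : τ ∈ IF) : ∃ z : ℕ → ℤ, ∀ i, Sys τ i z := by
  classical
  obtain ⟨β, hβ⟩ := hτ
  have hbez : ∀ k : ℕ, ∃ a b : ℤ, (2 : ℤ) ^ k * a + 3 ^ k * b = 1 := by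
    intro k
    have : IsCoprime ((2 : ℤ) ^ k) (3 ^ k) := IsCoprime.pow (by norm_num)
    obtain ⟨a, b, hab⟩ := this
    exact ⟨a, b, by linarith⟩
  choose A B hAB using hbez
  let cf : Bool → ℕ → ℤ := fun ε k => if ε then B k else A k
  have hcf : ∀ k, qq false ^ k * cf false k + qq true ^ k * cf true k = 1 := by
    intro k
    simpa [qq, cf] using hAB k
  let w : Nd → ℤ := fun u => u.foldr (fun q r => cf q.2 q.1 * r) 1
  have hw0 : w [] = 1 := rfl
  have hws : ∀ q u, w (q :: u) = cf q.2 q.1 * w u := fun q u => rfl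
  let along : Nd → Prop := fun u => u.map Prod.fst = br β u.length
  have halong : ∀ k ε u, along ((k, ε) :: u) ↔ k = β u.length ∧ along u := by
    intro k ε u
    simp only [along, List.map_cons, List.length_cons, br, List.cons.injEq]
  let val : Vr → ℤ := fun v => match v with
    | Sum.inl u => if along u then w u else 0
    | Sum.inr (u, ε) => if along u then qq ε ^ (β u.length) * (cf ε (β u.length) * w u) else 0
  let z : ℕ → ℤ := Function.extend ix val 0
  have hz : ∀ v, z (ix v) = val v := fun v => ix_inj.extend_apply val 0 v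
  refine ⟨z, ?_⟩
  rintro (u | u | ⟨u, ε, m⟩ | _)
  · simp only [Sys, hz, val]
    by_cases h : along u
    · left
      have : u.map Prod.fst = br β u.length := h
      rw [this]; exact hβ _
    · right; rw [if_neg h]
  · simp only [Sys, hz, val]
    by_cases h : along u
    · rw [if_pos h, if_pos h, if_pos h]
      have := hcf (β u.length)
      calc w u = (qq false ^ (β u.length) * cf false (β u.length) +
            qq true ^ (β u.length) * cf true (β u.length)) * w u := by rw [this, one_mul]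
        _ = _ := by ring
    · rw [if_neg h, if_neg h, if_neg h, add_zero]
  · simp only [Sys, expr, hz, val]
    by_cases h : along u
    · rw [if_pos h]
      have h1 : ∀ k ∈ Finset.range m, (qq ε) ^ k * (if along ((k, ε) :: u) then w ((k, ε) :: u) else 0) =
          if k = β u.length then (qq ε) ^ (β u.length) * (cf ε (β u.length) * w u) else 0 := by
        intro k _
        by_cases hk : k = β u.length
        · rw [if_pos hk, if_pos ((halong k ε u).2 ⟨hk, h⟩), hws]
          simp only
          rw [hk]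
        · rw [if_neg hk, if_neg (fun h2 => hk ((halong k ε u).1 h2).1), mul_zero]
      rw [Finset.sum_congr rfl h1, Finset.sum_ite_eq']
      split_ifs with h2
      · rw [sub_self]; exact dvd_zero _
      · rw [sub_zero]
        rw [Finset.mem_range, not_lt] at h2
        exact (pow_dvd_pow _ h2).mul_right _
    · rw [if_neg h]
      have h1 : ∀ k ∈ Finset.range m,
          (qq ε) ^ k * (if along ((k, ε) :: u) then w ((k, ε) :: u) else 0) = 0 := by
        intro k _
        rw [if_neg (fun h2 => h ((halong k ε u).1 h2).2), mul_zero]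
      rw [Finset.sum_congr rfl h1, Finset.sum_const_zero, sub_zero]
      exact dvd_zero _
  · simp only [Sys, hz, val]
    have : along [] := rfl
    rw [if_pos this, hw0]

theorem case1 {G : Type} [AddCommGroup G] [TopologicalSpace G] [IsTopologicalAddGroup G]
    [PolishSpace G] {U : ℕ → AddSubgroup G} (hU : Bas U) (hG : TameG G)
    (hx : ∀ n, ∃ x ∈ U n, ∀ k : ℕ, 1 ≤ k → k • x ∉ U (n + 1)) : False := by
  have h1 := case1_gen hU hG hx Sys bnd Sys_loc Sys_aff Sys_meas
  have h2 : {τ : Tr | ∃ z : ℕ → ℤ, ∀ i, Sys τ i z} = IF := by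
    ext τ
    exact ⟨fun ⟨z, hz⟩ => Sys_sound hz, fun h => Sys_complete h⟩
  rw [h2] at h1
  exact not_measurable_IF h1

end Pool.Agent.H731R3.Tame
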