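import Mathlib
import Pool.Agent.H731R3.Alg2

set_option autoImplicit false

/-!
Greedy construction of families independent modulo `p` at all levels.
-/

namespace Pool.Agent.H731R3.Tame

section

variable {G : Type*} [AddCommGroup G] (U : ℕ → AddSubgroup G) (p : ℕ)

theorem fg_fin (htor : ∀ m, ∀ x ∈ U 0, ∃ k : ℕ, 1 ≤ k ∧ k • x ∈ U m) (n : ℕ) (F : Finset G)
    (hF : ∀ f ∈ F, f ∈ U 0) :
    ∃ R : Finset G, ∀ x ∈ AddSubgroup.closure (F : Set G), ∃ r ∈ R, x - r ∈ U n := by
  classical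
  induction F using Finset.induction_on with
  | empty =>
    refine ⟨{0}, fun x hx => ⟨0, by simp, ?_⟩⟩
    simp only [Finset.coe_empty, AddSubgroup.closure_empty, AddSubgroup.mem_bot] at hx
    rw [hx, sub_zero]
    exact (U n).zero_mem
  | insert f F hf ih =>
    obtain ⟨R, hR⟩ := ih (fun g hg => hF g (Finset.mem_insert_of_mem hg))
    obtain ⟨k, hk1, hk⟩ := htor n f (hF f (Finset.mem_insert_self _ _))
    refine ⟨((Finset.range k) ×ˢ R).image (fun q => q.1 • f + q.2), fun x hx => ?_⟩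
    rw [Finset.coe_insert, Set.insert_eq, AddSubgroup.closure_union, AddSubgroup.mem_sup] at hx
    obtain ⟨u, hu, v, hv, rfl⟩ := hx
    rw [AddSubgroup.mem_closure_singleton] at hu
    obtain ⟨a, rfl⟩ := hu
    obtain ⟨r, hr, hvr⟩ := hR v hv
    have hkpos : (0 : ℤ) < k := by exact_mod_cast hk1
    have hj0 : 0 ≤ a % k := Int.emod_nonneg _ hkpos.ne'
    have hjk : a % k < k := Int.emod_lt_of_pos _ hkpos
    refine ⟨(a % k).toNat • f + r, Finset.mem_image.2 ⟨((a % k).toNat, r), ?_, rfl⟩, ?_⟩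
    · rw [Finset.mem_product]
      refine ⟨Finset.mem_range.2 ?_, hr⟩
      omega
    · have h1 : ((a % k).toNat : ℤ) = a % k := Int.toNat_of_nonneg hj0
      have h2 : (a % k).toNat • f = (a % k) • f := by
        rw [← natCast_zsmul, h1]
      have h3 : a • f + v - ((a % k).toNat • f + r) = (a / k) • (k • f) + (v - r) := by
        rw [h2]
        have h4 : a • f = (a % k) • f + (a / k) • (k • f) := by
          rw [← natCast_zsmul f k, smul_smul, ← add_smul]
          congr 1
          have := Int.emod_add_mul_ediv a k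
          linarith
        rw [h4]; abel
      rw [h3]
      exact (U n).add_mem ((U n).zsmul_mem hk _) hvr

theorem multi (hanti : Antitone U) (hp : p.Prime)
    (htor : ∀ m, ∀ x ∈ U 0, ∃ k : ℕ, 1 ≤ k ∧ k • x ∈ U m)
    (hinf : ∀ n, ¬ ∃ R : Finset G, ∀ y ∈ U n, p • y ∈ U (n + 1) → ∃ r ∈ R, y - r ∈ U (n + 1))
    (m₀ : ℕ) (X : AddSubgroup G) (hX : ∀ n, ∃ R : Finset G, ∀ x ∈ X, ∃ r ∈ R, x - r ∈ U n) (N : ℕ) :
    ∃ Y : AddSubgroup G, (∀ y ∈ Y, y ∈ U m₀ ∧ p • y ∈ U (m₀ + 1)) ∧
      (¬ ∃ R : Finset G, ∀ y ∈ Y, ∃ r ∈ R, y - r ∈ U (m₀ + 1)) ∧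
      ∀ n, m₀ ≤ n → n < m₀ + N → ∀ y ∈ Y, ∀ x ∈ X, y - x ∈ U (n + 1) → y ∈ U (n + 1) := by
  induction N with
  | zero =>
    refine ⟨U m₀ ⊓ (U (m₀ + 1)).comap (nsmulAddMonoidHom p), ?_, ?_, ?_⟩
    · intro y hy
      rw [AddSubgroup.mem_inf, AddSubgroup.mem_comap] at hy
      exact hy
    · rintro ⟨R, hR⟩
      refine hinf m₀ ⟨R, fun y hy hpy => hR y ?_⟩
      rw [AddSubgroup.mem_inf, AddSubgroup.mem_comap]
      exact ⟨hy, hpy⟩
    · intro n h1 h2; omega
  | succ N ih =>
    obtain ⟨Y, hY1, hY2, hY3⟩ := ih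
    obtain ⟨Y', hY'Y, hY'inf, hY'⟩ := lemC p hp Y (U (m₀ + 1)) (U (m₀ + N + 1)) X
      (fun y hy => (hY1 y hy).2)
      (fun y hy => htor _ y (hanti (Nat.zero_le _) (hY1 y hy).1)) (hX _) hY2
    refine ⟨Y', fun y hy => hY1 y (hY'Y hy), hY'inf, ?_⟩
    intro n h1 h2 y hy x hx hyx
    rcases Nat.lt_or_ge n (m₀ + N) with h | h
    · exact hY3 n h1 h y (hY'Y hy) x hx hyx
    · have : n = m₀ + N := by omega
      subst this
      exact hY' y hy x hx hyx

/-- Independence of the first `r` members of a family. -/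
def PInd (lv : ℕ → ℕ) (r : ℕ) (x : ℕ → G) : Prop :=
  (∀ i < r, x i ∈ U (lv i)) ∧ ∀ n, ∀ c : ℕ → ℤ, (∀ i < r, n < lv i → c i = 0) →
    (∑ i ∈ Finset.range r, c i • x i) ∈ U (n + 1) → ∀ i < r, (p : ℤ) ∣ c i

theorem PInd.congr {lv : ℕ → ℕ} {r : ℕ} {x y : ℕ → G} (h : PInd U p lv r x) (hxy : ∀ i < r, x i = y i) :
    PInd U p lv r y := by
  refine ⟨fun i hi => hxy i hi ▸ h.1 i hi, fun n c hc hsum => h.2 n c hc ?_⟩
  have : ∑ i ∈ Finset.range r, c i • x i = ∑ i ∈ Finset.range r, c i • y i :=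
    Finset.sum_congr rfl fun i hi => by rw [hxy i (Finset.mem_range.1 hi)]
  rw [this]; exact hsum

theorem PInd.step (hanti : Antitone U) (hp : p.Prime)
    (htor : ∀ m, ∀ x ∈ U 0, ∃ k : ℕ, 1 ≤ k ∧ k • x ∈ U m)
    (hinf : ∀ n, ¬ ∃ R : Finset G, ∀ y ∈ U n, p • y ∈ U (n + 1) → ∃ r ∈ R, y - r ∈ U (n + 1))
    {lv : ℕ → ℕ} {r : ℕ} {x : ℕ → G} (h : PInd U p lv r x) :
    ∃ y, PInd U p lv (r + 1) (Function.update x r y) := by
  classical
  set F : Finset G := (Finset.range r).image x with hF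
  set X : AddSubgroup G := AddSubgroup.closure (F : Set G) with hXdef
  have hX : ∀ n, ∃ R : Finset G, ∀ x ∈ X, ∃ r ∈ R, x - r ∈ U n := by
    intro n
    refine fg_fin U htor n F fun f hf => ?_
    obtain ⟨i, hi, rfl⟩ := Finset.mem_image.1 hf
    exact hanti (Nat.zero_le _) (h.1 i (Finset.mem_range.1 hi))
  set N : ℕ := (Finset.range r).sup lv with hN
  have hNlv : ∀ i < r, lv i ≤ N := fun i hi => Finset.le_sup (f := lv) (Finset.mem_range.2 hi)
  obtain ⟨Y, hY1, hY2, hY3⟩ := multi U p hanti hp htor hinf (lv r) X hX (N + 1)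
  have hexy : ∃ y ∈ Y, y ∉ U (lv r + 1) := by
    by_contra hcon
    push Not at hcon
    exact hY2 ⟨{0}, fun y hy => ⟨0, by simp, by rw [sub_zero]; exact hcon y hy⟩⟩
  obtain ⟨y, hyY, hyU⟩ := hexy
  refine ⟨y, ?_, ?_⟩
  · intro i hi
    rcases Nat.lt_succ_iff_lt_or_eq.1 hi with h1 | h1
    · rw [Function.update_of_ne h1.ne]; exact h.1 i h1
    · rw [h1, Function.update_self]; exact (hY1 y hyY).1
  · intro n c hc hsum
    rw [Finset.sum_range_succ, Function.update_self] at hsum
    have hsum' : ∑ i ∈ Finset.range r, c i • Function.update x r y i =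
        ∑ i ∈ Finset.range r, c i • x i :=
      Finset.sum_congr rfl fun i hi => by
        rw [Function.update_of_ne (Finset.mem_range.1 hi).ne]
    rw [hsum'] at hsum
    by_cases hn : n < lv r
    · have hcr : c r = 0 := hc r (Nat.lt_succ_self r) hn
      rw [hcr, zero_smul, add_zero] at hsum
      intro i hi
      rcases Nat.lt_succ_iff_lt_or_eq.1 hi with h1 | h1
      · exact h.2 n c (fun i hi => hc i (Nat.lt_succ_of_lt hi)) hsum i h1
      · rw [h1, hcr]; exact dvd_zero _
    · rw [not_lt] at hn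
      -- reduce to a bounded level
      set n' := min n (max (lv r) N) with hn'
      have hn'1 : lv r ≤ n' := le_min hn (le_max_left _ _)
      have hn'2 : n' < lv r + (N + 1) := by
        have h1 : n' ≤ max (lv r) N := min_le_right _ _
        have h2 : max (lv r) N ≤ lv r + N := by omega
        omega
      have hsum2 : (∑ i ∈ Finset.range r, c i • x i) + c r • y ∈ U (n' + 1) :=
        hanti (Nat.succ_le_succ (min_le_left _ _)) hsum
      have hXmem : (∑ i ∈ Finset.range r, c i • x i) ∈ X := by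
        refine X.sum_mem fun i hi => X.zsmul_mem (AddSubgroup.subset_closure ?_) _
        exact Finset.mem_coe.2 (Finset.mem_image_of_mem x hi)
      have hcy : c r • y ∈ U (n' + 1) := by
        refine hY3 n' hn'1 hn'2 _ (Y.zsmul_mem hyY _) (-(∑ i ∈ Finset.range r, c i • x i))
          (X.neg_mem hXmem) ?_
        rw [sub_neg_eq_add, add_comm (c r • y)]
        exact hsum2
      have hpc : (p : ℤ) ∣ c r := by
        by_contra hnd
        have hcop : IsCoprime (p : ℤ) (c r) := by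
          rw [Prime.coprime_iff_not_dvd (Nat.prime_iff_prime_int.1 hp)]
          exact hnd
        obtain ⟨a, b, hab⟩ := hcop
        apply hyU
        have h1 : y = a • (p • y) + b • (c r • y) := by
          rw [← natCast_zsmul y p, smul_smul, smul_smul, ← add_smul, hab, one_smul]
        rw [h1]
        refine (U _).add_mem ((U _).zsmul_mem (hY1 y hyY).2 _) ((U _).zsmul_mem ?_ _)
        exact hanti (Nat.succ_le_succ hn'1) hcy
      have hrest : (∑ i ∈ Finset.range r, c i • x i) ∈ U (n' + 1) := by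
        have := (U (n' + 1)).sub_mem hsum2 hcy
        rwa [add_sub_cancel_right] at this
      intro i hi
      rcases Nat.lt_succ_iff_lt_or_eq.1 hi with h1 | h1
      · refine h.2 n' c (fun j hj hlj => ?_) hrest i h1
        refine hc j (Nat.lt_succ_of_lt hj) ?_
        have h2 := hNlv j hj
        have h3 : N ≤ max (lv r) N := le_max_right _ _
        rcases min_lt_iff.1 hlj with h4 | h4
        · exact h4
        · omega
      · rw [h1]; exact hpc

open Classical in
theorem exists_family (hanti : Antitone U) (hp : p.Prime)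
    (htor : ∀ m, ∀ x ∈ U 0, ∃ k : ℕ, 1 ≤ k ∧ k • x ∈ U m)
    (hinf : ∀ n, ¬ ∃ R : Finset G, ∀ y ∈ U n, p • y ∈ U (n + 1) → ∃ r ∈ R, y - r ∈ U (n + 1))
    (lv : ℕ → ℕ) : ∃ x : ℕ → G, ∀ r, PInd U p lv r x := by
  let f : ℕ → ℕ → G := fun r => Nat.rec (fun _ => 0) (fun r x =>
    if h : PInd U p lv r x then Function.update x r
      (PInd.step U p hanti hp htor hinf h).choose else x) r
  have hfs : ∀ r, f (r + 1) = if h : PInd U p lv r (f r) then Function.update (f r) r
      (PInd.step U p hanti hp htor hinf h).choose else f r := fun r => rfl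
  have hf : ∀ r, PInd U p lv r (f r) := by
    intro r
    induction r with
    | zero => exact ⟨fun i hi => absurd hi (Nat.not_lt_zero i), fun _ _ _ _ i hi =>
        absurd hi (Nat.not_lt_zero i)⟩
    | succ r ih =>
      rw [hfs, dif_pos ih]
      exact (PInd.step U p hanti hp htor hinf ih).choose_spec
  have hcoh : ∀ r, ∀ i < r, f r i = f (i + 1) i := by
    intro r
    induction r with
    | zero => intro i hi; omega
    | succ r ih =>
      intro i hi
      rcases Nat.lt_succ_iff_lt_or_eq.1 hi with h1 | h1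
      · rw [hfs, dif_pos (hf r), Function.update_of_ne h1.ne]
        exact ih i h1
      · rw [h1]
  exact ⟨fun i => f (i + 1) i, fun r => (hf r).congr U p (hcoh r)⟩

end

end Pool.Agent.H731R3.Tame
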