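import Mathlib
import Pool.Agent.H731R3.Fam
import Pool.Agent.H731R3.Cod

set_option autoImplicit false

/-!
If all quotients have infinite `p`-torsion then the group is not tame.
-/

open Set Filter
open scoped Topology

namespace Pool.Agent.H731R3.Tame

/-- Sum of the point masses at all ancestors. -/
noncomputable def ancs : List ℕ → (List ℕ →₀ ℤ)
  | [] => Finsupp.single [] 1
  | k :: s => Finsupp.single (k :: s) 1 + ancs s

/-- Extension of masses to all ancestors. -/
noncomputable def EE : (List ℕ →₀ ℤ) →ₗ[ℤ] (List ℕ →₀ ℤ) := Finsupp.linearCombination ℤ ancs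

/-- Total mass. -/
noncomputable def tot : (List ℕ →₀ ℤ) →ₗ[ℤ] ℤ := Finsupp.linearCombination ℤ (fun _ => (1 : ℤ))

theorem ancs_eq_zero {s t : List ℕ} (h : t.length < s.length) : ancs t s = 0 := by
  induction t with
  | nil =>
    have : ([] : List ℕ) ≠ s := by rintro rfl; simp at h
    simp [ancs, Finsupp.single_apply, this]
  | cons k t ih =>
    have h1 : (k :: t) ≠ s := by rintro rfl; simp at h
    have h2 : t.length < s.length := by simp at h; omega
    rw [ancs, Finsupp.add_apply, ih h2, Finsupp.single_apply, if_neg h1, add_zero]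

theorem ancs_eq {s t : List ℕ} (h : t.length = s.length) : ancs t s = Finsupp.single t (1 : ℤ) s := by
  cases t with
  | nil => rfl
  | cons k t =>
    have h2 : t.length < s.length := by simp at h; omega
    rw [ancs, Finsupp.add_apply, ancs_eq_zero h2, add_zero]

theorem EE_apply (c : List ℕ →₀ ℤ) (s : List ℕ) : EE c s = ∑ t ∈ c.support, c t * ancs t s := by
  rw [EE, Finsupp.linearCombination_apply, Finsupp.sum, Finsupp.finsetSum_apply]
  rfl

theorem EE_len {c : List ℕ →₀ ℤ} {n : ℕ} (hc : ∀ s ∈ c.support, s.length = n) {s : List ℕ}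
    (hs : n < s.length) : EE c s = 0 := by
  rw [EE_apply]
  refine Finset.sum_eq_zero fun t ht => ?_
  rw [ancs_eq_zero (by rw [hc t ht]; exact hs), mul_zero]

theorem EE_top {c : List ℕ →₀ ℤ} {n : ℕ} (hc : ∀ s ∈ c.support, s.length = n) {s : List ℕ}
    (hs : s.length = n) : EE c s = c s := by
  classical
  rw [EE_apply]
  have h1 : ∀ t ∈ c.support, c t * ancs t s = if t = s then c t else 0 := by
    intro t ht
    rw [ancs_eq (by rw [hc t ht, hs]), Finsupp.single_apply]
    split_ifs <;> simp
  rw [Finset.sum_congr rfl h1, Finset.sum_ite_eq']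
  split_ifs with h
  · rfl
  · rw [Finsupp.notMem_support_iff] at h
    exact h.symm

theorem EE_tl {c : List ℕ →₀ ℤ} {n : ℕ} (hc : ∀ s ∈ c.support, s.length = n + 1) :
    EE c = c + EE (Finsupp.mapDomain List.tail c) := by
  rw [EE, Finsupp.linearCombination_mapDomain, Finsupp.linearCombination_apply,
    Finsupp.linearCombination_apply]
  have h1 : c.sum (fun t a => a • ancs t) =
      c.sum (fun t a => Finsupp.single t a + a • (ancs ∘ List.tail) t) := by
    refine Finsupp.sum_congr fun t ht => ?_
    cases t with
    | nil => have := hc [] ht; simp at this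
    | cons k t =>
      simp only [ancs, Function.comp, List.tail_cons, smul_add, Finsupp.smul_single, smul_eq_mul,
        mul_one]
  rw [h1, Finsupp.sum_add, Finsupp.sum_single]

theorem case2 {G : Type} [AddCommGroup G] [TopologicalSpace G] [IsTopologicalAddGroup G]
    [PolishSpace G] {U : ℕ → AddSubgroup G} (hU : Bas U) (hG : TameG G) (p : ℕ) (hp : p.Prime)
    (htor : ∀ m, ∀ x ∈ U 0, ∃ k : ℕ, 1 ≤ k ∧ k • x ∈ U m)
    (hinf : ∀ n, ¬ ∃ R : Finset G, ∀ y ∈ U n, p • y ∈ U (n + 1) → ∃ r ∈ R, y - r ∈ U (n + 1)) :
    False := by
  classical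
  let e : ℕ ≃ List ℕ := (Denumerable.eqv (List ℕ)).symm
  obtain ⟨x', hx'⟩ := exists_family U p hU.anti hp htor hinf (fun i => (e i).length)
  let x : List ℕ → G := fun s => x' (e.symm s)
  have hx1 : ∀ s, x s ∈ U s.length := by
    intro s
    have h1 := (hx' (e.symm s + 1)).1 (e.symm s) (Nat.lt_succ_self _)
    simpa only [Equiv.apply_symm_apply] using h1
  let LL : (List ℕ →₀ ℤ) →ₗ[ℤ] G := Finsupp.linearCombination ℤ x
  have hLL : ∀ c : List ℕ →₀ ℤ, LL c = ∑ s ∈ c.support, c s • x s := fun c => by
    simp only [LL, Finsupp.linearCombination_apply, Finsupp.sum]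
  have hInd : ∀ n, ∀ c : List ℕ →₀ ℤ, (∀ s, n < s.length → c s = 0) → LL c ∈ U (n + 1) →
      ∀ s, (p : ℤ) ∣ c s := by
    intro n c hc hsum s
    set r : ℕ := (c.support.image e.symm).sup id + e.symm s + 1 with hr
    have hsub : c.support.image e.symm ⊆ Finset.range r := by
      intro i hi
      rw [Finset.mem_range]
      have h2 : i ≤ (c.support.image e.symm).sup id := Finset.le_sup (f := id) hi
      omega
    have h1 : ∑ i ∈ Finset.range r, c (e i) • x' i = LL c := by
      rw [hLL, ← Finset.sum_subset hsub]
      · rw [Finset.sum_image (fun a _ b _ hab => e.symm.injective hab)]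
        refine Finset.sum_congr rfl fun t _ => ?_
        rw [Equiv.apply_symm_apply]
      · intro i _ hi
        have h3 : c (e i) = 0 := by
          by_contra hne
          apply hi
          rw [Finset.mem_image]
          exact ⟨e i, Finsupp.mem_support_iff.2 hne, e.symm_apply_apply i⟩
        rw [h3, zero_smul]
    have h2 := (hx' r).2 n (fun i => c (e i)) (fun i _ hi => hc _ hi) (by rw [h1]; exact hsum)
      (e.symm s) (by omega)
    simpa only [Equiv.apply_symm_apply] using h2
  -- the coset families
  let T : Tr → ℕ → Set G := fun τ n => {g | ∃ c : List ℕ →₀ ℤ,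
    (∀ s ∈ c.support, s.length = n ∧ τ s = true) ∧ tot c = 1 ∧ g - LL (EE c) ∈ U (n + 1)}
  have hU' : Bas (fun n => U (n + 1)) := by
    refine ⟨fun a b hab => hU.anti (Nat.succ_le_succ hab), fun n => hU.isOpen _, fun O hO => ?_⟩
    obtain ⟨n, hn⟩ := hU.small O hO
    exact ⟨n, fun y hy => hn (hU.anti (Nat.le_succ n) hy)⟩
  have hmeas := coding hU' hG T (by
      rintro τ n t ⟨c, hc, htot, hcU⟩ t' ⟨c', hc', htot', hcU'⟩ t'' ⟨c'', hc'', htot'', hcU''⟩
      refine ⟨c - c' + c'', ?_, ?_, ?_⟩
      · intro s hs
        by_cases h1 : s ∈ c.support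
        · exact hc s h1
        by_cases h2 : s ∈ c'.support
        · exact hc' s h2
        by_cases h3 : s ∈ c''.support
        · exact hc'' s h3
        rw [Finsupp.notMem_support_iff] at h1 h2 h3
        rw [Finsupp.mem_support_iff, Finsupp.add_apply, Finsupp.sub_apply, h1, h2, h3] at hs
        simp at hs
      · rw [map_add, map_sub, htot, htot', htot'']; norm_num
      · rw [map_add, map_sub, map_add, map_sub]
        have : t - t' + t'' - (LL (EE c) - LL (EE c') + LL (EE c'')) =
          (t - LL (EE c)) - (t' - LL (EE c')) + (t'' - LL (EE c'')) := by abel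
        rw [this]
        exact (U _).add_mem ((U _).sub_mem hcU hcU') hcU'')
    (by
      rintro τ n t ⟨c, hc, htot, hcU⟩ t' ht'
      refine ⟨c, hc, htot, ?_⟩
      have : t' - LL (EE c) = (t' - t) + (t - LL (EE c)) := by abel
      rw [this]
      exact (U _).add_mem ht' hcU)
    (by
      intro n g
      have h1 : {τ : Tr | g ∈ T τ n} = ⋃ c : List ℕ →₀ ℤ,
          {τ : Tr | (∀ s ∈ c.support, s.length = n ∧ τ s = true) ∧ tot c = 1 ∧
            g - LL (EE c) ∈ U (n + 1)} := by
        ext τ; simp [T]
      rw [h1]
      refine MeasurableSet.iUnion fun c => ?_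
      have h2 : {τ : Tr | (∀ s ∈ c.support, s.length = n ∧ τ s = true) ∧ tot c = 1 ∧
            g - LL (EE c) ∈ U (n + 1)} =
          (⋂ s ∈ c.support, {τ : Tr | s.length = n ∧ τ s = true}) ∩
            {_τ | tot c = 1 ∧ g - LL (EE c) ∈ U (n + 1)} := by
        ext τ; simp
      rw [h2]
      refine MeasurableSet.inter ?_ (MeasurableSet.const _)
      refine Finset.measurableSet_biInter _ fun s _ => ?_
      have h3 : {τ : Tr | s.length = n ∧ τ s = true} = {_τ | s.length = n} ∩
          (fun τ : Tr => τ s) ⁻¹' {true} := by ext τ; simp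
      rw [h3]
      exact (MeasurableSet.const _).inter (measurable_pi_apply s (measurableSet_singleton _)))
  have hEq : {τ : Tr | ∃ g, ∀ n, g ∈ T τ n} = IF := by
    ext τ
    constructor
    · rintro ⟨g, hg⟩
      choose c hc htot hcU using hg
      -- consecutive levels
      have hstep : ∀ n s, s.length = n →
          (p : ℤ) ∣ (Finsupp.mapDomain List.tail (c (n + 1)) s - c n s) := by
        intro n s hs
        set P := Finsupp.mapDomain List.tail (c (n + 1)) with hP
        have hPsupp : ∀ s ∈ P.support, s.length = n := by
          intro t ht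
          have := Finsupp.mapDomain_support ht
          obtain ⟨u, hu, rfl⟩ := Finset.mem_image.1 this
          have h1 := (hc (n + 1) u hu).1
          rw [List.length_tail, h1]; rfl
        have h1 : LL (EE (c (n + 1))) = LL (c (n + 1)) + LL (EE P) := by
          rw [EE_tl (fun s hs => (hc (n + 1) s hs).1), map_add]
        have h2 : LL (c (n + 1)) ∈ U (n + 1) := by
          rw [hLL]
          refine (U _).sum_mem fun s hs => (U _).zsmul_mem ?_ _
          have := hx1 s
          rwa [(hc (n + 1) s hs).1] at this
        have h3 : LL (EE P - EE (c n)) ∈ U (n + 1) := by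
          rw [map_sub]
          have h4 : LL (EE P) - LL (EE (c n)) =
              (g - LL (EE (c n))) - (g - LL (EE (c (n + 1)))) - LL (c (n + 1)) := by
            rw [h1]; abel
          rw [h4]
          exact (U _).sub_mem ((U _).sub_mem (hcU n) (hU.anti (Nat.le_succ _) (hcU (n + 1)))) h2
        have h4 := hInd n (EE P - EE (c n)) (fun t ht => by
          rw [Finsupp.sub_apply, EE_len hPsupp ht, EE_len (fun s hs => (hc n s hs).1) ht, sub_zero]) h3 s
        rwa [Finsupp.sub_apply, EE_top hPsupp hs, EE_top (fun s hs => (hc n s hs).1) hs] at h4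
      have hnext : ∀ n s, s.length = n → ¬ (p : ℤ) ∣ c n s → ∃ k, ¬ (p : ℤ) ∣ c (n + 1) (k :: s) := by
        intro n s hs hnd
        by_contra hcon
        push Not at hcon
        apply hnd
        have h1 : (p : ℤ) ∣ Finsupp.mapDomain List.tail (c (n + 1)) s := by
          rw [Finsupp.mapDomain, Finsupp.sum, Finsupp.finsetSum_apply]
          refine Finset.dvd_sum fun t ht => ?_
          rw [Finsupp.single_apply]
          split_ifs with h
          · have hlen := (hc (n + 1) t ht).1
            cases t with
            | nil => simp at hlen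
            | cons k t =>
              rw [List.tail_cons] at h
              rw [h]
              exact hcon k
          · exact dvd_zero _
        have h2 := hstep n s hs
        have h3 := dvd_sub h1 h2
        simpa using h3
      have h0 : ¬ (p : ℤ) ∣ c 0 [] := by
        have h1 : tot (c 0) = c 0 [] := by
          rw [tot, Finsupp.linearCombination_apply, Finsupp.sum]
          have h2 : (c 0).support ⊆ {[]} := by
            intro s hs
            have := (hc 0 s hs).1
            rw [List.length_eq_zero_iff] at this
            simp [this]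
          rw [Finset.sum_subset h2]
          · simp
          · intro s _ hs
            rw [Finsupp.notMem_support_iff] at hs
            rw [hs, zero_smul]
        rw [← h1, htot 0]
        intro h2
        have := Int.le_of_dvd one_pos h2
        have := hp.two_le
        omega
      -- the branch
      let St : Type := {q : List ℕ // ¬ (p : ℤ) ∣ c q.length q}
      have hsucc : ∀ q : St, ∃ k, ¬ (p : ℤ) ∣ c (q.1.length + 1) (k :: q.1) := fun q =>
        hnext _ q.1 rfl q.2
      choose κ hκ using hsucc
      let q : ℕ → St := fun n => Nat.rec ⟨[], h0⟩ (fun _ q => ⟨κ q :: q.1, hκ q⟩) n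
      have hq : ∀ n, (q (n + 1)).1 = κ (q n) :: (q n).1 := fun n => rfl
      refine ⟨fun n => κ (q n), fun n => ?_⟩
      have hbr : ∀ n, br (fun n => κ (q n)) n = (q n).1 := by
        intro n
        induction n with
        | zero => rfl
        | succ n ih => rw [br, ih, hq]
      rw [hbr]
      have h1 : (q n).1 ∈ (c (q n).1.length).support := by
        rw [Finsupp.mem_support_iff]
        intro h2
        exact (q n).2 (by rw [h2]; exact dvd_zero _)
      exact (hc _ _ h1).2
    · rintro ⟨β, hβ⟩
      obtain ⟨g, hg⟩ := hU'.complete (fun n => LL (EE (Finsupp.single (br β n) 1))) (by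
        intro n
        have h1 : EE (Finsupp.single (br β (n + 1)) 1) = Finsupp.single (br β (n + 1)) 1 +
            EE (Finsupp.single (br β n) 1) := by
          rw [EE_tl (n := n) (c := Finsupp.single (br β (n + 1)) 1), Finsupp.mapDomain_single]
          · rfl
          · intro s hs
            have := Finsupp.support_single_subset hs
            rw [Finset.mem_singleton] at this
            rw [this, br_length]
        change LL (EE (Finsupp.single (br β (n + 1)) 1)) - LL (EE (Finsupp.single (br β n) 1)) ∈ U (n + 1)
        rw [h1, map_add, add_sub_cancel_right]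
        have h2 : LL (Finsupp.single (br β (n + 1)) 1) = x (br β (n + 1)) := by
          simp [LL]
        rw [h2]
        have := hx1 (br β (n + 1))
        rwa [br_length] at this)
      refine ⟨g, fun n => ⟨Finsupp.single (br β n) 1, ?_, ?_, hg n⟩⟩
      · intro s hs
        have := Finsupp.support_single_subset hs
        rw [Finset.mem_singleton] at this
        rw [this]
        exact ⟨br_length _ _, hβ n⟩
      · simp [tot]
  rw [hEq] at hmeas
  exact not_measurable_IF hmeas

end Pool.Agent.H731R3.Tame
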