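import Mathlib
import Pool.Agent.H731R3.Case1
import Pool.Agent.H731R3.Case2

set_option autoImplicit false

/-!
Structure of tame non-archimedean abelian Polish groups.
-/

open Set Filter
open scoped Topology

namespace Pool.Agent.H731R3.Tame

section

variable {G : Type} [AddCommGroup G] [TopologicalSpace G] [IsTopologicalAddGroup G]
    [PolishSpace G] {U : ℕ → AddSubgroup G}

theorem Bas.sub_seq (hU : Bas U) (n : ℕ → ℕ) (hn : ∀ j, n j < n (j + 1)) : Bas (fun j => U (n j)) := by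
  have hmono : StrictMono n := strictMono_nat_of_lt_succ hn
  refine ⟨fun a b hab => hU.anti (hmono.monotone hab), fun j => hU.isOpen _, fun O hO => ?_⟩
  obtain ⟨k, hk⟩ := hU.small O hO
  exact ⟨k, fun y hy => hk (hU.anti (hmono.le_apply) hy)⟩

theorem str1 (hU : Bas U) (hG : TameG G) :
    ∃ n, ∀ m, ∀ x ∈ U n, ∃ k : ℕ, 1 ≤ k ∧ k • x ∈ U m := by
  by_contra hcon
  push Not at hcon
  choose m x hx hm using hcon
  let n : ℕ → ℕ := fun j => Nat.rec 0 (fun _ n => max (m n) (n + 1)) j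
  have hn : ∀ j, n (j + 1) = max (m (n j)) (n j + 1) := fun j => rfl
  have hlt : ∀ j, n j < n (j + 1) := fun j =>
    lt_of_lt_of_le (Nat.lt_succ_self _) (le_max_right (m (n j)) (n j + 1))
  have hV := hU.sub_seq n hlt
  refine case1 hV hG (fun j => ⟨x (n j), hx (n j), fun k hk hmem => ?_⟩)
  exact hm (n j) k hk (hU.anti (le_max_left (m (n j)) (n j + 1)) hmem)

theorem str2 (hU : Bas U) (hG : TameG G) (p : ℕ) (hp : p.Prime) :
    ∃ n, ∀ m, ∃ R : Finset G, ∀ y ∈ U n, p • y ∈ U m → ∃ r ∈ R, y - r ∈ U m := by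
  obtain ⟨n₀, hn₀⟩ := str1 hU hG
  by_contra hcon
  push Not at hcon
  choose m hm using hcon
  have hmn : ∀ n, n < m n := by
    intro n
    by_contra hle
    rw [not_lt] at hle
    obtain ⟨y, hy, _, hyr⟩ := hm n {0}
    refine hyr 0 (by simp) ?_
    rw [sub_zero]
    exact hU.anti hle hy
  let n : ℕ → ℕ := fun j => Nat.rec n₀ (fun _ n => m n) j
  have hn : ∀ j, n (j + 1) = m (n j) := fun j => rfl
  have hlt : ∀ j, n j < n (j + 1) := fun j => hmn (n j)
  have hV := hU.sub_seq n hlt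
  refine case2 hV hG p hp ?_ ?_
  · intro k x hx
    exact hn₀ _ x hx
  · rintro j ⟨R, hR⟩
    obtain ⟨y, hy, hpy, hyr⟩ := hm (n j) R
    obtain ⟨r, hr, hyr'⟩ := hR y hy hpy
    exact hyr r hr hyr'

end

/-- Maximal subgroups with prescribed trace. -/
theorem exists_max {G : Type*} [AddCommGroup G] (A B : AddSubgroup G) (hBA : B ≤ A) :
    ∃ M : AddSubgroup G, B ≤ M ∧ M ⊓ A ≤ B ∧
      ∀ x, x ∉ M → ∃ m ∈ M, ∃ k : ℤ, m + k • x ∈ A ∧ m + k • x ∉ B := by
  let Z : Set (AddSubgroup G) := {M | B ≤ M ∧ M ⊓ A ≤ B}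
  have hzorn : ∃ M, B ≤ M ∧ Maximal (fun M => M ∈ Z) M := by
    refine zorn_le_nonempty₀ Z ?_ B ⟨le_rfl, inf_le_left⟩
    intro c hc hchain y₀ hy₀
    refine ⟨sSup c, ⟨(hc hy₀).1.trans (le_sSup hy₀), ?_⟩, fun z hz => le_sSup hz⟩
    intro y hy
    rw [AddSubgroup.mem_inf, AddSubgroup.mem_sSup_of_directedOn ⟨y₀, hy₀⟩ hchain.directedOn] at hy
    obtain ⟨⟨W, hW, hyW⟩, hyA⟩ := hy
    exact (hc hW).2 (AddSubgroup.mem_inf.2 ⟨hyW, hyA⟩)
  obtain ⟨M, _, ⟨hBM, hMA⟩, hmax⟩ := hzorn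
  refine ⟨M, hBM, hMA, fun x hx => ?_⟩
  by_contra hcon
  push Not at hcon
  apply hx
  have hmem : M ⊔ AddSubgroup.zmultiples x ∈ Z := by
    refine ⟨hBM.trans le_sup_left, ?_⟩
    intro y hy
    rw [AddSubgroup.mem_inf, AddSubgroup.mem_sup] at hy
    obtain ⟨⟨m, hm, v, hv, rfl⟩, hyA⟩ := hy
    obtain ⟨k, rfl⟩ := AddSubgroup.mem_zmultiples_iff.1 hv
    exact hcon m hm k hyA
  exact hmax hmem le_sup_left (AddSubgroup.mem_sup_right (AddSubgroup.mem_zmultiples x))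

theorem max_tor {G : Type*} [AddCommGroup G] {A B M : AddSubgroup G}
    (htor : ∀ x ∈ A, ∃ k : ℕ, 1 ≤ k ∧ k • x ∈ B) (hBM : B ≤ M) (hMA : M ⊓ A ≤ B)
    (hM : ∀ x, x ∉ M → ∃ m ∈ M, ∃ k : ℤ, m + k • x ∈ A ∧ m + k • x ∉ B) (x : G) :
    ∃ k : ℕ, 1 ≤ k ∧ k • x ∈ M := by
  by_cases hx : x ∈ M
  · exact ⟨1, le_rfl, by rwa [one_smul]⟩
  obtain ⟨m, hm, k, hkA, hkB⟩ := hM x hx
  obtain ⟨r, hr1, hr⟩ := htor _ hkA
  have hk0 : k ≠ 0 := by
    rintro rfl
    rw [zero_smul, add_zero] at hkA hkB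
    exact hkB (hMA (AddSubgroup.mem_inf.2 ⟨hm, hkA⟩))
  have h1 : ((r : ℤ) * k) • x ∈ M := by
    have h2 : ((r : ℤ) * k) • x = r • (m + k • x) - r • m := by
      rw [smul_add, mul_smul, natCast_zsmul]; abel
    rw [h2]
    exact M.sub_mem (hBM hr) (M.nsmul_mem hm _)
  refine ⟨((r : ℤ) * k).natAbs, ?_, ?_⟩
  · have : (r : ℤ) * k ≠ 0 := mul_ne_zero (by exact_mod_cast (by omega : r ≠ 0)) hk0
    exact Int.natAbs_pos.2 this
  · rcases Int.natAbs_eq ((r : ℤ) * k) with h | h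
    · rw [h, natCast_zsmul] at h1
      exact h1
    · rw [h, neg_smul, natCast_zsmul] at h1
      have := M.neg_mem h1
      rwa [neg_neg] at this

theorem max_soc {G : Type*} [AddCommGroup G] {A B M : AddSubgroup G} (p : ℕ) (hp : p.Prime)
    (hfin : ∃ R : Finset G, ∀ y ∈ A, p • y ∈ B → ∃ r ∈ R, y - r ∈ B) (hBM : B ≤ M) (hMA : M ⊓ A ≤ B)
    (hM : ∀ x, x ∉ M → ∃ m ∈ M, ∃ k : ℤ, m + k • x ∈ A ∧ m + k • x ∉ B) :
    ∃ R : Finset G, ∀ x : G, p • x ∈ M → ∃ r ∈ R, x - r ∈ M := by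
  classical
  obtain ⟨R, hR⟩ := hfin
  refine ⟨insert 0 R, fun x hpx => ?_⟩
  by_cases hx : x ∈ M
  · exact ⟨0, Finset.mem_insert_self _ _, by rwa [sub_zero]⟩
  obtain ⟨m, hm, k, hkA, hkB⟩ := hM x hx
  have hpk : ¬ (p : ℤ) ∣ k := by
    rintro ⟨e, rfl⟩
    apply hkB
    refine hMA (AddSubgroup.mem_inf.2 ⟨M.add_mem hm ?_, hkA⟩)
    rw [mul_comm, mul_smul, natCast_zsmul]
    exact M.zsmul_mem hpx _
  have hcop : IsCoprime (p : ℤ) k := by
    rw [Prime.coprime_iff_not_dvd (Nat.prime_iff_prime_int.1 hp)]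
    exact hpk
  obtain ⟨a, b, hab⟩ := hcop
  set w := b • (m + k • x) with hw
  have hwA : w ∈ A := A.zsmul_mem hkA _
  have hxw : x - w ∈ M := by
    have h2 : (b * k) • x = (1 - a * p) • x := by rw [← hab]; congr 1; ring
    have h1 : x - w = a • (p • x) - b • m := by
      rw [hw, smul_add, smul_smul, h2, sub_smul, one_smul, mul_smul, natCast_zsmul]
      abel
    rw [h1]
    exact M.sub_mem (M.zsmul_mem hpx _) (M.zsmul_mem hm _)
  have hpw : p • w ∈ B := by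
    refine hMA (AddSubgroup.mem_inf.2 ⟨?_, A.nsmul_mem hwA _⟩)
    have h1 : p • w = p • x - p • (x - w) := by rw [← smul_sub]; congr 1; abel
    rw [h1]
    exact M.sub_mem hpx (M.nsmul_mem hxw _)
  obtain ⟨r, hr, hwr⟩ := hR w hwA hpw
  refine ⟨r, Finset.mem_insert_of_mem hr, ?_⟩
  have : x - r = (x - w) + (w - r) := by abel
  rw [this]
  exact M.add_mem hxw (hBM hwr)

theorem soc_mul {H : Type*} [AddCommGroup H] (a b : ℕ) (ha : {h : H | a • h = 0}.Finite)
    (hb : {h : H | b • h = 0}.Finite) : {h : H | (a * b) • h = 0}.Finite := by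
  have h1 : {h : H | (a * b) • h = 0} = (fun h : H => b • h) ⁻¹' {h : H | a • h = 0} := by
    ext h
    simp only [mem_ofPred_eq, mem_preimage]
    rw [mul_smul]
  rw [h1]
  refine ha.preimage' fun c _ => ?_
  by_cases hne : ∃ h₀ : H, b • h₀ = c
  · obtain ⟨h₀, hh₀⟩ := hne
    refine (hb.image (fun h => h + h₀)).subset ?_
    intro h hh
    rw [mem_preimage, mem_singleton_iff] at hh
    refine ⟨h - h₀, ?_, by simp⟩
    rw [mem_ofPred_eq, smul_sub, hh, hh₀, sub_self]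
  · have : (fun h : H => b • h) ⁻¹' {c} = ∅ := by
      ext h
      simp only [mem_preimage, mem_singleton_iff, mem_empty_iff_false, iff_false]
      exact fun hh => hne ⟨h, hh⟩
    rw [this]
    exact finite_empty

theorem soc_all {H : ℕ → Type*} [∀ n, AddCommGroup (H n)]
    (hp : ∀ p : ℕ, p.Prime → ∃ i, ∀ n, i ≤ n → {h : H n | p • h = 0}.Finite) (N : ℕ) (hN : 1 ≤ N) :
    ∃ i, ∀ n, i ≤ n → {h : H n | N • h = 0}.Finite := by
  induction N using Nat.strong_induction_on with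
  | _ N ih =>
    by_cases h1 : N = 1
    · subst h1
      refine ⟨0, fun n _ => ?_⟩
      have : {h : H n | 1 • h = 0} = {0} := by ext h; simp
      rw [this]
      exact finite_singleton 0
    · have hpr : N.minFac.Prime := Nat.minFac_prime h1
      obtain ⟨q, hq⟩ := Nat.minFac_dvd N
      have hq1 : 1 ≤ q := by
        rcases Nat.eq_zero_or_pos q with h | h
        · rw [h] at hq; omega
        · exact h
      have hqN : q < N := by
        have := hpr.two_le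
        calc q < N.minFac * q := by nlinarith
          _ = N := hq.symm
      obtain ⟨i, hi⟩ := ih q hqN hq1
      obtain ⟨j, hj⟩ := hp _ hpr
      refine ⟨max i j, fun n hn => ?_⟩
      have := soc_mul N.minFac q (hj n (le_trans (le_max_right _ _) hn))
        (hi n (le_trans (le_max_left _ _) hn))
      rwa [← hq] at this

end Pool.Agent.H731R3.Tame
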