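import Mathlib
import Pool.Agent.H731R3.Alg
import Pool.Agent.H731R3.Top

set_option autoImplicit false

/-!
Pruning of coset trees.
-/

open Set Filter
open scoped Topology

namespace Pool.Agent.H731R3.Tame

section

variable {K : Type*} [AddCommGroup K] {V : ℕ → AddSubgroup K}

theorem stepQ (hanti : Antitone V) (htor : ∀ m, ∀ x ∈ V 0, ∃ k : ℕ, 1 ≤ k ∧ k • x ∈ V m)
    (S : ℕ → AddSubgroup K) (hS : Antitone S) (N n : ℕ)
    (hfin : ∃ R : Finset K, ∀ y ∈ V n, N • y ∈ V (n + 1) → ∃ r ∈ R, y - r ∈ V (n + 1))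
    (b : K) (hb0 : b ∈ V 0) (k : ℕ) (hk : N ^ k • b ∈ V n)
    (hex : ∀ l, ∃ v ∈ V n, b + v ∈ S l) :
    ∃ b', b' - b ∈ V n ∧ b' ∈ V 0 ∧ (∃ k', N ^ k' • b' ∈ V (n + 1)) ∧
      ∀ l, ∃ v ∈ V (n + 1), b' + v ∈ S l := by
  classical
  let π : K →+ K ⧸ V (n + 1) := QuotientAddGroup.mk' (V (n + 1))
  have hπ : ∀ a b : K, π a = π b ↔ a - b ∈ V (n + 1) := by
    intro a b
    have : π a = π b ↔ -a + b ∈ V (n + 1) := QuotientAddGroup.eq
    rw [this, ← (V (n + 1)).neg_mem_iff]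
    have h2 : -(-a + b) = a - b := by abel
    rw [h2]
  have hπ0 : ∀ a : K, π a = 0 ↔ a ∈ V (n + 1) := fun a => QuotientAddGroup.eq_zero_iff a
  obtain ⟨R, hR⟩ := hfin
  have h1 : {x : K ⧸ V (n + 1) | x ∈ (V n).map π ∧ N • x = 0}.Finite := by
    refine ((Finset.finite_toSet R).image π).subset ?_
    rintro x ⟨⟨y, hy, rfl⟩, hx⟩
    rw [← map_nsmul, hπ0] at hx
    obtain ⟨r, hr, hyr⟩ := hR y hy hx
    exact ⟨r, hr, ((hπ y r).2 hyr).symm⟩
  have h2 : ∀ v ∈ (V n).map π, ∃ k : ℕ, 1 ≤ k ∧ k • v = 0 := by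
    rintro v ⟨y, hy, rfl⟩
    obtain ⟨k, hk1, hk2⟩ := htor (n + 1) y (hanti (Nat.zero_le _) hy)
    exact ⟨k, hk1, by rw [← map_nsmul, hπ0]; exact hk2⟩
  have h3 : ∃ k : ℕ, 1 ≤ k ∧ k • π b = 0 := by
    obtain ⟨k, hk1, hk2⟩ := htor (n + 1) b hb0
    exact ⟨k, hk1, by rw [← map_nsmul, hπ0]; exact hk2⟩
  obtain ⟨v', ⟨v, hv, rfl⟩, hvS, k', hk'⟩ := lemQ ((V n).map π) (fun l => (S l).map π)
    (fun l l' hll => AddSubgroup.map_mono (hS hll)) N h1 h2 (π b) h3 k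
    (by rw [← map_nsmul]; exact ⟨_, hk, rfl⟩)
    (by
      intro l
      obtain ⟨v, hv, hbv⟩ := hex l
      exact ⟨π v, ⟨v, hv, rfl⟩, by rw [← map_add]; exact ⟨_, hbv, rfl⟩⟩)
  refine ⟨b + v, by rwa [add_sub_cancel_left], (V 0).add_mem hb0 (hanti (Nat.zero_le _) hv), ⟨k', ?_⟩, ?_⟩
  · rw [← map_add, ← map_nsmul, hπ0] at hk'
    exact hk'
  · intro l
    have h4 := hvS l
    rw [← map_add] at h4
    obtain ⟨s, hs, hsb⟩ := h4
    refine ⟨s - (b + v), (hπ _ _).1 hsb, ?_⟩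
    rw [add_sub_cancel]
    exact hs

end

section

variable {K : Type*} [AddCommGroup K] [TopologicalSpace K] [IsTopologicalAddGroup K] [PolishSpace K]
  {V : ℕ → AddSubgroup K}

theorem lemP (hV : Bas V) (htor : ∀ m, ∀ x ∈ V 0, ∃ k : ℕ, 1 ≤ k ∧ k • x ∈ V m)
    (hfin : ∀ N : ℕ, 1 ≤ N → ∃ i, ∀ n, i ≤ n → ∃ R : Finset K, ∀ y ∈ V n, N • y ∈ V (n + 1) →
      ∃ r ∈ R, y - r ∈ V (n + 1))
    (S : ℕ → AddSubgroup K) (hS : Antitone S) (hVS : ∀ n, V n ≤ S n) (m : ℕ) (x : K) (hx0 : x ∈ V 0)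
    (hx2 : ∀ n, ∃ b, b - x ∈ V m ∧ ∀ l, ∃ c, c - b ∈ V n ∧ c ∈ S l) :
    ∃ y, y - x ∈ V m ∧ ∀ l, y ∈ S l := by
  classical
  obtain ⟨N, hN1, hNx⟩ := htor m x hx0
  obtain ⟨i, hi⟩ := hfin N hN1
  set n₀ := max i m with hn₀
  obtain ⟨b, hbx, hbS⟩ := hx2 n₀
  have hb0 : b ∈ V 0 := by
    have : b = (b - x) + x := by abel
    rw [this]
    exact (V 0).add_mem (hV.anti (Nat.zero_le _) hbx) hx0
  obtain ⟨L, hL1, hLb⟩ := htor n₀ b hb0
  obtain ⟨t, k₁, hdvd⟩ := crt N 1 L hL1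
  rw [pow_one] at hdvd
  have hNb : N • b ∈ V m := by
    have : N • b = N • x + N • (b - x) := by rw [smul_sub]; abel
    rw [this]
    exact (V m).add_mem hNx ((V m).nsmul_mem hbx _)
  set b₀ := (1 + N * t) • b with hb₀
  have hb₀x : b₀ - x ∈ V m := by
    have : b₀ - x = (b - x) + t • (N • b) := by
      rw [hb₀, add_smul, one_smul, mul_comm, mul_smul]; abel
    rw [this]
    exact (V m).add_mem hbx ((V m).nsmul_mem hNb _)
  have hb₀k : N ^ k₁ • b₀ ∈ V n₀ := by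
    obtain ⟨r, hr⟩ := hdvd
    rw [hb₀, smul_smul, hr, mul_comm, mul_smul]
    exact (V n₀).nsmul_mem hLb _
  have hb₀S : ∀ l, ∃ v ∈ V n₀, b₀ + v ∈ S l := by
    intro l
    obtain ⟨c, hcb, hcS⟩ := hbS l
    refine ⟨(1 + N * t) • (c - b), (V n₀).nsmul_mem hcb _, ?_⟩
    rw [hb₀, ← smul_add]
    have : b + (c - b) = c := by abel
    rw [this]
    exact (S l).nsmul_mem hcS _
  have hb₀0 : b₀ ∈ V 0 := (V 0).nsmul_mem hb0 _
  -- iterate
  let St : ℕ → K → Prop := fun j b => b ∈ V 0 ∧ (∃ k, N ^ k • b ∈ V (n₀ + j)) ∧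
    ∀ l, ∃ v ∈ V (n₀ + j), b + v ∈ S l
  have hstep : ∀ j b, St j b → ∃ b', b' - b ∈ V (n₀ + j) ∧ St (j + 1) b' := by
    rintro j b ⟨h0, ⟨k, hk⟩, hex⟩
    obtain ⟨b', h1, h2, h3, h4⟩ := stepQ hV.anti htor S hS N (n₀ + j)
      (hi (n₀ + j) (le_trans (le_max_left _ _) (Nat.le_add_right _ _))) b h0 k hk hex
    exact ⟨b', h1, h2, h3, h4⟩
  choose! f hf1 hf2 using hstep
  let bs : ℕ → K := fun j => Nat.rec b₀ (fun j b => f j b) j
  have hbs : ∀ j, bs (j + 1) = f j (bs j) := fun j => rfl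
  have hSt : ∀ j, St j (bs j) := by
    intro j
    induction j with
    | zero => exact ⟨hb₀0, ⟨k₁, hb₀k⟩, hb₀S⟩
    | succ j ih => rw [hbs]; exact hf2 j _ ih
  have hV' : Bas (fun j => V (n₀ + j)) := by
    refine ⟨fun a b hab => hV.anti (Nat.add_le_add_left hab _), fun n => hV.isOpen _, fun O hO => ?_⟩
    obtain ⟨n, hn⟩ := hV.small O hO
    exact ⟨n, fun y hy => hn (hV.anti (Nat.le_add_left _ _) hy)⟩
  obtain ⟨y, hy⟩ := hV'.complete bs (fun j => by rw [hbs]; exact hf1 j _ (hSt j))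
  refine ⟨y, ?_, fun l => ?_⟩
  · have h1 : y - x = (y - b₀) + (b₀ - x) := by abel
    rw [h1]
    exact (V m).add_mem (hV.anti (le_max_right _ _) (hy 0)) hb₀x
  · obtain ⟨v, hv, hvS⟩ := (hSt l).2.2 l
    have h1 : y = (bs l + v) + ((y - bs l) - v) := by abel
    rw [h1]
    refine (S l).add_mem hvS (hVS l ?_)
    exact hV.anti (Nat.le_add_left _ _) ((V (n₀ + l)).sub_mem (hy l) hv)

/-- Existence of branches of coset trees. -/
theorem branch (hV : Bas V) (htor : ∀ m, ∀ x ∈ V 0, ∃ k : ℕ, 1 ≤ k ∧ k • x ∈ V m)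
    (hfin : ∀ N : ℕ, 1 ≤ N → ∃ i, ∀ n, i ≤ n → ∃ R : Finset K, ∀ y ∈ V n, N • y ∈ V (n + 1) →
      ∃ r ∈ R, y - r ∈ V (n + 1))
    (T : ℕ → Set K) (hT : Antitone T)
    (haff : ∀ n, ∀ t ∈ T n, ∀ t' ∈ T n, ∀ t'' ∈ T n, t - t' + t'' ∈ T n)
    (hinv : ∀ n, ∀ t ∈ T n, ∀ t', t' - t ∈ V n → t' ∈ T n)
    (a₀ : K) (hH : ∀ m, ∃ a, ∀ n, ∃ b, b - a ∈ V m ∧ ∀ l, ∃ c, c - b ∈ V n ∧ c ∈ T l ∧ c - a₀ ∈ V 0) :
    ∃ g, ∀ n, g ∈ T n := by
  classical
  let M1 : K → ℕ → Prop := fun b n => ∀ l, ∃ c, c - b ∈ V n ∧ c ∈ T l ∧ c - a₀ ∈ V 0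
  let M2 : K → ℕ → Prop := fun a m => ∀ n, ∃ b, b - a ∈ V m ∧ M1 b n
  have hne : ∀ l, (T l).Nonempty := by
    intro l
    obtain ⟨a, ha⟩ := hH 0
    obtain ⟨b, _, hb⟩ := ha 0
    obtain ⟨c, _, hc, _⟩ := hb l
    exact ⟨c, hc⟩
  let S : ℕ → AddSubgroup K := fun l =>
    { carrier := {s | ∀ t ∈ T l, s + t ∈ T l}
      zero_mem' := fun t ht => by rw [zero_add]; exact ht
      add_mem' := by
        intro s s' hs hs' t ht
        rw [add_assoc]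
        exact hs _ (hs' _ ht)
      neg_mem' := by
        intro s hs t ht
        have h1 := haff l t ht (s + t) (hs t ht) t ht
        have h2 : t - (s + t) + t = -s + t := by abel
        rwa [h2] at h1 }
  have hSmem : ∀ l s, s ∈ S l ↔ ∀ t ∈ T l, s + t ∈ T l := fun l s => Iff.rfl
  have hSanti : Antitone S := by
    intro l l' hll s hs
    rw [hSmem] at hs ⊢
    intro t ht
    obtain ⟨t₀, ht₀⟩ := hne l'
    have h1 := haff l (s + t₀) (hT hll (hs t₀ ht₀)) t₀ (hT hll ht₀) t ht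
    have h2 : s + t₀ - t₀ + t = s + t := by abel
    rwa [h2] at h1
  have hVS : ∀ n, V n ≤ S n := by
    intro n v hv
    rw [hSmem]
    intro t ht
    exact hinv n t ht _ (by rwa [add_sub_cancel_right])
  have hM20 : ∀ a m, M2 a m → a - a₀ ∈ V 0 := by
    intro a m ha
    obtain ⟨b, hba, hb⟩ := ha 0
    obtain ⟨c, hcb, _, hc⟩ := hb 0
    have : a - a₀ = (c - a₀) - (c - b) - (b - a) := by abel
    rw [this]
    exact (V 0).sub_mem ((V 0).sub_mem hc hcb) (hV.anti (Nat.zero_le _) hba)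
  have hH2 : ∀ m, ∃ a, M2 a m := hH
  have hnext : ∀ m a, M2 a m → ∃ a', a' - a ∈ V m ∧ M2 a' (m + 1) := by
    intro m a ha
    obtain ⟨t₀, ht₀⟩ := hH2 (m + 1)
    set x := a - t₀ with hx
    have hx0 : x ∈ V 0 := by
      have : x = (a - a₀) - (t₀ - a₀) := by rw [hx]; abel
      rw [this]
      exact (V 0).sub_mem (hM20 a m ha) (hM20 t₀ _ ht₀)
    obtain ⟨y, hyx, hyS⟩ := lemP hV htor hfin S hSanti hVS m x hx0 (by
      intro n
      obtain ⟨ba, hba, hba1⟩ := ha n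
      obtain ⟨b0, hb0, hb01⟩ := ht₀ n
      refine ⟨ba - b0, ?_, fun l => ?_⟩
      · have : ba - b0 - x = (ba - a) - (b0 - t₀) := by rw [hx]; abel
        rw [this]
        exact (V m).sub_mem hba (hV.anti (Nat.le_succ m) hb0)
      · obtain ⟨ca, hca, hcaT, _⟩ := hba1 l
        obtain ⟨c0, hc0, hc0T, _⟩ := hb01 l
        refine ⟨ca - c0, ?_, ?_⟩
        · have : ca - c0 - (ba - b0) = (ca - ba) - (c0 - b0) := by abel
          rw [this]
          exact (V n).sub_mem hca hc0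
        · rw [hSmem]
          intro t ht
          exact haff l ca hcaT c0 hc0T t ht)
    have hy0 : y ∈ V 0 := by
      have : y = (y - x) + x := by abel
      rw [this]
      exact (V 0).add_mem (hV.anti (Nat.zero_le _) hyx) hx0
    refine ⟨t₀ + y, ?_, ?_⟩
    · have : t₀ + y - a = y - x := by rw [hx]; abel
      rw [this]; exact hyx
    · intro n
      obtain ⟨b, hb, hb1⟩ := ht₀ n
      refine ⟨b + y, by rwa [add_sub_add_right_eq_sub], fun l => ?_⟩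
      obtain ⟨c, hc, hcT, hc0⟩ := hb1 l
      refine ⟨c + y, by rwa [add_sub_add_right_eq_sub], ?_, ?_⟩
      · rw [add_comm]
        exact (hSmem l y).1 (hyS l) c hcT
      · have : c + y - a₀ = (c - a₀) + y := by abel
        rw [this]
        exact (V 0).add_mem hc0 hy0
  choose! f hf1 hf2 using hnext
  obtain ⟨s₀, hs₀⟩ := hH2 0
  let as : ℕ → K := fun m => Nat.rec s₀ (fun m a => f m a) m
  have has : ∀ m, as (m + 1) = f m (as m) := fun m => rfl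
  have hM : ∀ m, M2 (as m) m := by
    intro m
    induction m with
    | zero => exact hs₀
    | succ m ih => rw [has]; exact hf2 m _ ih
  obtain ⟨g, hg⟩ := hV.complete as (fun m => by rw [has]; exact hf1 m _ (hM m))
  refine ⟨g, fun n => ?_⟩
  obtain ⟨b, hb, hb1⟩ := hM n n
  obtain ⟨c, hc, hcT, _⟩ := hb1 n
  refine hinv n c hcT g ?_
  have : g - c = (g - as n) - (b - as n) - (c - b) := by abel
  rw [this]
  exact (V n).sub_mem ((V n).sub_mem (hg n) hb) hc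

end

end Pool.Agent.H731R3.Tame
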