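import Mathlib
import Pool.Agent.H731R3.Prune
import Pool.Agent.H731R3.Cod

set_option autoImplicit false

/-!
Sufficient condition for tameness.
-/

open Set Filter MeasureTheory
open scoped Topology

namespace Pool.Agent.H731R3.Tame

section

variable {K : Type} [AddCommGroup K] [TopologicalSpace K] [IsTopologicalAddGroup K]
  {V : ℕ → AddSubgroup K} {X : Type} [TopologicalSpace X] [AddAction K X] [ContinuousVAdd K X]

/-- Closure of the orbit under an open subgroup. -/
def orb (V : ℕ → AddSubgroup K) (n : ℕ) (x : X) : Set X := closure ((fun v : K => v +ᵥ x) '' (V n : Set K))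

theorem orb_of_mem (n : ℕ) {v : K} (hv : v ∈ V n) (x : X) : orb V n (v +ᵥ x) = orb V n x := by
  unfold orb
  congr 1
  ext z
  constructor
  · rintro ⟨w, hw, rfl⟩
    exact ⟨w + v, (V n).add_mem hw hv, by simp only [add_vadd]⟩
  · rintro ⟨w, hw, rfl⟩
    refine ⟨w - v, (V n).sub_mem hw hv, ?_⟩
    simp only
    rw [vadd_vadd, sub_add_cancel]

theorem orb_vadd (n : ℕ) (g : K) (x : X) : orb V n (g +ᵥ x) = (fun z => g +ᵥ z) '' orb V n x := by
  unfold orb
  have h := (Homeomorph.vadd g : X ≃ₜ X).image_closure ((fun v : K => v +ᵥ x) '' (V n : Set K))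
  have h' : (fun z : X => g +ᵥ z) '' closure ((fun v : K => v +ᵥ x) '' (V n : Set K)) =
      closure ((fun z : X => g +ᵥ z) '' ((fun v : K => v +ᵥ x) '' (V n : Set K))) := h
  rw [h']
  congr 1
  ext z
  simp only [mem_image]
  constructor
  · rintro ⟨w, hw, rfl⟩
    exact ⟨w +ᵥ x, ⟨w, hw, rfl⟩, by rw [vadd_vadd, vadd_vadd, add_comm]⟩
  · rintro ⟨_, ⟨w, hw, rfl⟩, rfl⟩
    exact ⟨w, hw, by rw [vadd_vadd, vadd_vadd, add_comm]⟩

theorem orb_sub (n : ℕ) {m : ℕ} (hV : Antitone V) (hmn : m ≤ n) {x y : X} (h : orb V n x ⊆ orb V n y) :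
    orb V m x ⊆ orb V m y := by
  unfold orb at *
  refine closure_minimal ?_ isClosed_closure
  rintro _ ⟨v, hv, rfl⟩
  have hx : x ∈ closure ((fun v : K => v +ᵥ x) '' (V n : Set K)) :=
    subset_closure ⟨0, (V n).zero_mem, zero_vadd _ _⟩
  have hxy := h hx
  have h2 : (v +ᵥ x) ∈ (fun z : X => v +ᵥ z) '' closure ((fun v : K => v +ᵥ y) '' (V n : Set K)) :=
    ⟨x, hxy, rfl⟩
  have h3 := (Homeomorph.vadd v : X ≃ₜ X).image_closure ((fun v : K => v +ᵥ y) '' (V n : Set K))
  have h3' : (fun z : X => v +ᵥ z) '' closure ((fun v : K => v +ᵥ y) '' (V n : Set K)) =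
      closure ((fun z : X => v +ᵥ z) '' ((fun v : K => v +ᵥ y) '' (V n : Set K))) := h3
  rw [h3'] at h2
  refine closure_mono ?_ h2
  rintro _ ⟨_, ⟨w, hw, rfl⟩, rfl⟩
  refine ⟨v + w, (V m).add_mem hv (hV hmn hw), ?_⟩
  simp only [add_vadd]

theorem orb_anti (n : ℕ) {m : ℕ} (hV : Antitone V) (hmn : m ≤ n) {x y : X} (h : orb V n x = orb V n y) :
    orb V m x = orb V m y :=
  Subset.antisymm (orb_sub n hV hmn h.subset) (orb_sub n hV hmn h.symm.subset)

theorem eq_of_orb [T2Space X] (hV : Bas V) {x y : X} (h : ∀ n, orb V n x = orb V n y) : x = y := by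
  by_contra hne
  obtain ⟨O₁, O₂, hO₁, hO₂, hx, hy, hdisj⟩ := t2_separation hne
  have hcont : Continuous fun v : K => v +ᵥ x := continuous_id.vadd continuous_const
  have h1 : (fun v : K => v +ᵥ x) ⁻¹' O₁ ∈ 𝓝 (0 : K) := by
    refine (hO₁.preimage hcont).mem_nhds ?_
    rw [mem_preimage, zero_vadd]; exact hx
  obtain ⟨n, hn⟩ := hV.small _ h1
  have hyn : y ∈ orb V n y := subset_closure ⟨0, (V n).zero_mem, zero_vadd _ _⟩
  rw [← h n] at hyn
  unfold orb at hyn
  rw [mem_closure_iff] at hyn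
  obtain ⟨z, hz, ⟨v, hv, rfl⟩⟩ := hyn O₂ hO₂ hy
  exact (disjoint_left.1 hdisj (hn hv)) hz

theorem measurable_orb [PolishSpace X] [MeasurableSpace X] [BorelSpace X] (V : ℕ → AddSubgroup K)
    (n : ℕ) (g : K) :
    MeasurableSet {p : X × X | orb V n (g +ᵥ p.1) = orb V n p.2} := by
  classical
  set B := TopologicalSpace.countableBasis X with hB
  have hcount : B.Countable := TopologicalSpace.countable_countableBasis X
  have hbasis := TopologicalSpace.isBasis_countableBasis X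
  have key : ∀ a b : X, orb V n a = orb V n b ↔ ∀ O ∈ B, ((∃ v ∈ V n, v +ᵥ a ∈ O) ↔ (∃ v ∈ V n, v +ᵥ b ∈ O)) := by
    intro a b
    have hmem : ∀ (O : Set X), IsOpen O → ∀ a : X, ((O ∩ orb V n a).Nonempty ↔ ∃ v ∈ V n, v +ᵥ a ∈ O) := by
      intro O hO a
      unfold orb
      rw [inter_comm, closure_inter_open_nonempty_iff hO]
      constructor
      · rintro ⟨_, ⟨v, hv, rfl⟩, hz⟩
        exact ⟨v, hv, hz⟩
      · rintro ⟨v, hv, hz⟩
        exact ⟨_, ⟨v, hv, rfl⟩, hz⟩
    constructor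
    · intro h O hO
      rw [← hmem O (hbasis.isOpen hO) a, ← hmem O (hbasis.isOpen hO) b, h]
    · intro h
      have hsub : ∀ a b : X, (∀ O ∈ B, ((∃ v ∈ V n, v +ᵥ a ∈ O) → (∃ v ∈ V n, v +ᵥ b ∈ O))) →
          orb V n a ⊆ orb V n b := by
        intro a b hab z hz
        have hcl : IsClosed (orb V n b) := isClosed_closure
        rw [← hcl.closure_eq, hbasis.mem_closure_iff]
        intro O hO hzO
        rw [hmem O (hbasis.isOpen hO) b]
        refine hab O hO ?_
        rw [← hmem O (hbasis.isOpen hO) a]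
        exact ⟨z, hzO, hz⟩
      exact Subset.antisymm (hsub a b fun O hO => (h O hO).1) (hsub b a fun O hO => (h O hO).2)
  have hopen : ∀ (O : Set X), IsOpen O → IsOpen {a : X | ∃ v ∈ V n, v +ᵥ a ∈ O} := by
    intro O hO
    have : {a : X | ∃ v ∈ V n, v +ᵥ a ∈ O} = ⋃ v ∈ V n, (fun a : X => v +ᵥ a) ⁻¹' O := by
      ext a; simp
    rw [this]
    exact isOpen_biUnion fun v _ => hO.preimage (continuous_const_vadd v)
  have h1 : {p : X × X | orb V n (g +ᵥ p.1) = orb V n p.2} = ⋂ O ∈ B,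
      (({p : X × X | ∃ v ∈ V n, v +ᵥ (g +ᵥ p.1) ∈ O} ∩ {p : X × X | ∃ v ∈ V n, v +ᵥ p.2 ∈ O}) ∪
      ({p : X × X | ∃ v ∈ V n, v +ᵥ (g +ᵥ p.1) ∈ O}ᶜ ∩ {p : X × X | ∃ v ∈ V n, v +ᵥ p.2 ∈ O}ᶜ)) := by
    ext p
    simp only [mem_ofPred_eq, mem_iInter, mem_union, mem_inter_iff, mem_compl_iff]
    rw [key]
    refine forall_congr' fun O => forall_congr' fun _ => ?_
    exact iff_iff_and_or_not_and_not
  rw [h1]
  refine MeasurableSet.biInter hcount fun O hO => ?_
  have hO' := hopen O (hbasis.isOpen hO)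
  have m1 : MeasurableSet {p : X × X | ∃ v ∈ V n, v +ᵥ (g +ᵥ p.1) ∈ O} := by
    have hc : Continuous fun p : X × X => g +ᵥ p.1 := (continuous_const_vadd g).comp continuous_fst
    exact (hO'.preimage hc).measurableSet
  have m2 : MeasurableSet {p : X × X | ∃ v ∈ V n, v +ᵥ p.2 ∈ O} :=
    (hO'.preimage continuous_snd).measurableSet
  exact (m1.inter m2).union (m1.compl.inter m2.compl)

end

theorem tame_of {K : Type} [AddCommGroup K] [TopologicalSpace K] [IsTopologicalAddGroup K]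
    [PolishSpace K] {V : ℕ → AddSubgroup K} (hV : Bas V)
    (htor : ∀ m, ∀ x ∈ V 0, ∃ k : ℕ, 1 ≤ k ∧ k • x ∈ V m)
    (hfin : ∀ N : ℕ, 1 ≤ N → ∃ i, ∀ n, i ≤ n → ∃ R : Finset K, ∀ y ∈ V n, N • y ∈ V (n + 1) →
      ∃ r ∈ R, y - r ∈ V (n + 1)) : TameG K := by
  intro X _ _ _ _
  let _ : MeasurableSpace X := borel X
  have _ : BorelSpace X := ⟨rfl⟩
  have hgoal : MeasurableSet {p : X × X | ∃ g : K, g +ᵥ p.1 = p.2} := by
    let d : ℕ → K := TopologicalSpace.denseSeq K
    have hd : DenseRange d := TopologicalSpace.denseRange_denseSeq K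
    have hdn : ∀ (g : K) (n : ℕ), ∃ i, d i - g ∈ V n := by
      intro g n
      have hopen : IsOpen {x : K | x - g ∈ V n} :=
        (hV.isOpen n).preimage (continuous_id.sub continuous_const)
      obtain ⟨i, hi⟩ := hd.exists_mem_open hopen ⟨g, by simp⟩
      exact ⟨i, hi⟩
    let T : X × X → ℕ → Set K := fun p n => {g | orb V n (g +ᵥ p.1) = orb V n p.2}
    have hset : {p : X × X | ∃ g : K, g +ᵥ p.1 = p.2} = ⋃ i₀ : ℕ, ⋂ m : ℕ, ⋃ i₁ : ℕ, ⋂ n : ℕ, ⋃ i₂ : ℕ,
        ({_p | d i₂ - d i₁ ∈ V m} ∩ ⋂ l : ℕ, ⋃ i₃ : ℕ, ({_p | d i₃ - d i₂ ∈ V n ∧ d i₃ - d i₀ ∈ V 0} ∩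
          {p | d i₃ ∈ T p l})) := by
      ext p
      simp only [mem_ofPred_eq, mem_iUnion, mem_iInter, mem_inter_iff]
      constructor
      · rintro ⟨g, hg⟩
        have hgT : ∀ n, g ∈ T p n := fun n => by
          change orb V n (g +ᵥ p.1) = orb V n p.2
          rw [hg]
        choose j hj using hdn g
        have hdT : ∀ n i, d i - g ∈ V n → d i ∈ T p n := by
          intro n i hi
          change orb V n (d i +ᵥ p.1) = orb V n p.2
          have h1 : d i +ᵥ p.1 = (d i - g) +ᵥ (g +ᵥ p.1) := by rw [vadd_vadd, sub_add_cancel]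
          rw [h1, orb_of_mem n hi]
          exact hgT n
        have hsub : ∀ m n k, k ≤ m → k ≤ n → d (j m) - d (j n) ∈ V k := by
          intro m n k hkm hkn
          have : d (j m) - d (j n) = (d (j m) - g) - (d (j n) - g) := by abel
          rw [this]
          exact (V k).sub_mem (hV.anti hkm (hj m)) (hV.anti hkn (hj n))
        refine ⟨j 0, fun m => ⟨j m, fun n => ⟨j (max m n), hsub _ _ m (le_max_left _ _) le_rfl,
          fun l => ⟨j (max n l), ⟨hsub _ _ n (le_max_left _ _) (le_max_right _ _),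
            hsub _ _ 0 (Nat.zero_le _) (Nat.zero_le _)⟩, ?_⟩⟩⟩⟩
        exact hdT l _ (hV.anti (le_max_right _ _) (hj (max n l)))
      · rintro ⟨i₀, h⟩
        obtain ⟨g, hg⟩ := branch hV htor hfin (T p)
          (by
            intro m n hmn g hg
            exact orb_anti n hV.anti hmn hg)
          (by
            intro n t ht t' ht' t'' ht''
            change orb V n ((t - t' + t'') +ᵥ p.1) = orb V n p.2
            have e1 : orb V n (t'' +ᵥ p.1) = orb V n (t' +ᵥ p.1) := Eq.trans ht'' (Eq.symm ht')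
            rw [add_vadd, orb_vadd, e1, ← orb_vadd, vadd_vadd, sub_add_cancel]
            exact ht)
          (by
            intro n t ht t' ht'
            change orb V n (t' +ᵥ p.1) = orb V n p.2
            have h1 : t' +ᵥ p.1 = (t' - t) +ᵥ (t +ᵥ p.1) := by rw [vadd_vadd, sub_add_cancel]
            rw [h1, orb_of_mem n ht']
            exact ht)
          (d i₀) (by
            intro m
            obtain ⟨i₁, h1⟩ := h m
            refine ⟨d i₁, fun n => ?_⟩
            obtain ⟨i₂, h2, h3⟩ := h1 n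
            refine ⟨d i₂, h2, fun l => ?_⟩
            obtain ⟨i₃, ⟨h4, h5⟩, h6⟩ := h3 l
            exact ⟨d i₃, h4, h6, h5⟩)
        exact ⟨g, eq_of_orb hV fun n => hg n⟩
    rw [hset]
    refine MeasurableSet.iUnion fun i₀ => MeasurableSet.iInter fun m => MeasurableSet.iUnion fun i₁ =>
      MeasurableSet.iInter fun n => MeasurableSet.iUnion fun i₂ => ?_
    refine (MeasurableSet.const _).inter (MeasurableSet.iInter fun l => MeasurableSet.iUnion fun i₃ => ?_)
    exact (MeasurableSet.const _).inter (measurable_orb V l (d i₃))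
  have h1 : (Prod.instMeasurableSpace : MeasurableSpace (X × X)) = borel (X × X) :=
    BorelSpace.measurable_eq
  rw [h1] at hgoal
  exact hgoal

end Pool.Agent.H731R3.Tame
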