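import Mathlib
import Pool.Agent.H731R3.Str
import Pool.Agent.H731R3.Tam

set_option autoImplicit false

/-!
Embedding of tame groups into tame products.
-/

open Set Filter
open scoped Topology

namespace Pool.Agent.H731R3.Tame

section

variable (H : ℕ → Type) [∀ n, AddCommGroup (H n)] [∀ n, TopologicalSpace (H n)]
  [∀ n, DiscreteTopology (H n)]

/-- Elements of the product vanishing up to `n`. -/
def VV (n : ℕ) : AddSubgroup ((n : ℕ) → H n) where
  carrier := {g | ∀ i ≤ n, g i = 0}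
  zero_mem' := fun _ _ => rfl
  add_mem' := by
    intro a b ha hb i hi
    rw [Pi.add_apply, ha i hi, hb i hi, add_zero]
  neg_mem' := by
    intro a ha i hi
    rw [Pi.neg_apply, ha i hi, neg_zero]

theorem mem_VV (n : ℕ) (g : (n : ℕ) → H n) : g ∈ VV H n ↔ ∀ i ≤ n, g i = 0 := Iff.rfl

theorem bas_VV : Bas (VV H) := by
  refine ⟨?_, ?_, ?_⟩
  · intro a b hab g hg i hi
    exact hg i (hi.trans hab)
  · intro n
    have h1 : (VV H n : Set ((n : ℕ) → H n)) = ⋂ i ∈ Finset.range (n + 1), (fun g => g i) ⁻¹' {0} := by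
      ext g
      simp only [SetLike.mem_coe, mem_VV, mem_iInter, mem_preimage, mem_singleton_iff,
        Finset.mem_range, Nat.lt_succ_iff]
    rw [h1]
    refine isOpen_biInter_finset fun i _ => ?_
    exact (isOpen_discrete _).preimage (continuous_apply i)
  · intro O hO
    rw [nhds_pi, Filter.mem_pi] at hO
    obtain ⟨I, hI, t, ht, hsub⟩ := hO
    obtain ⟨n, hn⟩ := hI.bddAbove
    refine ⟨n, fun g hg => hsub fun i hi => ?_⟩
    have h1 : g i = 0 := hg i (hn hi)
    rw [h1]
    exact mem_of_mem_nhds (ht i)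

theorem polish_pi [∀ n, Countable (H n)] : PolishSpace ((n : ℕ) → H n) := by
  have h2 : SecondCountableTopology ((n : ℕ) → H n) := inferInstance
  have h3 : TopologicalSpace.IsCompletelyMetrizableSpace ((n : ℕ) → H n) := inferInstance
  exact { h2, h3 with }

theorem tame_pi [∀ n, IsTopologicalAddGroup (H n)] [∀ n, Countable (H n)]
    (htor : ∀ n, ∀ x : H (n + 1), ∃ k : ℕ, 1 ≤ k ∧ k • x = 0)
    (hfin : ∀ p : ℕ, p.Prime → ∃ i, ∀ n, i ≤ n → {h : H n | p • h = 0}.Finite) :
    TameG ((n : ℕ) → H n) := by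
  classical
  have := polish_pi H
  refine tame_of (bas_VV H) ?_ ?_
  · intro m x hx
    induction m with
    | zero => exact ⟨1, le_rfl, by rwa [one_smul]⟩
    | succ m ih =>
      obtain ⟨k, hk1, hk⟩ := ih
      obtain ⟨l, hl1, hl⟩ := htor m (x (m + 1))
      refine ⟨l * k, Nat.one_le_iff_ne_zero.2 (Nat.mul_ne_zero (by omega) (by omega)), ?_⟩
      intro i hi
      rcases Nat.lt_succ_iff_lt_or_eq.1 (Nat.lt_succ_iff.2 hi) with h | h
      · have h1 : (k • x) i = 0 := hk i (Nat.lt_succ_iff.1 h)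
        rw [mul_smul, Pi.smul_apply, h1, smul_zero]
      · subst h
        rw [mul_comm, mul_smul, Pi.smul_apply, Pi.smul_apply, hl, smul_zero]
  · intro N hN
    obtain ⟨i, hi⟩ := soc_all hfin N hN
    refine ⟨i, fun n hn => ?_⟩
    have hf := hi (n + 1) (by omega)
    refine ⟨hf.toFinset.image (fun h => Pi.single (n + 1) h), fun y hy hNy => ?_⟩
    refine ⟨Pi.single (n + 1) (y (n + 1)), ?_, ?_⟩
    · refine Finset.mem_image.2 ⟨y (n + 1), ?_, rfl⟩
      rw [Set.Finite.mem_toFinset]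
      exact hNy (n + 1) le_rfl
    · intro j hj
      rcases Nat.lt_succ_iff_lt_or_eq.1 (Nat.lt_succ_iff.2 hj) with h | h
      · rw [Pi.sub_apply, hy j (Nat.lt_succ_iff.1 h), Pi.single_eq_of_ne h.ne, sub_zero]
      · subst h
        rw [Pi.sub_apply, Pi.single_eq_same, sub_self]

end

theorem main (G : Type) [AddCommGroup G] [TopologicalSpace G] [PolishSpace G]
    [NonarchimedeanAddGroup G] (hG : TameG G) :
    ∃ (H : ℕ → Type) (_ : ∀ n, AddCommGroup (H n)) (_ : ∀ n, TopologicalSpace (H n)),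
      (∀ n, DiscreteTopology (H n)) ∧ (∀ n, Countable (H n)) ∧
      TameG ((n : ℕ) → H n) ∧ ∃ f : G →+ ((n : ℕ) → H n), Topology.IsClosedEmbedding f := by
  classical
  obtain ⟨U₀, hU₀⟩ := exists_bas G
  obtain ⟨n₀, hn₀⟩ := str1 hU₀ hG
  set U : ℕ → AddSubgroup G := fun j => U₀ (n₀ + j) with hUdef
  have hU : Bas U := hU₀.sub_seq (fun j => n₀ + j) (fun j => Nat.lt_succ_self _)
  have htor : ∀ m, ∀ x ∈ U 0, ∃ k : ℕ, 1 ≤ k ∧ k • x ∈ U m := fun m x hx => hn₀ _ x hx
  have hsoc : ∀ p : ℕ, p.Prime → ∃ i, ∀ n, i ≤ n →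
      ∃ R : Finset G, ∀ y ∈ U n, p • y ∈ U (n + 1) → ∃ r ∈ R, y - r ∈ U (n + 1) := by
    intro p hp
    obtain ⟨i, hi⟩ := str2 hU₀ hG p hp
    refine ⟨i, fun n hn => ?_⟩
    obtain ⟨R, hR⟩ := hi (n₀ + (n + 1))
    exact ⟨R, fun y hy hpy => hR y (hU₀.anti (le_trans hn (Nat.le_add_left _ _)) hy) hpy⟩
  have hex : ∀ j, ∃ M : AddSubgroup G, U (j + 1) ≤ M ∧ M ⊓ U j ≤ U (j + 1) ∧
      ∀ x, x ∉ M → ∃ m ∈ M, ∃ k : ℤ, m + k • x ∈ U j ∧ m + k • x ∉ U (j + 1) :=
    fun j => exists_max (U j) (U (j + 1)) (hU.anti (Nat.le_succ j))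
  choose M hM1 hM2 hM3 using hex
  obtain ⟨Ms, hMs0, hMss⟩ : ∃ Ms : ℕ → AddSubgroup G, Ms 0 = U 0 ∧ ∀ j, Ms (j + 1) = M j :=
    ⟨fun n => Nat.casesOn n (U 0) M, rfl, fun _ => rfl⟩
  have hUMs : ∀ n, U n ≤ Ms n := by
    intro n
    cases n with
    | zero => exact hMs0.ge
    | succ n => rw [hMss]; exact hM1 n
  have hMsopen : ∀ n, IsOpen ((Ms n : AddSubgroup G) : Set G) := by
    intro n
    exact AddSubgroup.isOpen_mono (hUMs n) (hU.isOpen n)
  have hinter : ∀ n x, (∀ i ≤ n, x ∈ Ms i) → x ∈ U n := by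
    intro n
    induction n with
    | zero => intro x hx; rw [← hMs0]; exact hx 0 le_rfl
    | succ n ih =>
      intro x hx
      have h1 : x ∈ U n := ih x fun i hi => hx i (hi.trans (Nat.le_succ n))
      have h2 : x ∈ M n := by rw [← hMss]; exact hx (n + 1) le_rfl
      exact hM2 n (AddSubgroup.mem_inf.2 ⟨h2, h1⟩)
  have hmem : ∀ n i x, i ≤ n → x ∈ U n → x ∈ Ms i := fun n i x hi hx => hUMs i (hU.anti hi hx)
  have hdisc : ∀ n, DiscreteTopology (G ⧸ Ms n) := fun n => QuotientAddGroup.discreteTopology (hMsopen n)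
  have hcount : ∀ n, Countable (G ⧸ Ms n) := fun n => countable_quot (Ms n) (hMsopen n)
  refine ⟨fun n => G ⧸ Ms n, fun n => inferInstance, fun n => inferInstance, hdisc, hcount, ?_, ?_⟩
  · refine tame_pi (fun n => G ⧸ Ms n) ?_ ?_
    · intro n x
      obtain ⟨x, rfl⟩ := QuotientAddGroup.mk_surjective x
      obtain ⟨k, hk1, hk⟩ := max_tor (fun x hx => htor (n + 1) x (hU.anti (Nat.zero_le n) hx))
        (hM1 n) (hM2 n) (hM3 n) x
      refine ⟨k, hk1, ?_⟩
      rw [← QuotientAddGroup.mk_nsmul, QuotientAddGroup.eq_zero_iff, hMss]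
      exact hk
    · intro p hp
      obtain ⟨i, hi⟩ := hsoc p hp
      refine ⟨i + 1, fun n hn => ?_⟩
      obtain ⟨n, rfl⟩ : ∃ m, n = m + 1 := ⟨n - 1, by omega⟩
      obtain ⟨R, hR⟩ := max_soc p hp (hi n (by omega)) (hM1 n) (hM2 n) (hM3 n)
      refine ((Finset.finite_toSet R).image (fun r => ((r : G) : G ⧸ Ms (n + 1)))).subset ?_
      intro h hh
      obtain ⟨x, rfl⟩ := QuotientAddGroup.mk_surjective h
      rw [mem_ofPred_eq, ← QuotientAddGroup.mk_nsmul, QuotientAddGroup.eq_zero_iff, hMss] at hh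
      obtain ⟨r, hr, hxr⟩ := hR x hh
      refine ⟨r, hr, ?_⟩
      rw [QuotientAddGroup.eq, neg_add_eq_sub, hMss]
      exact hxr
  · let f : G →+ ((n : ℕ) → G ⧸ Ms n) :=
      { toFun := fun x n => (x : G ⧸ Ms n)
        map_zero' := rfl
        map_add' := fun x y => rfl }
    have hf : ∀ x n, f x n = (x : G ⧸ Ms n) := fun x n => rfl
    have hcont : Continuous f := by
      refine continuous_pi fun n => ?_
      exact QuotientAddGroup.continuous_mk
    have heq : ∀ x y n, f x n = f y n ↔ x - y ∈ Ms n := by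
      intro x y n
      rw [hf, hf, eq_comm, QuotientAddGroup.eq, neg_add_eq_sub]
    refine ⟨f, Topology.IsClosedEmbedding.of_continuous_injective_isClosedMap hcont ?_ ?_⟩
    · intro x y hxy
      have h1 : ∀ n, x - y ∈ U n := fun n => hinter n _ fun i _ => (heq x y i).1 (by rw [hxy])
      by_contra hne
      have h2 : ({x - y}ᶜ : Set G) ∈ 𝓝 (0 : G) :=
        isOpen_compl_singleton.mem_nhds (by
          rw [mem_compl_iff, mem_singleton_iff]
          intro h
          exact hne (sub_eq_zero.1 h.symm))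
      obtain ⟨n, hn⟩ := hU.small _ h2
      exact hn (h1 n) rfl
    · intro C hC
      rw [← isOpen_compl_iff, isOpen_iff_mem_nhds]
      intro h hh
      by_contra hcon
      -- approximations
      have happ : ∀ n, ∃ x ∈ C, ∀ i ≤ n, f x i = h i := by
        intro n
        by_contra hno
        push Not at hno
        apply hcon
        have hopen : IsOpen {g : (n : ℕ) → G ⧸ Ms n | ∀ i ≤ n, g i = h i} := by
          have h1 : {g : (n : ℕ) → G ⧸ Ms n | ∀ i ≤ n, g i = h i} =
              ⋂ i ∈ Finset.range (n + 1), (fun g : (n : ℕ) → G ⧸ Ms n => g i) ⁻¹' {h i} := by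
            ext g
            simp only [mem_ofPred_eq, mem_iInter, mem_preimage, mem_singleton_iff,
              Finset.mem_range, Nat.lt_succ_iff]
          rw [h1]
          refine isOpen_biInter_finset fun i _ => ?_
          exact (isOpen_discrete _).preimage (continuous_apply i)
        refine Filter.mem_of_superset (hopen.mem_nhds (fun i _ => rfl)) ?_
        rintro g hg ⟨x, hx, rfl⟩
        obtain ⟨i, hi, hne⟩ := hno x hx
        exact hne (hg i hi)
      choose x hxC hxh using happ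
      obtain ⟨g, hg⟩ := hU.complete x (by
        intro n
        refine hinter n _ fun i hi => ?_
        rw [← heq, hxh (n + 1) i (hi.trans (Nat.le_succ n)), hxh n i hi])
      apply hh
      refine ⟨g, ?_, ?_⟩
      · rw [← hC.closure_eq, mem_closure_iff_nhds]
        intro O hO
        have h1 : (fun v : G => g - v) ⁻¹' O ∈ 𝓝 (0 : G) := by
          have hc : Continuous fun v : G => g - v := continuous_const.sub continuous_id
          refine hc.continuousAt ?_
          rw [sub_zero]; exact hO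
        obtain ⟨n, hn⟩ := hU.small _ h1
        refine ⟨x n, ?_, hxC n⟩
        have h2 := hn (hg n)
        rw [mem_preimage, sub_sub_cancel] at h2
        exact h2
      · funext n
        rw [← hxh n n le_rfl, heq]
        exact hmem n n _ le_rfl (hg n)

end Pool.Agent.H731R3.Tame
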