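import Mathlib

set_option autoImplicit false

/-!
Embeddings of countable abelian groups into universal divisible groups `ℕ →₀ ℚ ⧸ R`.
-/

open Set

namespace Pool.Agent.H731R3.Tame

/-- Divisibility as a property. -/
def Dvs (D : Type*) [AddCommGroup D] : Prop := ∀ n : ℤ, n ≠ 0 → ∀ d : D, ∃ e : D, n • e = d

theorem Dvs.rat : Dvs ℚ := by
  intro n hn d
  refine ⟨d / n, ?_⟩
  rw [zsmul_eq_mul, mul_div_cancel₀]
  exact_mod_cast hn

theorem Dvs.quot {D : Type*} [AddCommGroup D] (h : Dvs D) (R : AddSubgroup D) : Dvs (D ⧸ R) := by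
  intro n hn d
  obtain ⟨d, rfl⟩ := QuotientAddGroup.mk_surjective d
  obtain ⟨e, he⟩ := h n hn d
  exact ⟨(e : D ⧸ R), by rw [← QuotientAddGroup.mk_zsmul, he]⟩

theorem Dvs.finsupp {D : Type*} [AddCommGroup D] (h : Dvs D) : Dvs (ℕ →₀ D) := by
  classical
  intro n hn d
  choose e he using h n hn
  refine ⟨Finsupp.onFinset d.support (fun i => if d i = 0 then 0 else e (d i)) ?_, ?_⟩
  · intro i hi
    rw [Finsupp.mem_support_iff]
    intro h0
    exact hi (if_pos h0)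
  · ext i
    rw [Finsupp.smul_apply, Finsupp.onFinset_apply]
    by_cases h0 : d i = 0
    · rw [if_pos h0, smul_zero, h0]
    · rw [if_neg h0, he]

/-- Extension of homomorphisms to divisible groups. -/
theorem Dvs.ext {D : Type*} [AddCommGroup D] (h : Dvs D) {A B : Type*} [AddCommGroup A]
    [AddCommGroup B] (i : A →+ B) (f : A →+ D) (hker : ∀ a, i a = 0 → f a = 0) :
    ∃ g : B →+ D, ∀ a, g (i a) = f a := by
  let _ : DivisibleBy D ℤ := divisibleByOfSMulRightSurj D ℤ (fun {n} hn d => h n hn d)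
  have hb : Module.Baer ℤ D := Module.Baer.of_divisible D
  have hle : i.ker ≤ f.ker := fun a ha => hker a ha
  obtain ⟨g, hg⟩ := hb.extension_property_addMonoidHom (QuotientAddGroup.kerLift i)
    (QuotientAddGroup.kerLift_injective i) (QuotientAddGroup.lift i.ker f hle)
  refine ⟨g, fun a => ?_⟩
  have := DFunLike.congr_fun hg (a : A ⧸ i.ker)
  exact this

/-- Greedy embedding of a countable group into a direct sum. -/
theorem greedy {T D : Type*} [AddCommGroup T] [Countable T] [AddCommGroup D]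
    (h : ∀ (S : AddSubgroup T) (t : T), ∃ χ : T →+ D, (∀ s ∈ S, χ s = 0) ∧
      ∀ k : ℤ, χ (k • t) = 0 → k • t ∈ S) :
    ∃ f : T →+ (ℕ →₀ D), Function.Injective f := by
  classical
  obtain ⟨t, ht⟩ := exists_surjective_nat T
  let S : ℕ → AddSubgroup T := fun n => AddSubgroup.closure (t '' Iio n)
  choose χ hχ1 hχ2 using fun n => h (S n) (t n)
  have hmem : ∀ m n, m < n → t m ∈ S n := fun m n hmn =>
    AddSubgroup.subset_closure ⟨m, hmn, rfl⟩
  have hfin : ∀ x, ∃ N, ∀ n, N ≤ n → χ n x = 0 := by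
    intro x
    obtain ⟨m, rfl⟩ := ht x
    exact ⟨m + 1, fun n hn => hχ1 n _ (hmem m n hn)⟩
  have hfin' : ∀ x, (Function.support fun n => χ n x).Finite := by
    intro x
    obtain ⟨N, hN⟩ := hfin x
    refine (Set.finite_Iio N).subset fun n hn => ?_
    by_contra hcon
    exact hn (hN n (not_lt.1 hcon))
  let f : T →+ (ℕ →₀ D) :=
    { toFun := fun x => Finsupp.ofSupportFinite (fun n => χ n x) (hfin' x)
      map_zero' := by ext n; simp [Finsupp.ofSupportFinite_coe]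
      map_add' := by
        intro x y
        ext n
        simp [Finsupp.ofSupportFinite_coe] }
  have hf : ∀ x n, f x n = χ n x := fun x n => rfl
  refine ⟨f, (injective_iff_map_eq_zero f).2 fun x hx => ?_⟩
  have hz : ∀ n, χ n x = 0 := fun n => by rw [← hf, hx]; rfl
  have hstep : ∀ n, x ∈ S (n + 1) → x ∈ S n := by
    intro n hn
    have h1 : S (n + 1) ≤ S n ⊔ AddSubgroup.zmultiples (t n) := by
      rw [AddSubgroup.closure_le]
      rintro _ ⟨m, hm, rfl⟩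
      rcases Nat.lt_succ_iff_lt_or_eq.1 hm with h | h
      · exact AddSubgroup.mem_sup_left (hmem m n h)
      · subst h
        exact AddSubgroup.mem_sup_right (AddSubgroup.mem_zmultiples _)
    obtain ⟨s, hs, v, hv, rfl⟩ := AddSubgroup.mem_sup.1 (h1 hn)
    obtain ⟨k, rfl⟩ := AddSubgroup.mem_zmultiples_iff.1 hv
    have h2 := hz n
    rw [map_add, hχ1 n s hs, zero_add] at h2
    exact (S n).add_mem hs (hχ2 n k h2)
  have hall : ∀ n, x ∈ S n → x ∈ S 0 := by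
    intro n
    induction n with
    | zero => exact id
    | succ n ih => exact fun h => ih (hstep n h)
  obtain ⟨m, hm⟩ := ht x
  have h3 : x ∈ S 0 := hall (m + 1) (by rw [← hm]; exact hmem m _ (Nat.lt_succ_self m))
  have h4 : S 0 = ⊥ := by
    have : (t '' Iio 0) = ∅ := by simp
    change AddSubgroup.closure (t '' Iio 0) = ⊥
    rw [this, AddSubgroup.closure_empty]
  rw [h4] at h3
  exact h3

/-- Rationals whose denominator has no prime factor in `P`. -/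
def RP (P : Set ℕ) : AddSubgroup ℚ where
  carrier := {x | ∃ k : ℕ, 1 ≤ k ∧ (∀ p ∈ P, p.Prime → ¬ p ∣ k) ∧ ∃ a : ℤ, (k : ℚ) * x = a}
  zero_mem' := ⟨1, le_rfl, fun p _ hp h => hp.one_lt.ne' (Nat.dvd_one.1 h), 0, by simp⟩
  add_mem' := by
    rintro x y ⟨k, hk, hkP, a, ha⟩ ⟨l, hl, hlP, b, hb⟩
    refine ⟨k * l, Nat.one_le_iff_ne_zero.2 (Nat.mul_ne_zero (by omega) (by omega)), ?_,
      l * a + k * b, ?_⟩
    · intro p hpP hp hdvd
      rcases (hp.dvd_mul).1 hdvd with h | h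
      · exact hkP p hpP hp h
      · exact hlP p hpP hp h
    · push_cast
      rw [← ha, ← hb]; ring
  neg_mem' := by
    rintro x ⟨k, hk, hkP, a, ha⟩
    exact ⟨k, hk, hkP, -a, by push_cast; rw [← ha]; ring⟩

theorem mem_RP (P : Set ℕ) (x : ℚ) : x ∈ RP P ↔ ∃ k : ℕ, 1 ≤ k ∧
    (∀ p ∈ P, p.Prime → ¬ p ∣ k) ∧ ∃ a : ℤ, (k : ℚ) * x = a := Iff.rfl

theorem int_mem_RP (P : Set ℕ) (a : ℤ) : (a : ℚ) ∈ RP P :=
  ⟨1, le_rfl, fun p _ hp h => hp.one_lt.ne' (Nat.dvd_one.1 h), a, by simp⟩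

/-- `j/N ∈ RP P` with `N` a product of primes in `P` implies `N ∣ j`. -/
theorem dvd_of_RP (P : Set ℕ) (N : ℕ) (hN : 1 ≤ N) (hNP : ∀ p : ℕ, p.Prime → p ∣ N → p ∈ P) (j : ℤ)
    (h : (j : ℚ) / N ∈ RP P) : (N : ℤ) ∣ j := by
  obtain ⟨k, hk1, hkP, a, ha⟩ := h
  have hN0 : (N : ℚ) ≠ 0 := by exact_mod_cast (by omega : N ≠ 0)
  have h1 : (k : ℚ) * j = a * N := by
    rw [← ha]; field_simp
  have h2 : (k : ℤ) * j = a * N := by exact_mod_cast h1
  have hcop : Nat.Coprime N k := by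
    refine Nat.Coprime.symm (Nat.Coprime.symm ?_)
    refine Nat.coprime_of_dvd fun p hp hpN hpk => ?_
    exact hkP p (hNP p hp hpN) hp hpk
  have h3 : (N : ℤ) ∣ k * j := ⟨a, by rw [h2]; ring⟩
  have hcop' : IsCoprime (N : ℤ) (k : ℤ) := Nat.isCoprime_iff_coprime.2 hcop
  exact hcop'.dvd_of_dvd_mul_left h3

/-- Character detecting a cyclic subgroup of `P`-order modulo `S`. -/
theorem chi_tor (P : Set ℕ) {C : Type*} [AddCommGroup C] (S : AddSubgroup C) (c : C)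
    (hc : ∃ N : ℕ, 1 ≤ N ∧ (∀ p : ℕ, p.Prime → p ∣ N → p ∈ P) ∧ N • c ∈ S) :
    ∃ χ : C →+ ℚ ⧸ RP P, (∀ s ∈ S, χ s = 0) ∧ ∀ k : ℤ, χ (k • c) = 0 → k • c ∈ S := by
  classical
  obtain ⟨N, hN1, hNP, hNc⟩ := hc
  -- the exact order
  set N' := addOrderOf (c : C ⧸ S) with hN'
  have hdvd : N' ∣ N := by
    rw [hN', addOrderOf_dvd_iff_nsmul_eq_zero, ← QuotientAddGroup.mk_nsmul,
      QuotientAddGroup.eq_zero_iff]
    exact hNc
  have hN'1 : 1 ≤ N' := by
    rcases Nat.eq_zero_or_pos N' with h | h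
    · rw [h] at hdvd
      have := Nat.eq_zero_of_zero_dvd hdvd
      omega
    · exact h
  have hN'P : ∀ p : ℕ, p.Prime → p ∣ N' → p ∈ P := fun p hp h => hNP p hp (h.trans hdvd)
  have hD : Dvs (ℚ ⧸ RP P) := Dvs.rat.quot _
  have hN0 : (N' : ℚ) ≠ 0 := by exact_mod_cast (by omega : N' ≠ 0)
  let i : ℤ →+ C ⧸ S := (zmultiplesHom (C ⧸ S)) (c : C ⧸ S)
  let f : ℤ →+ ℚ ⧸ RP P := (zmultiplesHom (ℚ ⧸ RP P)) (((1 : ℚ) / N' : ℚ) : ℚ ⧸ RP P)
  have hi : ∀ k : ℤ, i k = k • (c : C ⧸ S) := fun k => rfl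
  have hf : ∀ k : ℤ, f k = (((k : ℚ) / N' : ℚ) : ℚ ⧸ RP P) := by
    intro k
    change k • (((1 : ℚ) / N' : ℚ) : ℚ ⧸ RP P) = _
    rw [← QuotientAddGroup.mk_zsmul]
    congr 1
    rw [zsmul_eq_mul]; ring
  have hi0 : ∀ k : ℤ, i k = 0 ↔ (N' : ℤ) ∣ k := by
    intro k
    rw [hi, hN', addOrderOf_dvd_iff_zsmul_eq_zero]
  have hf0 : ∀ k : ℤ, f k = 0 ↔ (N' : ℤ) ∣ k := by
    intro k
    rw [hf, QuotientAddGroup.eq_zero_iff]
    constructor
    · exact dvd_of_RP P N' hN'1 hN'P k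
    · rintro ⟨e, rfl⟩
      have : (((N' : ℤ) * e : ℤ) : ℚ) / N' = (e : ℤ) := by
        push_cast; field_simp
      rw [this]
      exact int_mem_RP P e
  obtain ⟨g, hg⟩ := hD.ext i f (fun k hk => (hf0 k).2 ((hi0 k).1 hk))
  refine ⟨g.comp (QuotientAddGroup.mk' S), ?_, ?_⟩
  · intro s hs
    have : ((s : C) : C ⧸ S) = 0 := (QuotientAddGroup.eq_zero_iff s).2 hs
    change g (s : C ⧸ S) = 0
    rw [this, map_zero]
  · intro k hk
    have h1 : g (i k) = 0 := hk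
    rw [hg, hf0, ← hi0, hi, ← QuotientAddGroup.mk_zsmul, QuotientAddGroup.eq_zero_iff] at h1
    exact h1

/-- Character detecting a cyclic subgroup that is infinite modulo `S`. -/
theorem chi_inf {C : Type*} [AddCommGroup C] (S : AddSubgroup C) (c : C)
    (hc : ∀ N : ℕ, 1 ≤ N → N • c ∉ S) :
    ∃ χ : C →+ ℚ ⧸ (⊥ : AddSubgroup ℚ), (∀ s ∈ S, χ s = 0) ∧ ∀ k : ℤ, χ (k • c) = 0 → k • c ∈ S := by
  classical
  have hD : Dvs (ℚ ⧸ (⊥ : AddSubgroup ℚ)) := Dvs.rat.quot _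
  let i : ℤ →+ C ⧸ S := (zmultiplesHom (C ⧸ S)) (c : C ⧸ S)
  let f : ℤ →+ ℚ ⧸ (⊥ : AddSubgroup ℚ) :=
    (zmultiplesHom (ℚ ⧸ (⊥ : AddSubgroup ℚ))) ((1 : ℚ) : ℚ ⧸ (⊥ : AddSubgroup ℚ))
  have hi : ∀ k : ℤ, i k = k • (c : C ⧸ S) := fun k => rfl
  have hf : ∀ k : ℤ, f k = 0 → k = 0 := by
    intro k hk
    have h1 : k • ((1 : ℚ) : ℚ ⧸ (⊥ : AddSubgroup ℚ)) = 0 := hk
    rw [← QuotientAddGroup.mk_zsmul, QuotientAddGroup.eq_zero_iff, AddSubgroup.mem_bot,
      zsmul_eq_mul, mul_one] at h1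
    exact_mod_cast h1
  have hi0 : ∀ k : ℤ, i k = 0 → k = 0 := by
    intro k hk
    rw [hi, ← QuotientAddGroup.mk_zsmul, QuotientAddGroup.eq_zero_iff] at hk
    by_contra hne
    have h1 : 1 ≤ k.natAbs := Int.natAbs_pos.2 hne
    apply hc k.natAbs h1
    rcases Int.natAbs_eq k with h | h
    · rw [h, natCast_zsmul] at hk
      exact hk
    · rw [h, neg_smul, natCast_zsmul] at hk
      have := S.neg_mem hk
      rwa [neg_neg] at this
  obtain ⟨g, hg⟩ := hD.ext i f (fun k hk => by rw [hi0 k hk, map_zero])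
  refine ⟨g.comp (QuotientAddGroup.mk' S), ?_, ?_⟩
  · intro s hs
    have : ((s : C) : C ⧸ S) = 0 := (QuotientAddGroup.eq_zero_iff s).2 hs
    change g (s : C ⧸ S) = 0
    rw [this, map_zero]
  · intro k hk
    have h1 : g (i k) = 0 := hk
    rw [hg] at h1
    rw [hf k h1, zero_smul]
    exact S.zero_mem

/-- Key lemma: homomorphism into a fixed direct sum detecting `P`-torsion modulo `B`. -/
theorem phi_P (P : Set ℕ) {G : Type*} [AddCommGroup G] (B : AddSubgroup G) [Countable (G ⧸ B)] :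
    ∃ φ : G →+ (ℕ →₀ ℚ ⧸ RP P), (∀ b ∈ B, φ b = 0) ∧
      ∀ (x : G) (p : ℕ), p ∈ P → p.Prime → p • x ∈ B → φ x = 0 → x ∈ B := by
  classical
  let T : AddSubgroup (G ⧸ B) :=
    { carrier := {c | ∃ k : ℕ, 1 ≤ k ∧ (∀ p : ℕ, p.Prime → p ∣ k → p ∈ P) ∧ k • c = 0}
      zero_mem' := ⟨1, le_rfl, fun p hp h => absurd (Nat.dvd_one.1 h) hp.one_lt.ne', smul_zero _⟩
      add_mem' := by
        rintro x y ⟨k, hk, hkP, hkx⟩ ⟨l, hl, hlP, hly⟩
        refine ⟨k * l, Nat.one_le_iff_ne_zero.2 (Nat.mul_ne_zero (by omega) (by omega)), ?_, ?_⟩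
        · intro p hp hdvd
          rcases (hp.dvd_mul).1 hdvd with h | h
          · exact hkP p hp h
          · exact hlP p hp h
        · rw [smul_add, mul_smul k l y, hly, smul_zero, mul_comm, mul_smul, hkx, smul_zero, add_zero]
      neg_mem' := by
        rintro x ⟨k, hk, hkP, hkx⟩
        exact ⟨k, hk, hkP, by rw [smul_neg, hkx, neg_zero]⟩ }
  have hT : ∀ c, c ∈ T ↔ ∃ k : ℕ, 1 ≤ k ∧ (∀ p : ℕ, p.Prime → p ∣ k → p ∈ P) ∧ k • c = 0 :=
    fun c => Iff.rfl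
  obtain ⟨f, hf⟩ := greedy (T := T) (D := ℚ ⧸ RP P) (by
    intro S t
    refine chi_tor P S t ?_
    obtain ⟨k, hk1, hkP, hk⟩ := (hT _).1 t.2
    refine ⟨k, hk1, hkP, ?_⟩
    have : k • t = 0 := by ext; simpa using hk
    rw [this]
    exact S.zero_mem)
  have hD : Dvs (ℕ →₀ ℚ ⧸ RP P) := (Dvs.rat.quot _).finsupp
  obtain ⟨g, hg⟩ := hD.ext T.subtype f (fun a ha => by
    have : a = 0 := T.subtype_injective (by rw [ha, map_zero])
    rw [this, map_zero])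
  refine ⟨g.comp (QuotientAddGroup.mk' B), ?_, ?_⟩
  · intro s hs
    have : ((s : G) : G ⧸ B) = 0 := (QuotientAddGroup.eq_zero_iff s).2 hs
    change g (s : G ⧸ B) = 0
    rw [this, map_zero]
  · intro x p hpP hp hpx hφ
    have hxT : ((x : G) : G ⧸ B) ∈ T := by
      rw [hT]
      refine ⟨p, hp.one_lt.le, fun q hq hqp => ?_, ?_⟩
      · rw [(Nat.prime_dvd_prime_iff_eq hq hp).1 hqp]
        exact hpP
      · rw [← QuotientAddGroup.mk_nsmul, QuotientAddGroup.eq_zero_iff]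
        exact hpx
    have h1 : g (T.subtype ⟨_, hxT⟩) = 0 := hφ
    rw [hg] at h1
    have h2 := (injective_iff_map_eq_zero f).1 hf _ h1
    have h3 : ((x : G) : G ⧸ B) = 0 := congrArg Subtype.val h2
    exact (QuotientAddGroup.eq_zero_iff x).1 h3

/-- Homomorphism into `ℕ →₀ ℚ` detecting infinite order modulo `B`. -/
theorem phi_inf {G : Type*} [AddCommGroup G] (B : AddSubgroup G) [Countable (G ⧸ B)] :
    ∃ φ : G →+ (ℕ →₀ ℚ ⧸ (⊥ : AddSubgroup ℚ)), (∀ b ∈ B, φ b = 0) ∧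
      ∀ x : G, φ x = 0 → ∃ k : ℕ, 1 ≤ k ∧ k • x ∈ B := by
  classical
  let T : AddSubgroup (G ⧸ B) :=
    { carrier := {c | ∃ k : ℕ, 1 ≤ k ∧ k • c = 0}
      zero_mem' := ⟨1, le_rfl, smul_zero _⟩
      add_mem' := by
        rintro x y ⟨k, hk, hkx⟩ ⟨l, hl, hly⟩
        refine ⟨k * l, Nat.one_le_iff_ne_zero.2 (Nat.mul_ne_zero (by omega) (by omega)), ?_⟩
        rw [smul_add, mul_smul k l y, hly, smul_zero, mul_comm, mul_smul, hkx, smul_zero, add_zero]
      neg_mem' := by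
        rintro x ⟨k, hk, hkx⟩
        exact ⟨k, hk, by rw [smul_neg, hkx, neg_zero]⟩ }
  have hT : ∀ c, c ∈ T ↔ ∃ k : ℕ, 1 ≤ k ∧ k • c = 0 := fun c => Iff.rfl
  -- enumerate the quotient; greedy with pure closures
  obtain ⟨t, ht⟩ := exists_surjective_nat (G ⧸ B)
  let S : ℕ → AddSubgroup (G ⧸ B) := fun n => 
    { carrier := {c | ∃ k : ℕ, 1 ≤ k ∧ k • c ∈ AddSubgroup.closure (t '' Iio n)}
      zero_mem' := ⟨1, le_rfl, by rw [smul_zero]; exact AddSubgroup.zero_mem _⟩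
      add_mem' := by
        rintro x y ⟨k, hk, hkx⟩ ⟨l, hl, hly⟩
        refine ⟨k * l, Nat.one_le_iff_ne_zero.2 (Nat.mul_ne_zero (by omega) (by omega)), ?_⟩
        rw [smul_add]
        refine AddSubgroup.add_mem _ ?_ ?_
        · rw [mul_comm, mul_smul]; exact AddSubgroup.nsmul_mem _ hkx _
        · rw [mul_smul]; exact AddSubgroup.nsmul_mem _ hly _
      neg_mem' := by
        rintro x ⟨k, hk, hkx⟩
        exact ⟨k, hk, by rw [smul_neg]; exact AddSubgroup.neg_mem _ hkx⟩ }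
  have hS : ∀ n c, c ∈ S n ↔ ∃ k : ℕ, 1 ≤ k ∧ k • c ∈ AddSubgroup.closure (t '' Iio n) :=
    fun n c => Iff.rfl
  have hex : ∀ n, ∃ χ : (G ⧸ B) →+ ℚ ⧸ (⊥ : AddSubgroup ℚ), (∀ s ∈ S n, χ s = 0) ∧
      ∀ k : ℤ, χ (k • t n) = 0 → k • t n ∈ S n := by
    intro n
    by_cases h : t n ∈ S n
    · exact ⟨0, fun _ _ => rfl, fun k _ => (S n).zsmul_mem h k⟩
    · refine chi_inf (S n) (t n) fun N hN hmem => h ?_
      obtain ⟨k, hk, hk'⟩ := (hS n _).1 hmem
      refine (hS n _).2 ⟨k * N, Nat.one_le_iff_ne_zero.2 (Nat.mul_ne_zero (by omega) (by omega)), ?_⟩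
      rw [mul_smul]; exact hk'
  choose χ hχ1 hχ2 using hex
  have hsub : ∀ n, AddSubgroup.closure (t '' Iio n) ≤ S n := fun n x hx =>
    (hS n _).2 ⟨1, le_rfl, by rwa [one_smul]⟩
  have hmem : ∀ m n, m < n → t m ∈ S n := fun m n hmn =>
    hsub n (AddSubgroup.subset_closure ⟨m, hmn, rfl⟩)
  have hfin' : ∀ x, (Function.support fun n => χ n x).Finite := by
    intro x
    obtain ⟨m, rfl⟩ := ht x
    refine (Set.finite_Iio (m + 1)).subset fun n hn => ?_
    by_contra hcon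
    exact hn (hχ1 n _ (hmem m n (Nat.lt_of_succ_le (not_lt.1 hcon))))
  let f : (G ⧸ B) →+ (ℕ →₀ ℚ ⧸ (⊥ : AddSubgroup ℚ)) :=
    { toFun := fun x => Finsupp.ofSupportFinite (fun n => χ n x) (hfin' x)
      map_zero' := by ext n; simp [Finsupp.ofSupportFinite_coe]
      map_add' := by
        intro x y
        ext n
        simp [Finsupp.ofSupportFinite_coe] }
  have hf : ∀ x n, f x n = χ n x := fun x n => rfl
  refine ⟨f.comp (QuotientAddGroup.mk' B), ?_, ?_⟩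
  · intro s hs
    have : ((s : G) : G ⧸ B) = 0 := (QuotientAddGroup.eq_zero_iff s).2 hs
    change f (s : G ⧸ B) = 0
    rw [this, map_zero]
  · intro x hx
    have hx' : f (x : G ⧸ B) = 0 := hx
    set c : G ⧸ B := (x : G ⧸ B) with hc
    have hz : ∀ n, χ n c = 0 := fun n => by rw [← hf, hx']; rfl
    have hstep : ∀ n, c ∈ S (n + 1) → c ∈ S n := by
      intro n hn
      obtain ⟨k, hk, hkc⟩ := (hS _ _).1 hn
      have h1 : AddSubgroup.closure (t '' Iio (n + 1)) ≤ S n ⊔ AddSubgroup.zmultiples (t n) := by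
        rw [AddSubgroup.closure_le]
        rintro _ ⟨m, hm, rfl⟩
        rcases Nat.lt_succ_iff_lt_or_eq.1 hm with h | h
        · exact AddSubgroup.mem_sup_left (hmem m n h)
        · subst h
          exact AddSubgroup.mem_sup_right (AddSubgroup.mem_zmultiples _)
      obtain ⟨s, hs, v, hv, hsv⟩ := AddSubgroup.mem_sup.1 (h1 hkc)
      obtain ⟨j, rfl⟩ := AddSubgroup.mem_zmultiples_iff.1 hv
      have h2 : χ n (k • c) = 0 := by rw [map_nsmul, hz, smul_zero]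
      rw [← hsv, map_add, hχ1 n s hs, zero_add] at h2
      have h3 : k • c ∈ S n := by
        rw [← hsv]
        exact (S n).add_mem hs (hχ2 n j h2)
      obtain ⟨l, hl, hlc⟩ := (hS _ _).1 h3
      refine (hS _ _).2 ⟨l * k, Nat.one_le_iff_ne_zero.2 (Nat.mul_ne_zero (by omega) (by omega)), ?_⟩
      rw [mul_smul]; exact hlc
    have hall : ∀ n, c ∈ S n → c ∈ S 0 := by
      intro n
      induction n with
      | zero => exact id
      | succ n ih => exact fun h => ih (hstep n h)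
    obtain ⟨m, hm⟩ := ht c
    have h3 : c ∈ S 0 := hall (m + 1) (by rw [← hm]; exact hmem m _ (Nat.lt_succ_self m))
    obtain ⟨k, hk, hkc⟩ := (hS _ _).1 h3
    have h5 : (t '' Iio 0) = ∅ := by simp
    rw [h5, AddSubgroup.closure_empty, AddSubgroup.mem_bot, hc, ← QuotientAddGroup.mk_nsmul,
      QuotientAddGroup.eq_zero_iff] at hkc
    exact ⟨k, hk, hkc⟩

/-- Homomorphism into `ℚ ⧸ RP {p}` not vanishing on an element of order `p` modulo `B`. -/
theorem chi_p (p : ℕ) (hp : p.Prime) {G : Type*} [AddCommGroup G] (B : AddSubgroup G) (y : G)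
    (hpy : p • y ∈ B) :
    ∃ χ : G →+ ℚ ⧸ RP {p}, (∀ b ∈ B, χ b = 0) ∧ (χ y = 0 → y ∈ B) := by
  obtain ⟨χ, h1, h2⟩ := chi_tor {p} B y ⟨p, hp.one_lt.le, fun q hq hqp => by
    rw [(Nat.prime_dvd_prime_iff_eq hq hp).1 hqp]; rfl, hpy⟩
  refine ⟨χ, h1, fun h => ?_⟩
  have := h2 1 (by rwa [one_smul])
  rwa [one_smul] at this

end Pool.Agent.H731R3.Tame
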