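import Mathlib
import Pool.Agent.H731R3.Uni
import Pool.Agent.H731R3.Emb

set_option autoImplicit false

/-!
The universal tame non-archimedean abelian Polish group.
-/

open Set Filter
open scoped Topology

namespace Pool.Agent.H731R3.Tame

/-- Torsion groups. -/
def Tors (A : Type*) [AddCommGroup A] : Prop := ∀ x : A, ∃ k : ℕ, 1 ≤ k ∧ k • x = 0

theorem one_le_mul' {k l : ℕ} (hk : 1 ≤ k) (hl : 1 ≤ l) : 1 ≤ k * l :=
  Nat.one_le_iff_ne_zero.2 (Nat.mul_ne_zero (by omega) (by omega))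

theorem Tors.prod {A B : Type*} [AddCommGroup A] [AddCommGroup B] (hA : Tors A) (hB : Tors B) :
    Tors (A × B) := by
  rintro ⟨a, b⟩
  obtain ⟨k, hk, hka⟩ := hA a
  obtain ⟨l, hl, hlb⟩ := hB b
  refine ⟨k * l, one_le_mul' hk hl, ?_⟩
  refine Prod.ext ?_ ?_
  · change (k * l) • a = 0
    rw [mul_comm, mul_smul, hka, smul_zero]
  · change (k * l) • b = 0
    rw [mul_smul, hlb, smul_zero]

theorem Tors.finsupp {D : Type*} [AddCommGroup D] (hD : Tors D) : Tors (ℕ →₀ D) := by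
  intro f
  induction f using Finsupp.induction_linear with
  | zero => exact ⟨1, le_rfl, smul_zero _⟩
  | add f g hf hg =>
    obtain ⟨k, hk, hkf⟩ := hf
    obtain ⟨l, hl, hlg⟩ := hg
    refine ⟨k * l, one_le_mul' hk hl, ?_⟩
    rw [smul_add, mul_smul k l g, hlg, smul_zero, mul_comm, mul_smul, hkf, smul_zero, add_zero]
  | single i d =>
    obtain ⟨k, hk, hkd⟩ := hD d
    exact ⟨k, hk, by rw [Finsupp.smul_single, hkd, Finsupp.single_zero]⟩

theorem tors_rat (R : AddSubgroup ℚ) (hR : ∀ a : ℤ, (a : ℚ) ∈ R) : Tors (ℚ ⧸ R) := by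
  intro x
  obtain ⟨x, rfl⟩ := QuotientAddGroup.mk_surjective x
  refine ⟨x.den, x.den_pos, ?_⟩
  rw [← QuotientAddGroup.mk_nsmul, QuotientAddGroup.eq_zero_iff, nsmul_eq_mul, Rat.den_mul_eq_num]
  exact hR _

theorem soc_RP_triv (P : Set ℕ) (p : ℕ) (hp : p.Prime) (hpP : p ∉ P) (x : ℚ ⧸ RP P)
    (hx : p • x = 0) : x = 0 := by
  obtain ⟨x, rfl⟩ := QuotientAddGroup.mk_surjective x
  rw [← QuotientAddGroup.mk_nsmul, QuotientAddGroup.eq_zero_iff, nsmul_eq_mul] at hx
  obtain ⟨k, hk, hkP, a, ha⟩ := hx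
  rw [QuotientAddGroup.eq_zero_iff]
  refine ⟨k * p, one_le_mul' hk hp.one_lt.le, ?_, a, ?_⟩
  · intro q hq hqp hdvd
    rcases (hqp.dvd_mul).1 hdvd with h | h
    · exact hkP q hq hqp h
    · rw [(Nat.prime_dvd_prime_iff_eq hqp hp).1 h] at hq
      exact hpP hq
  · rw [← ha]; push_cast; ring

theorem soc_RP_fin (p : ℕ) (hp : p.Prime) : {x : ℚ ⧸ RP {p} | p • x = 0}.Finite := by
  refine ((Finset.range p).finite_toSet.image
    (fun j : ℕ => (((j : ℚ) / p : ℚ) : ℚ ⧸ RP {p}))).subset ?_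
  intro x hx
  obtain ⟨y, rfl⟩ := QuotientAddGroup.mk_surjective x
  rw [mem_ofPred_eq, ← QuotientAddGroup.mk_nsmul, QuotientAddGroup.eq_zero_iff, nsmul_eq_mul] at hx
  obtain ⟨k, hk, hkP, a, ha⟩ := hx
  have hpk : ¬ p ∣ k := hkP p rfl hp
  have hcop : IsCoprime (k : ℤ) (p : ℤ) :=
    Nat.isCoprime_iff_coprime.2 ((Nat.Prime.coprime_iff_not_dvd hp).2 hpk).symm
  obtain ⟨u, v, huv⟩ := hcop
  have hp0 : (p : ℤ) ≠ 0 := by exact_mod_cast hp.ne_zero
  have hj0 : 0 ≤ (a * u) % p := Int.emod_nonneg _ hp0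
  have hjp : (a * u) % p < p := Int.emod_lt_of_pos _ (by exact_mod_cast hp.pos)
  refine ⟨((a * u) % p).toNat, ?_, ?_⟩
  · rw [Finset.mem_coe, Finset.mem_range]
    omega
  · rw [QuotientAddGroup.eq]
    have h1 : ((((a * u) % p).toNat : ℕ) : ℚ) = (((a * u) % p : ℤ) : ℚ) := by
      have : ((((a * u) % p).toNat : ℕ) : ℤ) = (a * u) % p := Int.toNat_of_nonneg hj0
      exact_mod_cast congrArg (fun z : ℤ => (z : ℚ)) this
    rw [h1]
    have h2 : (a * u) % p = a * u - p * ((a * u) / p) := by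
      have := Int.emod_add_mul_ediv (a * u) p
      linarith
    refine ⟨k, hk, hkP, a * v + k * ((a * u) / p), ?_⟩
    have hpq : (p : ℚ) ≠ 0 := by exact_mod_cast hp.ne_zero
    have h3 : (u : ℚ) * k + v * p = 1 := by exact_mod_cast huv
    rw [h2]
    push_cast
    have h4 : (k : ℚ) * y = a / p := by
      field_simp
      linarith
    have h5 : (k : ℚ) * (-((a * u - p * (((a * u) / p : ℤ) : ℚ)) / p) + y) =
        -(k * (a * u)) / p + k * (((a * u) / p : ℤ) : ℚ) + k * y := by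
      field_simp
      ring
    rw [h5, h4]
    field_simp
    linear_combination (-(a : ℚ)) * h3

theorem soc_fs {D : Type*} [AddCommGroup D] (p : ℕ) (h : ∀ x : D, p • x = 0 → x = 0) :
    {f : ℕ →₀ D | p • f = 0}.Finite := by
  refine (finite_singleton (0 : ℕ →₀ D)).subset ?_
  intro f hf
  rw [mem_singleton_iff]
  ext i
  refine h _ ?_
  have := DFunLike.congr_fun hf i
  rwa [Finsupp.smul_apply] at this

theorem soc_prod {A B : Type*} [AddCommGroup A] [AddCommGroup B] (p : ℕ)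
    (hA : {x : A | p • x = 0}.Finite) (hB : {x : B | p • x = 0}.Finite) :
    {x : A × B | p • x = 0}.Finite := by
  refine (hA.prod hB).subset ?_
  rintro ⟨a, b⟩ hx
  have h1 : (p • a, p • b) = ((0 : A), (0 : B)) := hx
  exact ⟨(Prod.ext_iff.1 h1).1, (Prod.ext_iff.1 h1).2⟩

/-- Auxiliary subgroup of `ℚ`. -/
def Wq (n : ℕ) : AddSubgroup ℚ := if n = 0 then ⊥ else ⊤

/-- The factors of the universal group. -/
def HH (n : ℕ) : Type :=
  (ℕ →₀ ℚ ⧸ Wq n) × (ℕ →₀ ℚ ⧸ RP {p | n ≤ p}) × (ℕ →₀ ℚ ⧸ RP {n}) × (ℚ ⧸ RP {n.unpair.1})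

noncomputable instance (n : ℕ) : AddCommGroup (HH n) := by unfold HH; infer_instance
instance (n : ℕ) : TopologicalSpace (HH n) := ⊥
instance (n : ℕ) : DiscreteTopology (HH n) := ⟨rfl⟩
instance (n : ℕ) : Countable (HH n) := by
  have h : ∀ R : AddSubgroup ℚ, Countable (ℚ ⧸ R) := fun R =>
    (QuotientAddGroup.mk_surjective (s := R)).countable
  have h1 := h (Wq n)
  have h2 := h (RP {p | n ≤ p})
  have h3 := h (RP {n})
  have h4 := h (RP {n.unpair.1})
  unfold HH
  infer_instance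

theorem HH_tors (n : ℕ) : Tors (HH (n + 1)) := by
  have h1 : Tors (ℚ ⧸ Wq (n + 1)) := tors_rat _ (fun a => by
    unfold Wq; rw [if_neg (Nat.succ_ne_zero n)]; exact AddSubgroup.mem_top _)
  have h2 : ∀ P : Set ℕ, Tors (ℚ ⧸ RP P) := fun P => tors_rat _ (int_mem_RP P)
  exact (h1.finsupp).prod (((h2 _).finsupp).prod (((h2 _).finsupp).prod (h2 _)))

theorem HH_soc (p : ℕ) (hp : p.Prime) (n : ℕ) (hn : p + 1 ≤ n) : {h : HH n | p • h = 0}.Finite := by
  have h1 : {x : ℚ ⧸ RP {n.unpair.1} | p • x = 0}.Finite := by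
    by_cases h : n.unpair.1 = p
    · rw [h]; exact soc_RP_fin p hp
    · refine (finite_singleton (0 : ℚ ⧸ RP {n.unpair.1})).subset fun x hx => ?_
      exact soc_RP_triv _ p hp (fun hh => h (mem_singleton_iff.1 hh).symm) x hx
  have h2 : {x : (ℕ →₀ ℚ ⧸ RP {n}) | p • x = 0}.Finite :=
    soc_fs p (soc_RP_triv _ p hp (fun hh => by rw [mem_singleton_iff] at hh; omega))
  have h3 : {x : (ℕ →₀ ℚ ⧸ RP {p | n ≤ p}) | p • x = 0}.Finite :=
    soc_fs p (soc_RP_triv _ p hp (fun hh => by rw [mem_ofPred_eq] at hh; omega))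
  have h4 : {x : (ℕ →₀ ℚ ⧸ Wq n) | p • x = 0}.Finite := by
    refine soc_fs p (fun x _ => ?_)
    obtain ⟨y, rfl⟩ := QuotientAddGroup.mk_surjective x
    rw [QuotientAddGroup.eq_zero_iff]
    unfold Wq
    rw [if_neg (by omega)]
    exact AddSubgroup.mem_top _
  exact soc_prod p h4 (soc_prod p h3 (soc_prod p h2 h1))

instance (n : ℕ) : IsTopologicalAddGroup (HH n) := inferInstance

theorem HH_tame : TameG ((n : ℕ) → HH n) :=
  tame_pi HH HH_tors (fun p hp => ⟨p + 1, fun n hn => HH_soc p hp n hn⟩)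

theorem min_tor {G : Type*} [AddCommGroup G] (B : AddSubgroup G) (x : G)
    (hk : ∃ k : ℕ, 1 ≤ k ∧ k • x ∈ B)
    (hp : ∀ (p : ℕ), p.Prime → ∀ j : ℕ, p • (j • x) ∈ B → j • x ∈ B) : x ∈ B := by
  obtain ⟨k, hk1, hkx⟩ := hk
  induction k using Nat.strong_induction_on with
  | _ k ih =>
    by_cases h1 : k = 1
    · subst h1; rwa [one_smul] at hkx
    · obtain ⟨q, hq⟩ := Nat.minFac_dvd k
      have hpr : k.minFac.Prime := Nat.minFac_prime h1
      have hq1 : 1 ≤ q := by
        rcases Nat.eq_zero_or_pos q with h | h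
        · rw [h] at hq; omega
        · exact h
      have hqk : q < k := by
        have := hpr.two_le
        calc q < k.minFac * q := by nlinarith
          _ = k := hq.symm
      refine ih q hqk hq1 (hp _ hpr q ?_)
      rw [← mul_smul, ← hq]
      exact hkx

theorem p_part {G : Type*} [AddCommGroup G] (B : AddSubgroup G) (x : G) (p : ℕ)
    (hk : ∃ k : ℕ, 1 ≤ k ∧ k • x ∈ B)
    (hp : p.Prime) (hpj : ∀ j : ℕ, p • (j • x) ∈ B → j • x ∈ B) :
    ∃ k : ℕ, ¬ p ∣ k ∧ k • x ∈ B := by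
  obtain ⟨k, hk1, hkx⟩ := hk
  induction k using Nat.strong_induction_on with
  | _ k ih =>
    by_cases h1 : p ∣ k
    · obtain ⟨q, hq⟩ := h1
      have hq1 : 1 ≤ q := by
        rcases Nat.eq_zero_or_pos q with h | h
        · rw [h] at hq; omega
        · exact h
      have hqk : q < k := by
        have := hp.two_le
        calc q < p * q := by nlinarith
          _ = k := hq.symm
      refine ih q hqk hq1 (hpj q ?_)
      rw [← mul_smul, ← hq]
      exact hkx
    · exact ⟨k, h1, hkx⟩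

theorem of_coprime {G : Type*} [AddCommGroup G] (B : AddSubgroup G) (x : G) (p k : ℕ)
    (hp : p.Prime) (hk : ¬ p ∣ k) (hpx : p • x ∈ B) (hkx : k • x ∈ B) : x ∈ B := by
  have hcop : IsCoprime (k : ℤ) (p : ℤ) :=
    Nat.isCoprime_iff_coprime.2 ((Nat.Prime.coprime_iff_not_dvd hp).2 hk).symm
  obtain ⟨u, v, huv⟩ := hcop
  have h1 : x = u • (k • x) + v • (p • x) := by
    have : x = (u * k + v * p) • x := by rw [huv, one_smul]
    conv_lhs => rw [this]
    rw [add_smul, mul_smul, mul_smul, natCast_zsmul, natCast_zsmul]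
  rw [h1]
  exact B.add_mem (B.zsmul_mem hkx _) (B.zsmul_mem hpx _)

theorem list_enum {G : Type*} [Zero G] (R : Finset G) :
    ∃ (e : ℕ → G) (r : ℕ), ∀ x ∈ R, ∃ j, j < r ∧ e j = x := by
  refine ⟨fun j => R.toList.getD j 0, R.toList.length, fun x hx => ?_⟩
  obtain ⟨j, hj, hjx⟩ := List.getElem_of_mem (Finset.mem_toList.2 hx)
  refine ⟨j, hj, ?_⟩
  change R.toList.getD j 0 = x
  rw [← hjx, List.getD_eq_getElem]

theorem embed (G : Type) [AddCommGroup G] [TopologicalSpace G] [PolishSpace G]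
    [NonarchimedeanAddGroup G] (hG : TameG G) :
    ∃ f : G →+ ((n : ℕ) → HH n), Topology.IsEmbedding f := by
  classical
  obtain ⟨U₀, hU₀⟩ := exists_bas G
  obtain ⟨n₀, hn₀⟩ := str1 hU₀ hG
  set U : ℕ → AddSubgroup G := fun j => U₀ (n₀ + j) with hUdef
  have hU : Bas U := hU₀.sub_seq (fun j => n₀ + j) (fun j => Nat.lt_succ_self _)
  have htor : ∀ m, ∀ x ∈ U 0, ∃ k : ℕ, 1 ≤ k ∧ k • x ∈ U m := fun m x hx => hn₀ _ x hx
  have hsoc : ∀ p : ℕ, ∃ i, p.Prime → ∀ n, i ≤ n →
      ∃ R : Finset G, ∀ y ∈ U n, p • y ∈ U (n + 1) → ∃ r ∈ R, y - r ∈ U (n + 1) := by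
    intro p
    by_cases hp : p.Prime
    · obtain ⟨i, hi⟩ := str2 hU₀ hG p hp
      refine ⟨i, fun _ n hn => ?_⟩
      obtain ⟨R, hR⟩ := hi (n₀ + (n + 1))
      exact ⟨R, fun y hy hpy => hR y (hU₀.anti (le_trans hn (Nat.le_add_left _ _)) hy) hpy⟩
    · exact ⟨0, fun h => absurd h hp⟩
  choose I hI using hsoc
  have hcount : ∀ n, Countable (G ⧸ U n) := fun n => countable_quot (U n) (hU.isOpen n)
  -- the coordinate homomorphisms
  have hw : ∀ n, ∃ w : G →+ (ℕ →₀ ℚ ⧸ Wq n), (∀ b ∈ U 0, w b = 0) ∧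
      (n = 0 → ∀ x, w x = 0 → ∃ k : ℕ, 1 ≤ k ∧ k • x ∈ U 0) := by
    intro n
    by_cases h : n = 0
    · have : Wq n = ⊥ := by unfold Wq; rw [if_pos h]
      rw [this]
      obtain ⟨w, h1, h2⟩ := phi_inf (U 0)
      exact ⟨w, h1, fun _ => h2⟩
    · exact ⟨0, fun _ _ => rfl, fun h' => absurd h' h⟩
  choose w hw1 hw2 using hw
  choose κ hκ1 hκ2 using fun n => phi_P {p | n ≤ p} (U n)
  choose ε hε1 hε2 using fun n => phi_P {n} (U (I n))
  have he : ∀ p n, ∃ (e : ℕ → G) (r : ℕ), p.Prime → I p ≤ n → ∀ y ∈ U n, p • y ∈ U (n + 1) →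
      ∃ j, j < r ∧ y - e j ∈ U (n + 1) := by
    intro p n
    by_cases h : p.Prime ∧ I p ≤ n
    · obtain ⟨R, hR⟩ := hI p h.1 n h.2
      obtain ⟨e, r, her⟩ := list_enum R
      refine ⟨e, r, fun _ _ y hy hpy => ?_⟩
      obtain ⟨s, hs, hys⟩ := hR y hy hpy
      obtain ⟨j, hj, rfl⟩ := her s hs
      exact ⟨j, hj, hys⟩
    · exact ⟨fun _ => 0, 0, fun h1 h2 => absurd ⟨h1, h2⟩ h⟩
  choose e r her using he
  have hχ : ∀ m : ℕ, ∃ χ : G →+ ℚ ⧸ RP {m.unpair.1},
      (∀ b ∈ U (m.unpair.2.unpair.1 + 1), χ b = 0) ∧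
      ∀ p n j, m.unpair.1 = p → m.unpair.2.unpair.1 = n → m.unpair.2.unpair.2 = j →
        p.Prime → p • e p n j ∈ U (n + 1) → χ (e p n j) = 0 → e p n j ∈ U (n + 1) := by
    intro m
    set p := m.unpair.1 with hpm
    set n := m.unpair.2.unpair.1 with hnm
    set j := m.unpair.2.unpair.2 with hjm
    by_cases h : p.Prime ∧ p • e p n j ∈ U (n + 1)
    · obtain ⟨χ, h1, h2⟩ := chi_p p h.1 (U (n + 1)) (e p n j) h.2
      refine ⟨χ, h1, ?_⟩
      rintro p' n' j' rfl rfl rfl _ _ h3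
      exact h2 h3
    · refine ⟨0, fun _ _ => rfl, ?_⟩
      rintro p' n' j' rfl rfl rfl h1 h2 _
      exact absurd ⟨h1, h2⟩ h
  choose χ hχ1 hχ2 using hχ
  let f : G →+ ((n : ℕ) → HH n) :=
    { toFun := fun x n => (w n x, κ n x, ε n x, χ n x)
      map_zero' := by
        funext n
        change (w n 0, κ n 0, ε n 0, χ n 0) = (0, 0, 0, 0)
        rw [map_zero, map_zero, map_zero, map_zero]
      map_add' := by
        intro x y
        funext n
        change (w n (x + y), κ n (x + y), ε n (x + y), χ n (x + y)) =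
          (w n x + w n y, κ n x + κ n y, ε n x + ε n y, χ n x + χ n y)
        rw [map_add, map_add, map_add, map_add] }
  have hf0 : ∀ x n, f x n = 0 ↔ (w n x = 0 ∧ κ n x = 0 ∧ ε n x = 0 ∧ χ n x = 0) := by
    intro x n
    have : f x n = 0 ↔ ((w n x, κ n x, ε n x, χ n x) : (ℕ →₀ ℚ ⧸ Wq n) × (ℕ →₀ ℚ ⧸ RP {p | n ≤ p}) ×
      (ℕ →₀ ℚ ⧸ RP {n}) × (ℚ ⧸ RP {n.unpair.1})) = (0, 0, 0, 0) := Iff.rfl
    rw [this, Prod.mk.injEq, Prod.mk.injEq, Prod.mk.injEq]
  have hker : ∀ n, ∃ m, ∀ b ∈ U m, f b n = 0 := by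
    intro n
    refine ⟨max (max 0 n) (max (I n) (n.unpair.2.unpair.1 + 1)), fun b hb => ?_⟩
    rw [hf0]
    refine ⟨hw1 n b (hU.anti (Nat.zero_le _) hb), hκ1 n b (hU.anti ?_ hb),
      hε1 n b (hU.anti ?_ hb), hχ1 n b (hU.anti ?_ hb)⟩
    · exact le_trans (le_max_right _ _) (le_max_left _ _)
    · exact le_trans (le_max_left _ _) (le_max_right _ _)
    · exact le_trans (le_max_right _ _) (le_max_right _ _)
  have hcont : Continuous f := by
    refine continuous_pi fun n => ?_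
    let g : G →+ HH n := (Pi.evalAddMonoidHom HH n).comp f
    have hg : ∀ x, g x = f x n := fun x => rfl
    refine continuous_of_continuousAt_zero g ?_
    obtain ⟨m, hm⟩ := hker n
    have h1 : (U m : Set G) ∈ 𝓝 (0 : G) := (hU.isOpen m).mem_nhds (U m).zero_mem
    rw [ContinuousAt, map_zero, nhds_discrete (HH n), Filter.tendsto_pure]
    filter_upwards [h1] with b hb
    rw [hg]
    exact hm b hb
  -- main claim
  have hclaim : ∀ n, ∃ N, ∀ x, (∀ i ≤ N, f x i = 0) → x ∈ U n := by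
    intro n
    induction n with
    | zero =>
      refine ⟨0, fun x hx => ?_⟩
      obtain ⟨h1, h2, -, -⟩ := (hf0 x 0).1 (hx 0 le_rfl)
      refine min_tor (U 0) x (hw2 0 rfl x h1) fun p hp j hpj => ?_
      refine hκ2 0 (j • x) p (Nat.zero_le p) hp hpj ?_
      rw [map_nsmul, h2, smul_zero]
    | succ n ih =>
      obtain ⟨N, hN⟩ := ih
      let N' : ℕ := (Finset.range (n + 1)).sup (fun p => (Finset.range (r p n)).sup
        (fun j => Nat.pair p (Nat.pair n j)))
      have hN' : ∀ p j, p < n + 1 → j < r p n → Nat.pair p (Nat.pair n j) ≤ N' := by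
        intro p j hp hj
        refine le_trans ?_ (Finset.le_sup (f := fun p => (Finset.range (r p n)).sup
          (fun j => Nat.pair p (Nat.pair n j))) (Finset.mem_range.2 hp))
        exact Finset.le_sup (f := fun j => Nat.pair p (Nat.pair n j)) (Finset.mem_range.2 hj)
      refine ⟨max N (max (n + 1) N'), fun x hx => ?_⟩
      have hxn : x ∈ U n := hN x fun i hi => hx i (le_trans hi (le_max_left _ _))
      have hx1 : ∀ i ≤ n + 1, f x i = 0 := fun i hi =>
        hx i (le_trans hi (le_trans (le_max_left _ _) (le_max_right _ _)))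
      have hx2 : ∀ i ≤ N', f x i = 0 := fun i hi =>
        hx i (le_trans hi (le_trans (le_max_right _ _) (le_max_right _ _)))
      refine min_tor (U (n + 1)) x (htor (n + 1) x (hU.anti (Nat.zero_le n) hxn)) ?_
      intro p hp j hpj
      set y := j • x with hy
      have hyn : y ∈ U n := (U n).nsmul_mem hxn _
      by_cases hpn : n + 1 ≤ p
      · refine hκ2 (n + 1) y p hpn hp hpj ?_
        rw [hy, map_nsmul, ((hf0 x (n + 1)).1 (hx1 _ le_rfl)).2.1, smul_zero]
      · rw [not_le] at hpn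
        by_cases hIp : I p ≤ n
        · obtain ⟨l, hl, hyl⟩ := her p n hp hIp y hyn hpj
          set m := Nat.pair p (Nat.pair n l) with hm
          have hm1 : m.unpair.1 = p := by rw [hm, Nat.unpair_pair]
          have hm2 : m.unpair.2.unpair.1 = n := by rw [hm, Nat.unpair_pair, Nat.unpair_pair]
          have hm3 : m.unpair.2.unpair.2 = l := by rw [hm, Nat.unpair_pair, Nat.unpair_pair]
          have hfm : f x m = 0 := hx2 m (hN' p l hpn hl)
          have hχy : χ m y = 0 := by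
            rw [hy, map_nsmul, ((hf0 x m).1 hfm).2.2.2, smul_zero]
          have hχe : χ m (e p n l) = 0 := by
            have h1 : e p n l = y - (y - e p n l) := by abel
            rw [h1, map_sub, hχy, hχ1 m _ (by rw [hm2]; exact hyl), sub_zero]
          have hpe : p • e p n l ∈ U (n + 1) := by
            have h1 : p • e p n l = p • y - p • (y - e p n l) := by
              rw [← smul_sub]; congr 1; abel
            rw [h1]
            exact (U (n + 1)).sub_mem hpj ((U (n + 1)).nsmul_mem hyl _)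
          have h2 := hχ2 m p n l hm1 hm2 hm3 hp hpe hχe
          have h3 : y = (y - e p n l) + e p n l := by abel
          rw [h3]
          exact (U (n + 1)).add_mem hyl h2
        · rw [not_le] at hIp
          have hεx : ε p x = 0 := ((hf0 x p).1 (hx1 p (by omega))).2.2.1
          obtain ⟨k, hpk, hk⟩ := p_part (U (I p)) y p
            (htor (I p) y (hU.anti (Nat.zero_le n) hyn)) hp (fun i hi => by
              refine hε2 p (i • y) p rfl hp hi ?_
              rw [hy, map_nsmul, map_nsmul, hεx, smul_zero, smul_zero])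
          exact of_coprime (U (n + 1)) y p k hp hpk hpj (hU.anti (by omega) hk)
  refine ⟨f, ?_, ?_⟩
  · refine Topology.isInducing_iff_nhds.2 fun x => le_antisymm ?_ ?_
    · exact (hcont.tendsto x).le_comap
    · intro W hW
      have h1 : (fun v : G => x + v) ⁻¹' W ∈ 𝓝 (0 : G) := by
        have hc : Continuous fun v : G => x + v := continuous_const.add continuous_id
        refine hc.continuousAt ?_
        rw [add_zero]; exact hW
      obtain ⟨n, hn⟩ := hU.small _ h1
      obtain ⟨N, hN⟩ := hclaim n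
      have hopen : IsOpen {g : (n : ℕ) → HH n | ∀ i ≤ N, g i = f x i} := by
        have h1 : {g : (n : ℕ) → HH n | ∀ i ≤ N, g i = f x i} =
            ⋂ i ∈ Finset.range (N + 1), (fun g : (n : ℕ) → HH n => g i) ⁻¹' {f x i} := by
          ext g
          simp only [mem_ofPred_eq, mem_iInter, mem_preimage, mem_singleton_iff,
            Finset.mem_range, Nat.lt_succ_iff]
        rw [h1]
        refine isOpen_biInter_finset fun i _ => ?_
        exact (isOpen_discrete _).preimage (continuous_apply i)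
      refine ⟨_, hopen.mem_nhds (fun i _ => rfl), ?_⟩
      intro y hy
      have h2 : y - x ∈ U n := by
        refine hN _ fun i hi => ?_
        have h3 : f y i = f x i := hy i hi
        rw [map_sub, Pi.sub_apply, h3, sub_self]
      have h4 := hn h2
      rw [mem_preimage, add_sub_cancel] at h4
      exact h4
  · refine (injective_iff_map_eq_zero f).2 fun x hx => ?_
    by_contra hne
    have h2 : ({x}ᶜ : Set G) ∈ 𝓝 (0 : G) :=
      isOpen_compl_singleton.mem_nhds (by
        rw [mem_compl_iff, mem_singleton_iff]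
        exact fun h => hne h.symm)
    obtain ⟨n, hn⟩ := hU.small _ h2
    obtain ⟨N, hN⟩ := hclaim n
    exact hn (hN x fun i _ => by rw [hx]; rfl) rfl

end Pool.Agent.H731R3.Tame
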