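import Mathlib
import Pool.Agent.H731R3.Uni2

set_option autoImplicit false

/-!
Multiplicative form of the universality theorem.
-/

open Set Filter
open scoped Topology

namespace Pool.Agent.H731R3.Tame

/-- The universal group, multiplicatively. -/
abbrev UU : Type := Multiplicative ((n : ℕ) → HH n)

theorem polish_UU : PolishSpace UU := polish_pi HH

theorem nonarch_UU : NonarchimedeanGroup UU := by
  have h1 : IsTopologicalAddGroup ((n : ℕ) → HH n) := inferInstance
  have h2 : IsTopologicalGroup UU := inferInstance
  refine { h2 with is_nonarchimedean := ?_ }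
  intro W hW
  have hW' : W ∈ 𝓝 (0 : (n : ℕ) → HH n) := hW
  obtain ⟨n, hn⟩ := (bas_VV HH).small _ hW'
  refine ⟨{ toSubgroup := AddSubgroup.toSubgroup (VV HH n), isOpen' := (bas_VV HH).isOpen n }, ?_⟩
  exact hn

theorem tame_mul {A : Type} [AddCommGroup A] [TopologicalSpace A] (hA : TameG A)
    (X : Type) [TopologicalSpace X] [PolishSpace X] [MulAction (Multiplicative A) X]
    [ContinuousSMul (Multiplicative A) X] :
    @MeasurableSet (X × X) (borel (X × X)) {p : X × X | ∃ g : Multiplicative A, g • p.1 = p.2} := by
  let act : AddAction A X :=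
    { vadd := fun a x => Multiplicative.ofAdd a • x
      zero_vadd := fun x => one_smul (Multiplicative A) x
      add_vadd := fun a b x => mul_smul (Multiplicative.ofAdd a) (Multiplicative.ofAdd b) x }
  have hc : Continuous fun p : Multiplicative A × X => p.1 • p.2 := continuous_smul
  let _ : ContinuousVAdd A X := ⟨hc⟩
  exact hA X

theorem tame_add {G : Type} [CommGroup G] [TopologicalSpace G]
    (hG : ∀ (X : Type) [TopologicalSpace X] [PolishSpace X] [MulAction G X] [ContinuousSMul G X],
          @MeasurableSet (X × X) (borel (X × X)) {p : X × X | ∃ g : G, g • p.1 = p.2}) :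
    TameG (Additive G) := by
  intro X _ _ _ _
  let act : MulAction G X :=
    { smul := fun a x => Additive.ofMul a +ᵥ x
      one_smul := fun x => zero_vadd (Additive G) x
      mul_smul := fun a b x => add_vadd (Additive.ofMul a) (Additive.ofMul b) x }
  have hc : Continuous fun p : Additive G × X => p.1 +ᵥ p.2 := continuous_vadd
  let _ : ContinuousSMul G X := ⟨hc⟩
  exact hG X

theorem exists_universal :
    ∃ (U : Type) (_ : CommGroup U) (_ : TopologicalSpace U) (_ : NonarchimedeanGroup U)
      (_ : PolishSpace U),
      (∀ (X : Type) [TopologicalSpace X] [PolishSpace X] [MulAction U X] [ContinuousSMul U X],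
        @MeasurableSet (X × X) (borel (X × X)) {p : X × X | ∃ g : U, g • p.1 = p.2}) ∧
      ∀ (G : Type) [CommGroup G] [TopologicalSpace G] [NonarchimedeanGroup G] [PolishSpace G],
        (∀ (X : Type) [TopologicalSpace X] [PolishSpace X] [MulAction G X] [ContinuousSMul G X],
          @MeasurableSet (X × X) (borel (X × X)) {p : X × X | ∃ g : G, g • p.1 = p.2}) →
        ∃ f : G →* U, Topology.IsEmbedding (f : G → U) := by
  refine ⟨UU, inferInstance, inferInstance, nonarch_UU, polish_UU, ?_, ?_⟩
  · intro X _ _ _ _
    exact tame_mul HH_tame X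
  · intro G _ _ _ _ hG
    have h1 : PolishSpace (Additive G) := ‹PolishSpace G›
    have h2 : NonarchimedeanAddGroup (Additive G) := by
      have h3 : IsTopologicalAddGroup (Additive G) := inferInstance
      refine { h3 with is_nonarchimedean := ?_ }
      intro W hW
      have hW' : W ∈ 𝓝 (1 : G) := hW
      obtain ⟨V, hV⟩ := NonarchimedeanGroup.is_nonarchimedean (G := G) _ hW'
      exact ⟨{ toAddSubgroup := Subgroup.toAddSubgroup V.toSubgroup, isOpen' := V.isOpen' }, hV⟩
    obtain ⟨f, hf⟩ := embed (Additive G) (tame_add hG)
    let F : G →* UU :=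
      { toFun := fun g => Multiplicative.ofAdd (f (Additive.ofMul g))
        map_one' := by
          change Multiplicative.ofAdd (f 0) = 1
          rw [map_zero]; rfl
        map_mul' := by
          intro x y
          change Multiplicative.ofAdd (f (Additive.ofMul x + Additive.ofMul y)) = _
          rw [map_add]; rfl }
    exact ⟨F, hf⟩

end Pool.Agent.H731R3.Tame
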